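import Pool.Agent.K3h1.FC.Stm
import Pool.Agent.Y546.WQ.All
import Pool.Agent.K3h44.ER.DER
import Pool.Agent.K3h85.ER.QG
import Pool.Agent.K3h85.ER.RG1

/-!
# Project FC: the criteria from the library
-/

set_option autoImplicit false

namespace Pool.Agent.K3h1.FC

open NumberField IsDedekindDomain Polynomial Pool.Agent.Y546.WQ

section

variable {p : ℕ} [Fact p.Prime] {E : Type} [Field E] [NumberField E]

omit [NumberField E] in
/-- the value of the polynomial modulo a prime above `q` -/
theorem aeval_mod (w : 𝓞 E) (q : ℕ) (f : ℤ[X]) (P : Ideal (𝓞 E)) (hq : (q : 𝓞 E) ∈ P)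
    (n B₀ B₁ : ZMod q) (hf : f.map (Int.castRingHom (ZMod q)) =
      Polynomial.C n * (Polynomial.C B₀ + Polynomial.C B₁ * X)) (hw : aeval w f ∈ P) :
    ∃ φ : 𝓞 E →+* 𝓞 E ⧸ P, ∃ ι : ZMod q →+* 𝓞 E ⧸ P, (∀ a, φ a = Ideal.Quotient.mk P a) ∧
      ι n * (ι B₀ + ι B₁ * φ w) = 0 := by
  have h2F : (q : 𝓞 E ⧸ P) = 0 := by
    have : Ideal.Quotient.mk P (q : 𝓞 E) = 0 := Ideal.Quotient.eq_zero_iff_mem.2 hq
    rwa [map_natCast] at this
  obtain ⟨k, hk⟩ := CharP.exists (𝓞 E ⧸ P)
  have hkq : k ∣ q := (CharP.cast_eq_zero_iff (𝓞 E ⧸ P) k q).1 h2F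
  refine ⟨Ideal.Quotient.mk P, ZMod.castHom hkq (𝓞 E ⧸ P), fun _ => rfl, ?_⟩
  have h1 : Ideal.Quotient.mk P (aeval w f) = 0 := Ideal.Quotient.eq_zero_iff_mem.2 hw
  rw [aeval_def, hom_eval₂] at h1
  have h2 : (Ideal.Quotient.mk P).comp (algebraMap ℤ (𝓞 E)) =
      (ZMod.castHom hkq (𝓞 E ⧸ P)).comp (Int.castRingHom (ZMod q)) := RingHom.ext_int _ _
  rw [h2, ← eval₂_map, hf] at h1
  simpa [eval₂_mul, eval₂_add] using h1

theorem main : S_CRIT := by
  intro p _ h5 E _ _ c f n hpn A₀ A₁ hA hf h0 hv
  have hpp : p.Prime := Fact.out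
  have hp2 : p ≠ 2 := by omega
  have hn0 : (n : ZMod p) ≠ 0 := by
    rw [Ne, ZMod.intCast_zmod_eq_zero_iff_dvd]
    exact hpn
  have hev : (f.map (Int.castRingHom (ZMod p))).eval 1 = (n : ZMod p) := by
    rw [hf]
    simp [hA]
  have hp1 : ¬ (p : ℤ) ∣ f.eval 1 := by
    intro h
    apply hn0
    rw [← hev]
    have e := eval_intCast_map (Int.castRingHom (ZMod p)) f 1
    rw [Int.cast_one] at e
    rw [e]
    exact (ZMod.intCast_zmod_eq_zero_iff_dvd _ p).2 h
  have hrel : ∀ a : ℕ, 0 < a → a + 2 ≤ p → ∃ g : E, g ≠ 0 ∧ ∃ i : ℕ,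
      tha c a (aeval c.z f / (n : E)) = c.z ^ i * g ^ p ∧ ∃ r : ZMod p, r ≠ 0 ∧
      (X - 1) ^ (p - 1) ∣ thPa p a (f.map (Int.castRingHom (ZMod p))) -
        Polynomial.C r * X ^ i := by
    intro a ha hap
    obtain ⟨g, hg, i, hi⟩ := relGA aUNITA hp2 a ha hap c f n hpn hp1 h0 hv
    exact ⟨g, hg, i, hi, Y919.WQ.mainLAMA p hp2 a ha hap E c f n hpn hp1 g hg i hi⟩
  have hRel : Rel p (f.map (Int.castRingHom (ZMod p))) := by
    intro a ha hap
    obtain ⟨g, hg, i, hi, r, hr, hd⟩ := hrel a ha hap
    exact ⟨i, r, hr, hd⟩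
  have hdeg : (f.map (Int.castRingHom (ZMod p))).natDegree ≤ 1 := by
    rw [hf]
    refine (natDegree_C_mul_le _ _).trans ((natDegree_add_le _ _).trans (max_le ?_ ?_))
    · rw [natDegree_C]; exact zero_le_one
    · exact natDegree_C_mul_le _ _ |>.trans natDegree_X_le
  have hc0 : (f.map (Int.castRingHom (ZMod p))).coeff 0 = n * A₀ := by
    rw [hf]
    simp
  have hc1 : (f.map (Int.castRingHom (ZMod p))).coeff 1 = n * A₁ := by
    rw [hf, coeff_C_mul, coeff_add, coeff_C, coeff_C_mul, coeff_X_one]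
    simp
  refine ⟨fun hreg hA₀ hA₁ => ?_, ?_⟩
  · have hpal : (f.map (Int.castRingHom (ZMod p))).reflect 1 =
        f.map (Int.castRingHom (ZMod p)) := by
      rcases hreg with h | h
      · refine Y510.WQ.mainPOLBA Y275.WQ.mainCOREA p 1 _ (by omega) hdeg ?_ ?_ ?_ hRel
          fun j hj h3j hjm => ?_
        · rw [hc0]; exact mul_ne_zero hn0 hA₀
        · rw [hc1]; exact mul_ne_zero hn0 hA₁
        · rw [hev]; exact hn0
        · apply reg_of Y61.WQ.mainBER j hj h3j (by omega)
          have : j = 3 := by omega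
          rw [this]
          exact h
      · refine Y590.WQ.mainPOLE Y780.WQ.mainPOLE1 Y286.WQ.mainPOLE2 p 1 _
          ((irr p).image fun k => p - k) one_pos hdeg ?_ ?_ ?_ hRel ?_ ?_
        · rw [hc0]; exact mul_ne_zero hn0 hA₀
        · rw [hc1]; exact mul_ne_zero hn0 hA₁
        · rw [hev]; exact hn0
        · intro j hj h3j hjp hjJ
          apply reg_of Y61.WQ.mainBER j hj h3j hjp
          intro hk
          apply hjJ
          rw [Finset.mem_image]
          exact ⟨p - j, hk, by omega⟩
        · have e : ((irr p).image fun k => p - k).card ≤ (irr p).card := Finset.card_image_le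
          have e2 : (((irr p).image fun k => p - k).card + 1) *
              (((irr p).image fun k => p - k).card + 2) ≤
                ((irr p).card + 1) * ((irr p).card + 2) := Nat.mul_le_mul (by omega) (by omega)
          omega
    have h1 := congrArg (fun g => g.coeff 0) hpal
    rw [coeff_reflect, revAt_le zero_le_one, Nat.sub_zero, hc0, hc1] at h1
    exact (mul_left_cancel₀ hn0 h1).symm
  · intro q _ hqp hqn hW B₀ B₁ hB hfq
    have hqq : q.Prime := Fact.out
    obtain ⟨a, ha, hap, hhs⟩ := Pool.Agent.K3h85.ER.RG1.main p hp2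
    obtain ⟨g, hg, i, hi, r, hr, hd⟩ := hrel a ha hap
    have hder : ∀ _ : True, (i : ZMod p) = A₁ * hsa p a 1 := by
      intro _
      have h1 := Pool.Agent.K3h44.ER.mainDER p hp2 a i _ r (by rw [hev]; exact hn0) hd
      rw [hev, hf] at h1
      have h2 : (derivative (Polynomial.C (n : ZMod p) *
          (Polynomial.C A₀ + Polynomial.C A₁ * X))).eval 1 = n * A₁ := by
        simp
      rw [h2] at h1
      apply mul_left_cancel₀ hn0
      linear_combination h1
    have hi1 := hder trivial
    obtain ⟨w, hw, hwp⟩ := exists_zint c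
    have hwf : ∀ w' : 𝓞 E, (w' : E) = aeval c.z f → w' = aeval w f := by
      intro w' hw'
      apply RingOfIntegers.coe_injective
      have h1 : algebraMap (𝓞 E) E w = c.z := hw
      refine hw'.trans ?_
      rw [← h1]
      exact aeval_algebraMap_apply E w f
    have hnq : (n : ZMod q) ≠ 0 := by
      rw [Ne, ZMod.intCast_zmod_eq_zero_iff_dvd]
      exact hqn
    -- the field
    have hfield : ∀ P : Ideal (𝓞 E), P.IsPrime → (q : 𝓞 E) ∈ P → ∀ w' : 𝓞 E,
        (w' : E) = aeval c.z f → w' ∈ P → ∃ ι : ZMod q →+* 𝓞 E ⧸ P,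
          ι B₀ + ι B₁ * Ideal.Quotient.mk P w = 0 := by
      intro P hP hqP w' hw' hmem
      have := hP
      rw [hwf w' hw'] at hmem
      obtain ⟨φ, ι, hφ, h⟩ := aeval_mod w q f P hqP n B₀ B₁ hfq hmem
      refine ⟨ι, ?_⟩
      have hne : Nontrivial (𝓞 E ⧸ P) := Ideal.Quotient.nontrivial_iff.2 hP.ne_top
      have hι : ι (n : ZMod q) ≠ 0 := by
        intro h1
        exact hnq ((map_eq_zero_iff ι ι.injective).1 h1)
      have h3 := (mul_eq_zero.1 h).resolve_left hι
      rwa [hφ] at h3
    have hwunit : ∀ P : Ideal (𝓞 E), P.IsPrime → Ideal.Quotient.mk P w ≠ 0 := by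
      intro P hP h
      have h1 : w ∈ P := Ideal.Quotient.eq_zero_iff_mem.1 h
      apply one_notMem P hP
      rw [← hwp.pow_eq_one]
      exact P.pow_mem_of_mem h1 p hpp.pos
    set m := f.natDegree + 2 with hm
    have hQG : ∀ (α β : ℕ), X ^ β * f.map (Int.castRingHom (ZMod q)) =
        Polynomial.C (1 : ZMod q) * (X ^ α * (f.reflect m).map (Int.castRingHom (ZMod q))) →
        (∀ P : Ideal (𝓞 E), P.IsPrime → (q : 𝓞 E) ∈ P → ∀ w : 𝓞 E, (w : E) = aeval c.z f →
          w ∉ P) → 2 * A₁ = (m : ZMod p) + α - β := by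
      intro α β h1 h2
      have h3 := (Pool.Agent.K3h85.ER.QG.main p hp2 q hqp a ha hap E c f n hqn m α β 1
        (Or.inl rfl) (by omega) h1 h2 g hg i hi).resolve_right hW
      rw [hi1] at h3
      apply mul_right_cancel₀ hhs
      linear_combination h3
    have hrefl : (f.reflect m).map (Int.castRingHom (ZMod q)) =
        (Polynomial.C (n : ZMod q) * (Polynomial.C B₀ + Polynomial.C B₁ * X)).reflect m := by
      rw [← reflect_map, hfq]
    have hre : (Polynomial.C (n : ZMod q) * (Polynomial.C B₀ + Polynomial.C B₁ * X)).reflect m =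
        Polynomial.C (n : ZMod q) * (Polynomial.C B₀ * X ^ m + Polynomial.C B₁ * X ^ (m - 1)) := by
      rw [reflect_C_mul, reflect_add]
      have e1 : (Polynomial.C B₀ : (ZMod q)[X]).reflect m = Polynomial.C B₀ * X ^ m := by
        have := Polynomial.reflect_C_mul_X_pow m 0 (c := B₀)
        rw [pow_zero, mul_one, revAt_le (Nat.zero_le m), Nat.sub_zero] at this
        exact this
      have e2 : (Polynomial.C B₁ * X : (ZMod q)[X]).reflect m =
          Polynomial.C B₁ * X ^ (m - 1) := by
        have := Polynomial.reflect_C_mul_X_pow m 1 (c := B₁)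
        rw [pow_one, revAt_le (by omega)] at this
        exact this
      rw [e1, e2]
    rw [hrefl, hre, hfq] at hQG
    have h2p : (2 : ZMod p) ≠ 0 := by
      have h3 : ((2 : ℕ) : ZMod p) ≠ 0 := by
        rw [Ne, ZMod.natCast_eq_zero_iff]
        intro h
        exact hp2 ((Nat.prime_dvd_prime_iff_eq hpp Nat.prime_two).1 h)
      exact_mod_cast h3
    refine ⟨fun h => ?_, fun h => ?_, fun h => ?_⟩
    · have hB1 : B₁ = 1 := by rw [h, zero_add] at hB; exact hB
      have h1 := hQG 0 (m - 2) (by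
        rw [h, hB1]
        simp only [map_zero, zero_mul, zero_add, map_one, one_mul, pow_zero]
        have e : (X : (ZMod q)[X]) ^ (m - 1) = X ^ (m - 2) * X := by
          rw [← pow_succ]
          congr 1
        rw [e]
        ring) (by
        intro P hP hqP w' hw' hmem
        obtain ⟨ι, hι⟩ := hfield P hP hqP w' hw' hmem
        rw [h, hB1, map_zero, map_one, zero_add, one_mul] at hι
        exact hwunit P hP hι)
      have h2 : ((m - 2 : ℕ) : ZMod p) = (m : ZMod p) - 2 := by
        rw [Nat.cast_sub (by omega)]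
        norm_num
      rw [h2] at h1
      have h3 : A₁ = 1 := by
        apply mul_left_cancel₀ h2p
        rw [h1]
        push_cast
        ring
      rw [h3] at hA
      exact add_eq_right.1 hA
    · have hB1 : B₀ = 1 := by rw [h, add_zero] at hB; exact hB
      have h1 := hQG 0 m (by
        rw [h, hB1]
        simp only [map_zero, zero_mul, add_zero, map_one, one_mul, pow_zero]
        ring) (by
        intro P hP hqP w' hw' hmem
        obtain ⟨ι, hι⟩ := hfield P hP hqP w' hw' hmem
        have hne : Nontrivial (𝓞 E ⧸ P) := Ideal.Quotient.nontrivial_iff.2 hP.ne_top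
        rw [h, hB1, map_zero, map_one, zero_mul, add_zero] at hι
        exact one_ne_zero hι)
      have h2 : 2 * A₁ = 0 := by
        rw [h1]
        push_cast
        ring
      exact (mul_eq_zero.1 h2).resolve_left h2p
    · have hBne : B₀ ≠ 0 := by
        intro h1
        rw [← h, h1, add_zero] at hB
        exact zero_ne_one hB
      have h1 := hQG 0 (m - 1) (by
        rw [← h, pow_zero, one_mul, map_one, one_mul]
        have e : (X : (ZMod q)[X]) ^ m = X ^ (m - 1) * X := by
          rw [← pow_succ]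
          congr 1
        rw [e]
        ring) (by
        intro P hP hqP w' hw' hmem
        obtain ⟨ι, hι⟩ := hfield P hP hqP w' hw' hmem
        have hne : Nontrivial (𝓞 E ⧸ P) := Ideal.Quotient.nontrivial_iff.2 hP.ne_top
        have := hP
        rw [← h] at hι
        have h2 : ι B₀ * (1 + Ideal.Quotient.mk P w) = 0 := by linear_combination hι
        have h3 : ι B₀ ≠ 0 := by
          intro h4
          exact hBne ((map_eq_zero_iff ι ι.injective).1 h4)
        have h4 := (mul_eq_zero.1 h2).resolve_left h3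
        have h5 : Ideal.Quotient.mk P w = -1 := by linear_combination h4
        have h6 : (Ideal.Quotient.mk P w) ^ p = 1 := by
          rw [← map_pow, hwp.pow_eq_one, map_one]
        rw [h5, (hpp.odd_of_ne_two hp2).neg_one_pow] at h6
        have h7 : (2 : 𝓞 E ⧸ P) = 0 := by linear_combination -h6
        -- then q = 2, contradiction with B₀ = B₁
        have h8 : ι 2 = 0 := by rw [map_ofNat]; exact h7
        have h9 : (2 : ZMod q) = 0 := (map_eq_zero_iff ι ι.injective).1 h8
        have h10 : (2 : ZMod q) * B₀ = 1 := by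
          rw [← hB, ← h]
          ring
        rw [h9, zero_mul] at h10
        exact zero_ne_one h10)
      have h2 : ((m - 1 : ℕ) : ZMod p) = (m : ZMod p) - 1 := by
        rw [Nat.cast_sub (by omega)]
        norm_num
      rw [h2] at h1
      have h3 : 2 * A₁ = 1 := by
        rw [h1]
        push_cast
        ring
      linear_combination hA - h3

end

end Pool.Agent.K3h1.FC
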