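import Pool.Agent.K3h1.FC.Ord

/-!
# Project FC: a global element with given residues
-/

set_option autoImplicit false

namespace Pool.Agent.K3h1.FC

open NumberField IsDedekindDomain Polynomial Pool.Agent.Y546.WQ

open scoped TensorProduct

section

variable {p : ℕ} [Fact p.Prime] {E : Type} [Field E] [NumberField E] {r : ℕ} [Fact r.Prime]

/-- the quotient of the equations of two of the factors -/
theorem ratio (c : Cyc p E) (δ : E → E) (D : E) (hT : IsTwist p E δ D)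
    (x y z : ℚ_[r]) (hxy : x + y ≠ 0) (h : Lifts p r E δ D x y z) :
    ∃ u : Loc r E, ((1 : ℚ_[r]) ⊗ₜ[ℚ] (δ c.z / δ 1)) * u ^ p =
      (x / (x + y)) ⊗ₜ[ℚ] (1 : E) + (y / (x + y)) ⊗ₜ[ℚ] c.z := by
  have hpp : p.Prime := Fact.out
  obtain ⟨C, w, hw, _⟩ := h
  have hz1 : c.z ∈ nthRootsFinset p (1 : E) := by
    rw [mem_nthRootsFinset hpp.pos]
    exact c.prim.pow_eq_one
  have h11 : (1 : E) ∈ nthRootsFinset p (1 : E) := by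
    rw [mem_nthRootsFinset hpp.pos]
    exact one_pow p
  have e1 := hw 1 h11
  have e2 := hw c.z hz1
  have hδ1 := hT.ne 1 h11
  -- units
  have hu1 : (((x + y) ⊗ₜ[ℚ] (1 : E) : Loc r E)) * ((x + y)⁻¹ ⊗ₜ[ℚ] (1 : E)) = 1 := by
    rw [Algebra.TensorProduct.tmul_mul_tmul, mul_inv_cancel₀ hxy, one_mul]
    rfl
  have hu2 : (((1 : ℚ_[r]) ⊗ₜ[ℚ] δ 1 : Loc r E)) * ((1 : ℚ_[r]) ⊗ₜ[ℚ] (δ 1)⁻¹) = 1 := by
    rw [Algebra.TensorProduct.tmul_mul_tmul, mul_inv_cancel₀ hδ1, one_mul]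
    rfl
  have e1' : (C : Loc r E) * ((x + y) ⊗ₜ[ℚ] (1 : E)) = ((1 : ℚ_[r]) ⊗ₜ[ℚ] δ 1) * w 1 ^ p := by
    rw [← e1, TensorProduct.add_tmul]
  have hU : IsUnit (((1 : ℚ_[r]) ⊗ₜ[ℚ] δ 1 : Loc r E) * w 1 ^ p) := by
    rw [← e1']
    exact C.isUnit.mul (IsUnit.of_mul_eq_one _ hu1)
  have hw1 : IsUnit (w 1) := by
    have h3 := isUnit_of_mul_isUnit_right hU
    exact (isUnit_pow_iff hpp.ne_zero).1 h3
  obtain ⟨W, hW⟩ := hw1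
  have hWW : w 1 * ((W⁻¹ : (Loc r E)ˣ) : Loc r E) = 1 := by rw [← hW, W.mul_inv]
  refine ⟨w c.z * ((W⁻¹ : (Loc r E)ˣ) : Loc r E), ?_⟩
  set V : Loc r E := ((W⁻¹ : (Loc r E)ˣ) : Loc r E) with hV
  have hVp : w 1 ^ p * V ^ p = 1 := by rw [← mul_pow, hWW, one_pow]
  have e3 : ((1 : ℚ_[r]) ⊗ₜ[ℚ] (δ c.z / δ 1) : Loc r E) =
      ((1 : ℚ_[r]) ⊗ₜ[ℚ] δ c.z) * ((1 : ℚ_[r]) ⊗ₜ[ℚ] (δ 1)⁻¹) := by
    rw [div_eq_mul_inv, one_tmul_mul]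
  have e4 : ((x / (x + y)) ⊗ₜ[ℚ] (1 : E) + (y / (x + y)) ⊗ₜ[ℚ] c.z : Loc r E) =
      (x ⊗ₜ[ℚ] (1 : E) + y ⊗ₜ[ℚ] c.z) * ((x + y)⁻¹ ⊗ₜ[ℚ] (1 : E)) := by
    rw [add_mul, Algebra.TensorProduct.tmul_mul_tmul, Algebra.TensorProduct.tmul_mul_tmul,
      div_eq_mul_inv, div_eq_mul_inv, mul_one, mul_one]
  rw [e3, e4]
  have hCu : (C : Loc r E) * ((C⁻¹ : (Loc r E)ˣ) : Loc r E) = 1 := C.mul_inv
  set C' : Loc r E := ((C⁻¹ : (Loc r E)ˣ) : Loc r E) with hC'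
  set a := (x ⊗ₜ[ℚ] (1 : E) + y ⊗ₜ[ℚ] c.z : Loc r E)
  set s := ((x + y) ⊗ₜ[ℚ] (1 : E) : Loc r E)
  set s' := ((x + y)⁻¹ ⊗ₜ[ℚ] (1 : E) : Loc r E)
  set d := ((1 : ℚ_[r]) ⊗ₜ[ℚ] δ 1 : Loc r E)
  set d' := ((1 : ℚ_[r]) ⊗ₜ[ℚ] (δ 1)⁻¹ : Loc r E)
  set dz := ((1 : ℚ_[r]) ⊗ₜ[ℚ] δ c.z : Loc r E)
  -- dz w^p = C a, C s = d w1^p
  calc dz * d' * (w c.z * V) ^ p = (dz * w c.z ^ p) * (d' * V ^ p) := by ring
    _ = (C * a) * (d' * V ^ p) := by rw [← e2]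
    _ = a * s' * ((C * s) * (d' * V ^ p)) := by linear_combination (-a * C * d' * V ^ p) * hu1
    _ = a * s' * ((d * w 1 ^ p) * (d' * V ^ p)) := by rw [e1']
    _ = a * s' * ((d * d') * (w 1 ^ p * V ^ p)) := by ring
    _ = a * s' := by rw [hu2, hVp, mul_one, mul_one]

theorem rc_pow (c : Cyc p E) (k : Fin (p - 1)) (i : Fin (p - 1)) :
    rc c (c.z ^ (k : ℕ)) i = if i = k then 1 else 0 := by
  classical
  have h := rc_sum c (fun j => if j = k then (1 : ℚ) else 0) i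
  rw [← h]
  congr 1
  rw [Finset.sum_eq_single k]
  · simp
  · intro j _ hj
    simp [hj]
  · intro hj
    exact absurd (Finset.mem_univ k) hj

/-- the coordinates of `a + b z` -/
theorem lc_lin (h5 : 5 ≤ p) (c : Cyc p E) (a b : ℚ_[r]) (i : Fin (p - 1)) :
    lc r c (a ⊗ₜ[ℚ] (1 : E) + b ⊗ₜ[ℚ] c.z) i =
      if (i : ℕ) = 0 then a else if (i : ℕ) = 1 then b else 0 := by
  rw [lc_add, lc_tmul, lc_tmul]
  have h0 := rc_pow c ⟨0, by omega⟩ i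
  have h1 := rc_pow c ⟨1, by omega⟩ i
  simp only [pow_zero, pow_one] at h0 h1
  rw [h0, h1]
  simp only [Fin.ext_iff]
  by_cases hi0 : (i : ℕ) = 0
  · rw [if_pos hi0, if_pos hi0, if_neg (by omega)]
    simp
  · by_cases hi1 : (i : ℕ) = 1
    · rw [if_neg hi0, if_pos hi1, if_neg hi0, if_pos hi1]
      simp
    · rw [if_neg hi0, if_neg hi1, if_neg hi0, if_neg hi1]
      simp

/-- precision at one place -/
theorem prec (c : Cyc p E) (β : E) (u : Loc r E) :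
    ∃ ε : ℝ, 0 < ε ∧ ∀ u' : E, Le r c (u - (1 : ℚ_[r]) ⊗ₜ[ℚ] u') ε →
      Le r c (((1 : ℚ_[r]) ⊗ₜ[ℚ] β) * u ^ p - (1 : ℚ_[r]) ⊗ₜ[ℚ] (β * u' ^ p)) (1 / 2) := by
  obtain ⟨B₁, hB₁, h₁⟩ := exists_Le c u
  obtain ⟨B₂, hB₂, h₂⟩ := exists_Le c ((1 : ℚ_[r]) ⊗ₜ[ℚ] β)
  set B := 1 + B₁ with hB
  have hB0 : 0 < B := by linarith
  have hd : 0 < 2 * (B₂ * B ^ (p - 1)) := by positivity
  refine ⟨min 1 (1 / (2 * (B₂ * B ^ (p - 1)))), lt_min one_pos (by positivity), fun u' hu' => ?_⟩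
  set ε := min 1 (1 / (2 * (B₂ * B ^ (p - 1)))) with hε
  have hε0 : 0 ≤ ε := le_min zero_le_one (by positivity)
  have hε1 : ε ≤ 1 := min_le_left _ _
  have hε2 : ε ≤ 1 / (2 * (B₂ * B ^ (p - 1))) := min_le_right _ _
  have hu'B : Le r c ((1 : ℚ_[r]) ⊗ₜ[ℚ] u') B := by
    have e : ((1 : ℚ_[r]) ⊗ₜ[ℚ] u' : Loc r E) = u - (u - (1 : ℚ_[r]) ⊗ₜ[ℚ] u') := by ring
    rw [e]
    exact (h₁.mono (by linarith)).sub (hu'.mono (by linarith))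
  have e : (((1 : ℚ_[r]) ⊗ₜ[ℚ] β) * u ^ p - (1 : ℚ_[r]) ⊗ₜ[ℚ] (β * u' ^ p) : Loc r E) =
      ((1 : ℚ_[r]) ⊗ₜ[ℚ] β) * (u ^ p - ((1 : ℚ_[r]) ⊗ₜ[ℚ] u') ^ p) := by
    rw [one_tmul_mul, one_tmul_pow, mul_sub]
  rw [e]
  refine (Le.mul hB₂.le (mul_nonneg hε0 (pow_nonneg hB0.le (p - 1))) h₂
    (Le.pow_sub hB0.le hε0 (h₁.mono (by linarith)) hu'B hu' p)).mono ?_
  rw [le_div_iff₀ hd] at hε2
  linarith

omit [Fact p.Prime] in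
/-- the integers `g i` and `n` -/
theorem exists_int (s : Fin (p - 1) → ℚ) :
    ∃ (n : ℤ) (g : Fin (p - 1) → ℤ), n ≠ 0 ∧ (∀ i, (g i : ℚ) = n * s i) ∧
      ∀ (r : ℕ) [Fact r.Prime], (∀ i, ‖(s i : ℚ_[r])‖ ≤ 1) → ¬ (r : ℤ) ∣ n := by
  refine ⟨∏ i, ((s i).den : ℤ), fun i => (s i).num * ∏ j ∈ Finset.univ.erase i, ((s j).den : ℤ),
    ?_, fun i => ?_, fun r _ hr => ?_⟩
  · rw [Finset.prod_ne_zero_iff]
    intro i _
    exact_mod_cast (s i).den_ne_zero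
  · rw [← Finset.mul_prod_erase _ _ (Finset.mem_univ i)]
    push_cast
    have h := Rat.mul_den_eq_num (s i)
    calc ((s i).num : ℚ) * ∏ j ∈ Finset.univ.erase i, ((s j).den : ℚ) =
        (s i * (s i).den) * ∏ j ∈ Finset.univ.erase i, ((s j).den : ℚ) := by rw [h]
      _ = _ := by ring
  · have hrp : Prime (r : ℤ) := Nat.prime_iff_prime_int.1 Fact.out
    rw [hrp.dvd_finsetProd_iff]
    rintro ⟨i, _, hi⟩
    exact not_dvd_den (s i) (hr i) (by exact_mod_cast hi)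

/-- the residues of the coefficients -/
theorem map_eq (h5 : 5 ≤ p) (c : Cyc p E) (e : E) (n : ℤ) (g : Fin (p - 1) → ℤ)
    (hg : ∀ i, (g i : ℚ) = n * rc c e i) (a₀ a₁ : ℚ_[r]) (A₀ A₁ : ℤ)
    (hA₀ : ‖a₀ - (A₀ : ℚ_[r])‖ < 1) (hA₁ : ‖a₁ - (A₁ : ℚ_[r])‖ < 1)
    (h : Le r c ((a₀ ⊗ₜ[ℚ] (1 : E) + a₁ ⊗ₜ[ℚ] c.z) - (1 : ℚ_[r]) ⊗ₜ[ℚ] e) (1 / 2)) :
    (∑ i, Polynomial.C (g i) * X ^ (i : ℕ) : ℤ[X]).map (Int.castRingHom (ZMod r)) =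
      Polynomial.C (n : ZMod r) * (Polynomial.C (A₀ : ZMod r) + Polynomial.C (A₁ : ZMod r) * X) := by
  have hr : r.Prime := Fact.out
  -- the congruences
  have key : ∀ (i : Fin (p - 1)) (A : ℤ) (a : ℚ_[r]), ‖a - (A : ℚ_[r])‖ < 1 →
      ‖a - (rc c e i : ℚ_[r])‖ ≤ 1 / 2 → ((g i : ℤ) : ZMod r) = (n : ZMod r) * (A : ZMod r) := by
    intro i A a h1 h2
    have h3 : ‖((g i - n * A : ℤ) : ℚ_[r])‖ < 1 := by
      have e1 : ((g i - n * A : ℤ) : ℚ_[r]) =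
          (n : ℚ_[r]) * ((a - (A : ℚ_[r])) - (a - (rc c e i : ℚ_[r]))) := by
        have e2 : ((g i : ℚ) : ℚ_[r]) = ((n * rc c e i : ℚ) : ℚ_[r]) := by rw [hg i]
        push_cast at e2 ⊢
        rw [e2]
        ring
      rw [e1, norm_mul]
      have h4 : ‖(a - (A : ℚ_[r])) - (a - (rc c e i : ℚ_[r]))‖ < 1 := by
        rw [sub_eq_add_neg]
        refine (Padic.nonarchimedean _ _).trans_lt (max_lt h1 ?_)
        rw [norm_neg]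
        linarith
      calc ‖(n : ℚ_[r])‖ * ‖(a - (A : ℚ_[r])) - (a - (rc c e i : ℚ_[r]))‖
          ≤ 1 * ‖(a - (A : ℚ_[r])) - (a - (rc c e i : ℚ_[r]))‖ :=
            mul_le_mul_of_nonneg_right (Padic.norm_int_le_one n) (norm_nonneg _)
        _ < 1 := by rwa [one_mul]
    have h4 : (r : ℤ) ∣ g i - n * A := Padic.norm_intCast_lt_one_iff.1 h3
    have h5 := (ZMod.intCast_zmod_eq_zero_iff_dvd (g i - n * A) r).2 h4
    push_cast at h5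
    exact sub_eq_zero.1 h5
  have hco : ∀ i : Fin (p - 1), ‖(if (i : ℕ) = 0 then a₀ else if (i : ℕ) = 1 then a₁ else 0) -
      (rc c e i : ℚ_[r])‖ ≤ 1 / 2 := by
    intro i
    have h1 := h i
    rw [lc_sub, lc_lin h5, lc_tmul, mul_one] at h1
    exact h1
  ext k
  rw [coeff_map, finsetSum_coeff, coeff_C_mul, coeff_add, coeff_C, coeff_C_mul, coeff_X]
  simp only [coeff_C_mul, coeff_X_pow]
  by_cases hk : k < p - 1
  · rw [Finset.sum_eq_single (⟨k, hk⟩ : Fin (p - 1))]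
    · simp only [if_true, mul_one, eq_intCast]
      by_cases hk0 : k = 0
      · subst hk0
        rw [key ⟨0, hk⟩ A₀ a₀ hA₀ (by simpa using hco ⟨0, hk⟩)]
        simp
      · by_cases hk1 : k = 1
        · subst hk1
          rw [key ⟨1, hk⟩ A₁ a₁ hA₁ (by simpa using hco ⟨1, hk⟩)]
          simp
        · have := key ⟨k, hk⟩ 0 0 (by simp) (by
            have h1 := hco ⟨k, hk⟩
            simp only at h1
            rw [if_neg hk0, if_neg hk1] at h1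
            exact h1)
          rw [this]
          rw [if_neg hk0, if_neg (by omega)]
          simp
    · intro j _ hj
      rw [if_neg, mul_zero]
      intro h1
      apply hj
      exact Fin.ext h1.symm
    · intro h1
      exact absurd (Finset.mem_univ _) h1
  · rw [Finset.sum_eq_zero]
    · rw [if_neg (by omega), if_neg (by omega)]
      simp
    · intro j _
      have := j.2
      rw [if_neg (by omega), mul_zero]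

/-- a global element with given residues -/
theorem core (hWA : S_WA) (h5 : 5 ≤ p) (c : Cyc p E) (β : E)
    (hord : ∀ P : HeightOneSpectrum (𝓞 E), ∃ m : ℤ,
      P.valuation E β = WithZero.exp ((p : ℤ) * m))
    (a₀ a₁ : ℚ_[p]) (ha₀ : ‖a₀‖ ≤ 1) (ha₁ : ‖a₁‖ ≤ 1) (ha : a₀ + a₁ = 1) (u : Loc p E)
    (hu : ((1 : ℚ_[p]) ⊗ₜ[ℚ] β) * u ^ p = a₀ ⊗ₜ[ℚ] (1 : E) + a₁ ⊗ₜ[ℚ] c.z)
    (q : ℕ) [Fact q.Prime] (hqp : q ≠ p) (b₀ b₁ : ℚ_[q]) (hb₀ : ‖b₀‖ ≤ 1) (hb₁ : ‖b₁‖ ≤ 1)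
    (v : Loc q E) (hv : ((1 : ℚ_[q]) ⊗ₜ[ℚ] β) * v ^ p = b₀ ⊗ₜ[ℚ] (1 : E) + b₁ ⊗ₜ[ℚ] c.z)
    (A₀ A₁ B₀ B₁ : ℤ) (hA₀ : ‖a₀ - (A₀ : ℚ_[p])‖ < 1) (hA₁ : ‖a₁ - (A₁ : ℚ_[p])‖ < 1)
    (hB₀ : ‖b₀ - (B₀ : ℚ_[q])‖ < 1) (hB₁ : ‖b₁ - (B₁ : ℚ_[q])‖ < 1) :
    ∃ (f : ℤ[X]) (n : ℤ), ¬ (p : ℤ) ∣ n ∧ ¬ (q : ℤ) ∣ n ∧ aeval c.z f ≠ 0 ∧
      (∀ P : HeightOneSpectrum (𝓞 E), ∃ m : ℤ, P.valuation E (aeval c.z f) =
        P.valuation E ((n : ℤ) : E) * WithZero.exp ((p : ℤ) * m)) ∧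
      f.map (Int.castRingHom (ZMod p)) = Polynomial.C (n : ZMod p) *
        (Polynomial.C (A₀ : ZMod p) + Polynomial.C (A₁ : ZMod p) * X) ∧
      f.map (Int.castRingHom (ZMod q)) = Polynomial.C (n : ZMod q) *
        (Polynomial.C (B₀ : ZMod q) + Polynomial.C (B₁ : ZMod q) * X) := by
  have hpp : p.Prime := Fact.out
  obtain ⟨ε₁, hε₁, h₁⟩ := prec c β u
  obtain ⟨ε₂, hε₂, h₂⟩ := prec c β v
  obtain ⟨u', hu1, hu2⟩ := approx2 hWA hqp.symm c u v (min ε₁ ε₂) (lt_min hε₁ hε₂)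
  have k1 := h₁ u' (hu1.mono (min_le_left _ _))
  have k2 := h₂ u' (hu2.mono (min_le_right _ _))
  rw [hu] at k1
  rw [hv] at k2
  set e := β * u' ^ p with he
  obtain ⟨n, g, hn, hg, hng⟩ := exists_int (fun i => rc c e i)
  have hle : ∀ (r : ℕ) [Fact r.Prime] (t₀ t₁ : ℚ_[r]), ‖t₀‖ ≤ 1 → ‖t₁‖ ≤ 1 →
      Le r c ((t₀ ⊗ₜ[ℚ] (1 : E) + t₁ ⊗ₜ[ℚ] c.z) - (1 : ℚ_[r]) ⊗ₜ[ℚ] e) (1 / 2) →
      ∀ i, ‖(rc c e i : ℚ_[r])‖ ≤ 1 := by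
    intro r _ t₀ t₁ ht₀ ht₁ h i
    have h1 := h i
    rw [lc_sub, lc_lin h5, lc_tmul, mul_one] at h1
    have h2 : (rc c e i : ℚ_[r]) = (if (i : ℕ) = 0 then t₀ else if (i : ℕ) = 1 then t₁ else 0) -
        ((if (i : ℕ) = 0 then t₀ else if (i : ℕ) = 1 then t₁ else 0) - (rc c e i : ℚ_[r])) := by
      ring
    rw [h2, sub_eq_add_neg]
    refine (Padic.nonarchimedean _ _).trans (max_le ?_ ?_)
    · split_ifs
      · exact ht₀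
      · exact ht₁
      · rw [norm_zero]; exact zero_le_one
    · rw [norm_neg]
      linarith
  have hf : aeval c.z (∑ i, Polynomial.C (g i) * X ^ (i : ℕ) : ℤ[X]) = (n : E) * e := by
    rw [map_sum]
    conv_rhs => rw [← sum_rc c e]
    rw [Finset.mul_sum]
    refine Finset.sum_congr rfl fun i _ => ?_
    rw [map_mul, map_pow, aeval_X, aeval_C]
    have h3 : (algebraMap ℤ E) (g i) = (n : E) * (rc c e i : E) := by
      have h4 : ((g i : ℚ) : E) = ((n * rc c e i : ℚ) : E) := by rw [hg i]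
      push_cast at h4
      simpa using h4
    rw [h3]
    ring
  have he0 : e ≠ 0 := by
    intro h0
    have h6 : ∀ i, (rc c e i : ℚ_[p]) = 0 := by
      intro i
      rw [h0]
      simp [rc]
    have h7 := k1 ⟨0, by omega⟩
    have h8 := k1 ⟨1, by omega⟩
    rw [lc_sub, lc_lin h5, lc_tmul, mul_one, h6] at h7 h8
    simp only [if_true, sub_zero, one_ne_zero, if_false] at h7 h8
    have h9 : ‖a₀ + a₁‖ ≤ 1 / 2 := (Padic.nonarchimedean _ _).trans (max_le h7 h8)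
    rw [ha, norm_one] at h9
    norm_num at h9
  have hnE : (n : E) ≠ 0 := by exact_mod_cast hn
  have hu'0 : u' ≠ 0 := by
    intro h0
    apply he0
    rw [he, h0, zero_pow hpp.ne_zero, mul_zero]
  refine ⟨∑ i, Polynomial.C (g i) * X ^ (i : ℕ), n, hng p (hle p a₀ a₁ ha₀ ha₁ k1),
    hng q (hle q b₀ b₁ hb₀ hb₁ k2), ?_, fun P => ?_, map_eq h5 c e n g hg a₀ a₁ A₀ A₁ hA₀ hA₁ k1,
    map_eq h5 c e n g hg b₀ b₁ B₀ B₁ hB₀ hB₁ k2⟩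
  · rw [hf]
    exact mul_ne_zero hnE he0
  · obtain ⟨m, hm⟩ := hord P
    obtain ⟨k, hk⟩ := mem_val_exp P u' hu'0
    refine ⟨m + k, ?_⟩
    rw [hf, map_mul, he, map_mul, map_pow, hm, hk, ← WithZero.exp_nsmul, ← WithZero.exp_add]
    congr 2
    simp only [nsmul_eq_mul]
    ring

end

end Pool.Agent.K3h1.FC
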