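import Pool.Agent.K3h1.FC.Fin
import Pool.Agent.K3h16.FC.SOL
import Pool.Agent.K3h97.FC.DISCore

/-!
# Project FC: the double coverings `w² = α x³ y³ + β y³ z³ + γ z³ x³ + δ x² y² z²`
-/

set_option autoImplicit false

namespace Pool.Agent.K3h1.FC

open Pool.Agent.K3h97.FC.DIS (norm_le_inv no_sqrt)

section

variable {p : ℕ} [Fact p.Prime]

/-- the form `α x³ y³ + β y³ z³ + γ z³ x³ + δ x² y² z²` -/
def sx (α β γ δ : ℤ) {R : Type} [CommRing R] (x y z : R) : R :=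
  α * (x ^ 3 * y ^ 3) + β * (y ^ 3 * z ^ 3) + γ * (z ^ 3 * x ^ 3) + δ * (x ^ 2 * y ^ 2 * z ^ 2)

theorem no_root {β : ℤ} (h1 : (p : ℤ) ∣ β) (h2 : ¬ (p : ℤ) ^ 2 ∣ β) (w u t : ℚ_[p]) (hu : ‖u‖ = 1)
    (ht : ‖t‖ < (p : ℝ)⁻¹) (h : w ^ 2 = β * u + t) : False := by
  obtain ⟨b, rfl⟩ := h1
  have hb : ¬ (p : ℤ) ∣ b := fun hb => h2 (by rw [sq]; exact mul_dvd_mul_left _ hb)
  have h3 : ‖(((p : ℤ) * b : ℤ) : ℚ_[p]) * u‖ = (p : ℝ)⁻¹ := by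
    push_cast
    rw [norm_mul, norm_mul, Pool.Agent.K3h97.FC.DIS.norm_int_eq_one hb, hu, Padic.norm_p, mul_one,
      mul_one]
  apply no_sqrt w
  rw [h, Padic.add_eq_max_of_ne (by rw [h3]; exact ht.ne'), h3, max_eq_left ht.le]

theorem norm_mul_lt_inv {c t : ℚ_[p]} (hc : ‖c‖ ≤ 1) (ht : ‖t‖ < 1) : ‖c * t ^ 2‖ < (p : ℝ)⁻¹ := by
  have hp1 : (1 : ℝ) < p := by exact_mod_cast (Fact.out : p.Prime).one_lt
  have h0 := norm_nonneg t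
  have h1 := norm_le_inv ht
  have h2 : (0 : ℝ) < (p : ℝ)⁻¹ := by positivity
  have h3 : (p : ℝ)⁻¹ < 1 := inv_lt_one_of_one_lt₀ hp1
  rw [norm_mul, norm_pow]
  calc ‖c‖ * ‖t‖ ^ 2 ≤ 1 * ((p : ℝ)⁻¹) ^ 2 := by gcongr
    _ < (p : ℝ)⁻¹ := by nlinarith

theorem nm {a b : ℚ_[p]} (ha : ‖a‖ ≤ 1) (hb : ‖b‖ ≤ 1) : ‖a * b‖ ≤ 1 := by
  rw [norm_mul]
  exact mul_le_one₀ ha (norm_nonneg _) hb

theorem np {a : ℚ_[p]} (ha : ‖a‖ ≤ 1) (n : ℕ) : ‖a ^ n‖ ≤ 1 := by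
  rw [norm_pow]
  exact pow_le_one₀ (norm_nonneg _) ha

theorem na {a b : ℚ_[p]} (ha : ‖a‖ ≤ 1) (hb : ‖b‖ ≤ 1) : ‖a + b‖ ≤ 1 :=
  (Padic.nonarchimedean _ _).trans (max_le ha hb)

theorem ni (a : ℤ) : ‖(a : ℚ_[p])‖ ≤ 1 := Padic.norm_int_le_one a

/-- the `p`-adic points of the double covering are not near the rational points of the Fermat
curve -/
theorem dis2 {α β γ δ : ℤ} (hα : ¬ IsSquare ((-α : ℤ) : ZMod p)) (hβ1 : (p : ℤ) ∣ β)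
    (hβ2 : ¬ (p : ℤ) ^ 2 ∣ β) (hγ1 : (p : ℤ) ∣ γ) (hγ2 : ¬ (p : ℤ) ^ 2 ∣ γ) {x y z w : ℚ_[p]}
    (h : Nml p x y z) (hw : w ^ 2 = sx α β γ δ x y z) : ‖x‖ = 1 ∧ ‖y‖ = 1 ∧ ‖z‖ = 1 := by
  have hpp : p.Prime := Fact.out
  have hx := h.x1
  have hy := h.y1
  have hz := h.z1
  unfold sx at hw
  refine ⟨?_, ?_, ?_⟩
  · by_contra hne
    have hx1 : ‖x‖ < 1 := lt_of_le_of_ne hx hne
    obtain ⟨hy1, hz1, _, _⟩ := h.small hpp.ne_zero hx1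
    refine no_root hβ1 hβ2 w (y ^ 3 * z ^ 3)
      ((α * (x * y ^ 3) + γ * (z ^ 3 * x) + δ * (y ^ 2 * z ^ 2)) * x ^ 2) ?_ ?_ ?_
    · rw [norm_mul, norm_pow, norm_pow, hy1, hz1]
      norm_num
    · exact norm_mul_lt_inv (na (na (nm (ni _) (nm hx (np hy 3))) (nm (ni _) (nm (np hz 3) hx)))
        (nm (ni _) (nm (np hy 2) (np hz 2)))) hx1
    · rw [hw]; ring
  · by_contra hne
    have hy1 : ‖y‖ < 1 := lt_of_le_of_ne hy hne
    obtain ⟨hz1, hx1, _, _⟩ := h.rot.small hpp.ne_zero hy1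
    refine no_root hγ1 hγ2 w (z ^ 3 * x ^ 3)
      ((α * (x ^ 3 * y) + β * (y * z ^ 3) + δ * (x ^ 2 * z ^ 2)) * y ^ 2) ?_ ?_ ?_
    · rw [norm_mul, norm_pow, norm_pow, hx1, hz1]
      norm_num
    · exact norm_mul_lt_inv (na (na (nm (ni _) (nm (np hx 3) hy)) (nm (ni _) (nm hy (np hz 3))))
        (nm (ni _) (nm (np hx 2) (np hz 2)))) hy1
    · rw [hw]; ring
  · by_contra hne
    have hz1 : ‖z‖ < 1 := lt_of_le_of_ne hz hne
    obtain ⟨hx1, hy1, _, _⟩ := h.rot.rot.small hpp.ne_zero hz1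
    have hw1 : ‖w‖ ≤ 1 := by
      have h2 : ‖w ^ 2‖ ≤ 1 := by
        rw [hw]
        exact na (na (na (nm (ni _) (nm (np hx 3) (np hy 3))) (nm (ni _) (nm (np hy 3) (np hz 3))))
          (nm (ni _) (nm (np hz 3) (np hx 3)))) (nm (ni _) (nm (nm (np hx 2) (np hy 2)) (np hz 2)))
      rw [norm_pow] at h2
      exact (pow_le_one_iff_of_nonneg (norm_nonneg _) two_ne_zero).1 h2
    set f : ℤ_[p] →+* ZMod p := PadicInt.toZMod
    have hfZ : f (mkI z hz) = 0 := (rs_eq_zero z hz).2 hz1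
    have hfX : f (mkI x hx) ≠ 0 := fun h0 => hx1.not_lt ((rs_eq_zero x hx).1 h0)
    have e1 : (mkI x hx) ^ p + (mkI y hy) ^ p + (mkI z hz) ^ p = 0 := Subtype.ext (by
      push_cast
      exact h.eq)
    have e2 : (mkI w hw1) ^ 2 = α * ((mkI x hx) ^ 3 * (mkI y hy) ^ 3) +
        β * ((mkI y hy) ^ 3 * (mkI z hz) ^ 3) + γ * ((mkI z hz) ^ 3 * (mkI x hx) ^ 3) +
        δ * ((mkI x hx) ^ 2 * (mkI y hy) ^ 2 * (mkI z hz) ^ 2) := Subtype.ext (by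
      push_cast
      exact hw)
    have h1 := congrArg f e1
    have h2 := congrArg f e2
    simp only [map_add, map_mul, map_pow, map_intCast, map_zero, hfZ, ZMod.pow_card,
      zero_pow three_ne_zero, zero_pow two_ne_zero, mul_zero, zero_mul, add_zero] at h1 h2
    have hY : f (mkI y hy) = - f (mkI x hx) := by linear_combination h1
    rw [hY] at h2
    apply hα
    refine ⟨f (mkI w hw1) / (f (mkI x hx)) ^ 3, ?_⟩
    rw [div_mul_div_comm, ← sq, ← sq, h2]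
    push_cast
    field_simp

/-- the `r`-adic points of the double covering have a coordinate divisible by `r` -/
theorem dis_r {n : ℕ} {α β γ δ : ℤ} (hα : (p : ℤ) ∣ α) (hβ : (p : ℤ) ∣ β) (hγ : (p : ℤ) ∣ γ)
    (hδ : ¬ IsSquare (δ : ZMod p)) {x y z w : ℚ_[p]}
    (h : Nml n x y z) (hw : w ^ 2 = sx α β γ δ x y z) : ‖x‖ < 1 ∨ ‖y‖ < 1 ∨ ‖z‖ < 1 := by
  have hpp : p.Prime := Fact.out
  have hx := h.x1
  have hy := h.y1
  have hz := h.z1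
  unfold sx at hw
  by_contra hcon
  rw [not_or, not_or] at hcon
  have hw1 : ‖w‖ ≤ 1 := by
    have h2 : ‖w ^ 2‖ ≤ 1 := by
      rw [hw]
      exact na (na (na (nm (ni _) (nm (np hx 3) (np hy 3))) (nm (ni _) (nm (np hy 3) (np hz 3))))
        (nm (ni _) (nm (np hz 3) (np hx 3)))) (nm (ni _) (nm (nm (np hx 2) (np hy 2)) (np hz 2)))
    rw [norm_pow] at h2
    exact (pow_le_one_iff_of_nonneg (norm_nonneg _) two_ne_zero).1 h2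
  set f : ℤ_[p] →+* ZMod p := PadicInt.toZMod
  have hfX : f (mkI x hx) ≠ 0 := fun h0 => hcon.1 ((rs_eq_zero x hx).1 h0)
  have hfY : f (mkI y hy) ≠ 0 := fun h0 => hcon.2.1 ((rs_eq_zero y hy).1 h0)
  have hfZ : f (mkI z hz) ≠ 0 := fun h0 => hcon.2.2 ((rs_eq_zero z hz).1 h0)
  have e2 : (mkI w hw1) ^ 2 = α * ((mkI x hx) ^ 3 * (mkI y hy) ^ 3) +
      β * ((mkI y hy) ^ 3 * (mkI z hz) ^ 3) + γ * ((mkI z hz) ^ 3 * (mkI x hx) ^ 3) +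
      δ * ((mkI x hx) ^ 2 * (mkI y hy) ^ 2 * (mkI z hz) ^ 2) := Subtype.ext (by
    push_cast
    exact hw)
  have h2 := congrArg f e2
  have a0 : (α : ZMod p) = 0 := (ZMod.intCast_zmod_eq_zero_iff_dvd _ _).2 hα
  have b0 : (β : ZMod p) = 0 := (ZMod.intCast_zmod_eq_zero_iff_dvd _ _).2 hβ
  have c0 : (γ : ZMod p) = 0 := (ZMod.intCast_zmod_eq_zero_iff_dvd _ _).2 hγ
  simp only [map_add, map_mul, map_pow, map_intCast, a0, b0, c0, zero_mul, zero_add] at h2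
  apply hδ
  refine ⟨f (mkI w hw1) / (f (mkI x hx) * f (mkI y hy) * f (mkI z hz)), ?_⟩
  rw [div_mul_div_comm, ← sq, ← sq, h2]
  field_simp

end

end Pool.Agent.K3h1.FC
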