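import Pool.Agent.K3h1.FC.Dbl

/-!
# Project FC: existence of the double coverings
-/

set_option autoImplicit false

namespace Pool.Agent.K3h1.FC

open Pool.Agent.K3h16.FC (sq_odd sq_two cube)

/-- for each prime `p` there is a prime `r` with `r ^ (p - 1)` not `1` modulo `p ^ 2` -/
theorem exists_r (p : ℕ) (hp : p.Prime) (h3 : 3 ≤ p) :
    ∃ r : ℕ, r.Prime ∧ r ≠ p ∧ ¬ p ^ 2 ∣ r ^ (p - 1) - 1 := by
  by_contra hcon
  push Not at hcon
  have key : ∀ n : ℕ, 0 < n → ¬ p ∣ n → (n : ZMod (p ^ 2)) ^ (p - 1) = 1 := by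
    intro n
    induction n using Nat.recOnMul with
    | zero => intro h; omega
    | one => intro _ _; simp
    | prime r hr =>
      intro _ h2
      have hrp : r ≠ p := by
        rintro rfl
        exact h2 (dvd_refl _)
      have h4 := hcon r hr hrp
      have h5 : 1 ≤ r ^ (p - 1) := Nat.one_le_pow _ _ hr.pos
      have h6 : ((r ^ (p - 1) - 1 : ℕ) : ZMod (p ^ 2)) = 0 := (ZMod.natCast_eq_zero_iff _ _).2 h4
      rw [Nat.cast_sub h5] at h6
      push_cast at h6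
      linear_combination h6
    | mul a b ha hb =>
      intro h1 h2
      have ha0 : 0 < a := Nat.pos_of_ne_zero (by rintro rfl; simp at h1)
      have hb0 : 0 < b := Nat.pos_of_ne_zero (by rintro rfl; simp at h1)
      rw [Nat.cast_mul, mul_pow, ha ha0 (fun h => h2 (h.mul_right _)),
        hb hb0 (fun h => h2 (h.mul_left _)), one_mul]
  have h1 := key (p + 1) (by omega) (by
    intro h
    have h2 : p ∣ 1 := (Nat.dvd_add_right (dvd_refl p)).1 h
    exact hp.one_lt.ne' (Nat.dvd_one.1 h2))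
  -- expansion
  have h2 : ∃ t : ℕ, (p + 1) ^ (p - 1) = 1 + (p - 1) * p + t * p ^ 2 := by
    have h4 : ∀ m : ℕ, ∃ t : ℕ, (p + 1) ^ m = 1 + m * p + t * p ^ 2 := by
      intro m
      induction m with
      | zero => exact ⟨0, by simp⟩
      | succ m ih =>
        obtain ⟨t, ht⟩ := ih
        exact ⟨m + t * p + t, by rw [pow_succ, ht]; ring⟩
    exact h4 (p - 1)
  obtain ⟨t, ht⟩ := h2
  have h5 := congrArg (fun n : ℕ => (n : ZMod (p ^ 2))) ht
  have hp2 : ((p : ℕ) : ZMod (p ^ 2)) ^ 2 = 0 := by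
    rw [← Nat.cast_pow]
    exact ZMod.natCast_self _
  have h6 : ((p - 1 : ℕ) : ZMod (p ^ 2)) = (p : ZMod (p ^ 2)) - 1 := by
    rw [Nat.cast_sub (by omega), Nat.cast_one]
  push_cast at h5 h1
  rw [h1, h6] at h5
  have h7 : ((p : ℕ) : ZMod (p ^ 2)) = 0 := by linear_combination h5 + (t + 1) * hp2
  rw [ZMod.natCast_eq_zero_iff] at h7
  have h8 := Nat.le_of_dvd hp.pos h7
  nlinarith [hp.two_le]

/-- one of `a`, `b`, `a b` is a square modulo an odd prime -/
theorem sq_of_three (q : ℕ) [Fact q.Prime] (h2 : q ≠ 2) (a b : ℤ) (ha : ¬ (q : ℤ) ∣ a)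
    (hb : ¬ (q : ℤ) ∣ b) : ∃ w : ℚ_[q], w ≠ 0 ∧ (w ^ 2 = a ∨ w ^ 2 = b ∨ w ^ 2 = (a * b : ℤ)) := by
  have hq : q.Prime := Fact.out
  have key : ∀ e : ℤ, ¬ (q : ℤ) ∣ e → IsSquare (e : ZMod q) → ∃ w : ℚ_[q], w ≠ 0 ∧ w ^ 2 = e := by
    intro e he hs
    obtain ⟨s, hs⟩ := hs
    have hsc : (((s.val : ℤ)) : ZMod q) = s := by
      rw [Int.cast_natCast, ZMod.natCast_zmod_val]
    have h1 : (q : ℤ) ∣ (s.val : ℤ) ^ 2 - e := by
      rw [← ZMod.intCast_zmod_eq_zero_iff_dvd]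
      push_cast [hsc]
      rw [hs]
      ring
    obtain ⟨w, hw⟩ := sq_odd q h2 e (s.val : ℤ) h1 (by
      intro h3
      apply he
      have h4 : (q : ℤ) ∣ (s.val : ℤ) ^ 2 := dvd_pow h3 two_ne_zero
      have h5 := dvd_sub h4 h1
      have h6 : (s.val : ℤ) ^ 2 - ((s.val : ℤ) ^ 2 - e) = e := by ring
      rwa [h6] at h5)
    refine ⟨w, ?_, hw⟩
    rintro rfl
    rw [zero_pow two_ne_zero] at hw
    have : e = 0 := by exact_mod_cast hw.symm
    exact he (this ▸ dvd_zero _)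
  have hch : ringChar (ZMod q) ≠ 2 := by rwa [ZMod.ringChar_zmod_n]
  by_cases s1 : IsSquare ((a : ℤ) : ZMod q)
  · obtain ⟨w, h0, hw⟩ := key _ ha s1
    exact ⟨w, h0, Or.inl hw⟩
  by_cases s2 : IsSquare ((b : ℤ) : ZMod q)
  · obtain ⟨w, h0, hw⟩ := key _ hb s2
    exact ⟨w, h0, Or.inr (Or.inl hw)⟩
  have hab : ¬ (q : ℤ) ∣ a * b := fun h =>
    ((Nat.prime_iff_prime_int.1 hq).dvd_or_dvd h).elim ha hb
  have e1 : quadraticChar (ZMod q) ((a : ℤ) : ZMod q) = -1 :=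
    quadraticChar_neg_one_iff_not_isSquare.2 s1
  have e2 : quadraticChar (ZMod q) ((b : ℤ) : ZMod q) = -1 :=
    quadraticChar_neg_one_iff_not_isSquare.2 s2
  have e3 : quadraticChar (ZMod q) ((a * b : ℤ) : ZMod q) = 1 := by
    push_cast
    rw [map_mul, e1, e2]
    norm_num
  obtain ⟨w, h0, hw⟩ := key (a * b) hab ((quadraticChar_one_iff_isSquare (by
    rwa [Ne, ZMod.intCast_zmod_eq_zero_iff_dvd])).1 e3)
  exact ⟨w, h0, Or.inr (Or.inr hw)⟩

theorem sq_odd' (q : ℕ) [Fact q.Prime] (h2 : q ≠ 2) (c k : ℤ) (h : (q : ℤ) ∣ k ^ 2 - c)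
    (hk : ¬ (q : ℤ) ∣ k) : ∃ w : ℚ_[q], w ≠ 0 ∧ w ^ 2 = c := by
  obtain ⟨w, hw⟩ := sq_odd q h2 c k h hk
  refine ⟨w, ?_, hw⟩
  rintro rfl
  rw [zero_pow two_ne_zero] at hw
  have h3 : c = 0 := by exact_mod_cast hw.symm
  rw [h3, sub_zero] at h
  exact hk ((Nat.prime_iff_prime_int.1 Fact.out).dvd_of_dvd_pow h)

theorem sq_two' (c : ℤ) (h : (8 : ℤ) ∣ 1 - c) : ∃ w : ℚ_[2], w ≠ 0 ∧ w ^ 2 = c := by
  obtain ⟨w, hw⟩ := sq_two c h
  refine ⟨w, ?_, hw⟩
  rintro rfl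
  rw [zero_pow two_ne_zero] at hw
  have h3 : c = 0 := by exact_mod_cast hw.symm
  omega

/-- the values at the cusps -/
structure Vals (p : ℕ) (a b : ℤ) : Prop where
  ns : ¬ IsSquare ((a : ℤ) : ZMod p)
  b1 : (p : ℤ) ∣ b
  b2 : ¬ (p : ℤ) ^ 2 ∣ b
  loc : ∀ (q : ℕ) [Fact q.Prime], q ≠ p →
    ∃ w : ℚ_[q], w ≠ 0 ∧ (w ^ 2 = a ∨ w ^ 2 = b ∨ w ^ 2 = (a * b : ℤ))
  pos : 0 < a ∨ 0 < b ∨ 0 < a * b

theorem ne_zero_of_vals {p : ℕ} {a b : ℤ} (h : Vals p a b) : a ≠ 0 ∧ b ≠ 0 := by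
  constructor
  · rintro rfl
    exact h.ns ⟨0, by simp⟩
  · rintro rfl
    exact h.b2 (dvd_zero _)

theorem vals_7 (p : ℕ) [Fact p.Prime] (h8 : p % 8 = 7) : Vals p (-1) p := by
  have hp : p.Prime := Fact.out
  refine ⟨?_, dvd_refl _, ?_, ?_, Or.inr (Or.inl (by exact_mod_cast hp.pos))⟩
  · push_cast
    rw [ZMod.exists_sq_eq_neg_one_iff]
    omega
  · intro h
    have h1 : p ^ 2 ∣ p := by exact_mod_cast h
    have h2 := Nat.le_of_dvd hp.pos h1
    nlinarith [hp.two_le]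
  · intro q hq hqp
    by_cases hq2 : q = 2
    · subst hq2
      obtain ⟨w, h0, hw⟩ := sq_two' (-(p : ℤ)) (by omega)
      exact ⟨w, h0, Or.inr (Or.inr (by rw [hw]; congr 1; ring))⟩
    · refine sq_of_three q hq2 _ _ ?_ ?_
      · intro h
        have h1 : (q : ℤ) ∣ 1 := by simpa using h
        have h2 : q ∣ 1 := by exact_mod_cast h1
        exact hq.out.one_lt.ne' (Nat.dvd_one.1 h2)
      · intro h
        have h1 : q ∣ p := by exact_mod_cast h
        exact hqp ((Nat.prime_dvd_prime_iff_eq hq.out hp).1 h1)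

theorem vals_3 (p : ℕ) [Fact p.Prime] (h8 : p % 8 = 3) : Vals p (-1) (5 * p) := by
  have hp : p.Prime := Fact.out
  have hp5 : p ≠ 5 := by omega
  refine ⟨?_, dvd_mul_left _ _, ?_, ?_, Or.inr (Or.inl (by have := hp.pos; positivity))⟩
  · push_cast
    rw [ZMod.exists_sq_eq_neg_one_iff]
    omega
  · intro h
    rw [sq] at h
    have hp0 : (p : ℤ) ≠ 0 := by exact_mod_cast hp.ne_zero
    have h1 : (p : ℤ) ∣ 5 := (mul_dvd_mul_iff_right hp0).1 h
    have h2 : p ∣ 5 := by exact_mod_cast h1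
    exact hp5 ((Nat.prime_dvd_prime_iff_eq hp Nat.prime_five).1 h2)
  · intro q hq hqp
    by_cases hq2 : q = 2
    · subst hq2
      obtain ⟨w, h0, hw⟩ := sq_two' (-(5 * (p : ℤ))) (by omega)
      exact ⟨w, h0, Or.inr (Or.inr (by rw [hw]; congr 1; ring))⟩
    by_cases hq5 : q = 5
    · subst hq5
      obtain ⟨w, h0, hw⟩ := sq_odd' 5 (by norm_num) (-1) 2 (by norm_num) (by norm_num)
      exact ⟨w, h0, Or.inl hw⟩
    · refine sq_of_three q hq2 _ _ ?_ ?_
      · intro h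
        have h1 : (q : ℤ) ∣ 1 := by simpa using h
        have h2 : q ∣ 1 := by exact_mod_cast h1
        exact hq.out.one_lt.ne' (Nat.dvd_one.1 h2)
      · intro h
        have h1 : q ∣ 5 * p := by exact_mod_cast h
        rcases hq.out.dvd_mul.1 h1 with h2 | h2
        · exact hq5 ((Nat.prime_dvd_prime_iff_eq hq.out Nat.prime_five).1 h2)
        · exact hqp ((Nat.prime_dvd_prime_iff_eq hq.out hp).1 h2)

theorem vals_1 (p : ℕ) [Fact p.Prime] (h4 : p % 4 = 1) : ∃ a b : ℤ, Vals p a b := by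
  have hp : p.Prime := Fact.out
  have hp2 : p ≠ 2 := by omega
  -- a nonsquare
  obtain ⟨n, hn⟩ : ∃ n : ZMod p, ¬ IsSquare n :=
    FiniteField.exists_nonsquare (by rwa [ZMod.ringChar_zmod_n])
  have hcop : Nat.Coprime 8 p := by
    rw [show (8 : ℕ) = 2 ^ 3 by norm_num]
    exact Nat.Coprime.pow_left 3 ((Nat.coprime_primes Nat.prime_two hp).2 hp2.symm)
  obtain ⟨x, hx1, hx2⟩ := Nat.chineseRemainder hcop (7 * p) n.val
  have hxn : (x : ZMod p) = n := by
    have h1 := (ZMod.natCast_eq_natCast_iff x n.val p).2 hx2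
    rw [h1, ZMod.natCast_zmod_val]
  have hn0 : n ≠ 0 := by
    rintro rfl
    exact hn ⟨0, by simp⟩
  have hxp : ¬ p ∣ x := by
    intro h
    apply hn0
    rw [← hxn, ZMod.natCast_eq_zero_iff]
    exact h
  have hx8 : x % 8 = (7 * p) % 8 := hx1
  have hxcop : Nat.Coprime x (8 * p) := by
    apply Nat.Coprime.mul_right
    · rw [show (8 : ℕ) = 2 ^ 3 by norm_num]
      apply Nat.Coprime.pow_right
      rw [Nat.coprime_two_right, Nat.odd_iff]
      omega
    · exact ((Nat.Prime.coprime_iff_not_dvd hp).2 hxp).symm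
  have hne : NeZero (8 * p) := ⟨by have := hp.pos; omega⟩
  obtain ⟨q, hqx, hq, hqm⟩ := Nat.forall_exists_prime_gt_and_eq_mod
    ((ZMod.isUnit_iff_coprime x (8 * p)).2 hxcop) (p + 2)
  have hqm' : q ≡ x [MOD 8 * p] := (ZMod.natCast_eq_natCast_iff _ _ _).1 hqm
  have hq8 : q % 8 = (7 * p) % 8 := (Nat.ModEq.of_mul_right p hqm').trans hx1
  have hqp : (q : ZMod p) = n := by
    rw [← hxn]
    exact (ZMod.natCast_eq_natCast_iff _ _ _).2 (Nat.ModEq.of_mul_left 8 hqm')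
  have hqF : Fact q.Prime := ⟨hq⟩
  refine ⟨q, -p, ?_, (dvd_refl _).neg_right, ?_, ?_, Or.inl (by exact_mod_cast hq.pos)⟩
  · rw [Int.cast_natCast, hqp]
    exact hn
  · intro h
    rw [dvd_neg] at h
    have h1 : p ^ 2 ∣ p := by exact_mod_cast h
    have h2 := Nat.le_of_dvd hp.pos h1
    nlinarith [hp.two_le]
  · intro l hl hlp
    by_cases hl2 : l = 2
    · subst hl2
      obtain ⟨w, h0, hw⟩ := sq_two' ((q : ℤ) * -(p : ℤ)) (by
        have h1 : (q * p) % 8 = 7 := by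
          rw [Nat.mul_mod, hq8]
          have : p % 8 = 1 ∨ p % 8 = 5 := by omega
          rcases this with h | h
          · rw [Nat.mul_mod 7 p, h]
          · rw [Nat.mul_mod 7 p, h]
        have h2 : (q : ℤ) * -(p : ℤ) = -((q * p : ℕ) : ℤ) := by push_cast; ring
        rw [h2]
        omega)
      exact ⟨w, h0, Or.inr (Or.inr hw)⟩
    by_cases hlq : l = q
    · subst hlq
      have hq3 : l % 4 = 3 := by omega
      -- reciprocity
      have h1 : IsSquare ((-(p : ℤ) : ℤ) : ZMod l) := by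
        have hs : ¬ IsSquare ((l : ℕ) : ZMod p) := by rw [hqp]; exact hn
        have hs2 : ¬ IsSquare ((p : ℕ) : ZMod l) := by
          rw [← ZMod.exists_sq_eq_prime_iff_of_mod_four_eq_one h4 (by omega)]
          exact hs
        have hs3 : ¬ IsSquare (-1 : ZMod l) := by
          rw [ZMod.exists_sq_eq_neg_one_iff]
          omega
        have e1 : quadraticChar (ZMod l) ((p : ℕ) : ZMod l) = -1 :=
          quadraticChar_neg_one_iff_not_isSquare.2 hs2
        have e2 : quadraticChar (ZMod l) (-1 : ZMod l) = -1 :=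
          quadraticChar_neg_one_iff_not_isSquare.2 hs3
        have e3 : quadraticChar (ZMod l) ((-(p : ℤ) : ℤ) : ZMod l) = 1 := by
          have e4 : ((-(p : ℤ) : ℤ) : ZMod l) = -1 * ((p : ℕ) : ZMod l) := by push_cast; ring
          rw [e4, map_mul, e1, e2]
          norm_num
        refine (quadraticChar_one_iff_isSquare ?_).1 e3
        intro h0
        rw [h0] at e3
        simp at e3
      obtain ⟨s, hs⟩ := h1
      have hsc : (((s.val : ℤ)) : ZMod l) = s := by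
        rw [Int.cast_natCast, ZMod.natCast_zmod_val]
      have hpl : ¬ (l : ℤ) ∣ (p : ℤ) := by
        intro h
        have h1 : l ∣ p := by exact_mod_cast h
        exact hlp ((Nat.prime_dvd_prime_iff_eq hq hp).1 h1)
      have h2 : (l : ℤ) ∣ (s.val : ℤ) ^ 2 - (-(p : ℤ)) := by
        rw [← ZMod.intCast_zmod_eq_zero_iff_dvd]
        push_cast [hsc] at hs ⊢
        rw [sq, ← hs]
        ring
      obtain ⟨w, h0, hw⟩ := sq_odd' l hl2 (-(p : ℤ)) (s.val : ℤ) h2 (by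
        intro h3
        apply hpl
        have h4 : (l : ℤ) ∣ (s.val : ℤ) ^ 2 := dvd_pow h3 two_ne_zero
        have h5 := dvd_sub h2 h4
        have h6 : (s.val : ℤ) ^ 2 - (-(p : ℤ)) - (s.val : ℤ) ^ 2 = p := by ring
        rwa [h6] at h5)
      exact ⟨w, h0, Or.inr (Or.inl hw)⟩
    · refine sq_of_three l hl2 _ _ ?_ ?_
      · intro h
        have h1 : l ∣ q := by exact_mod_cast h
        exact hlq ((Nat.prime_dvd_prime_iff_eq hl.out hq).1 h1)
      · intro h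
        rw [dvd_neg] at h
        have h1 : l ∣ p := by exact_mod_cast h
        exact hlp ((Nat.prime_dvd_prime_iff_eq hl.out hp).1 h1)

theorem exists_vals (p : ℕ) [Fact p.Prime] (h2 : p ≠ 2) : ∃ a b : ℤ, Vals p a b := by
  have hp : p.Prime := Fact.out
  have hodd := hp.odd_of_ne_two h2
  rw [Nat.odd_iff] at hodd
  have h : p % 4 = 1 ∨ p % 8 = 3 ∨ p % 8 = 7 := by omega
  rcases h with h | h | h
  · exact vals_1 p h
  · exact ⟨_, _, vals_3 p h⟩
  · exact ⟨_, _, vals_7 p h⟩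

end Pool.Agent.K3h1.FC
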