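import Pool.Agent.K3h1.FC.Dbl2

/-!
# Project FC: the double coverings have points over all completions
-/

set_option autoImplicit false

namespace Pool.Agent.K3h1.FC

open Pool.Agent.K3h16.FC (sq_odd sq_two cube)

/-- the conditions on the coefficients at `p` and at the auxiliary prime `r` -/
structure Coe (p r : ℕ) (α β γ δ : ℤ) : Prop where
  a : ¬ IsSquare ((-α : ℤ) : ZMod p)
  b1 : (p : ℤ) ∣ β
  b2 : ¬ (p : ℤ) ^ 2 ∣ β
  c1 : (p : ℤ) ∣ γ
  c2 : ¬ (p : ℤ) ^ 2 ∣ γ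
  r : r = 2 ∨ ((r : ℤ) ∣ α ∧ (r : ℤ) ∣ β ∧ (r : ℤ) ∣ γ ∧ ¬ IsSquare (δ : ZMod r))

theorem exists_coe (p : ℕ) [Fact p.Prime] (h3 : p % 3 = 1) (r : ℕ) (hr : r.Prime) (hrp : r ≠ p)
    (M : ℤ) : ∃ α β γ δ : ℤ, Coe p r α β γ δ ∧ M < |α| ∧
    (∀ (q : ℕ) [Fact q.Prime], ∃ x y z w : ℚ_[q], (x ≠ 0 ∨ y ≠ 0 ∨ z ≠ 0) ∧ w ≠ 0 ∧
      x ^ p + y ^ p + z ^ p = 0 ∧ w ^ 2 = sx α β γ δ x y z) ∧
    ∃ x y z w : ℝ, (x ≠ 0 ∨ y ≠ 0 ∨ z ≠ 0) ∧ w ≠ 0 ∧
      x ^ p + y ^ p + z ^ p = 0 ∧ w ^ 2 = sx α β γ δ x y z := by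
  have hp : p.Prime := Fact.out
  have hp2 : p ≠ 2 := by omega
  have hodd : Odd p := hp.odd_of_ne_two hp2
  have hp0 : p ≠ 0 := hp.ne_zero
  have hrF : Fact r.Prime := ⟨hr⟩
  obtain ⟨a, b, hv⟩ := exists_vals p hp2
  obtain ⟨ha0, hb0⟩ := ne_zero_of_vals hv
  have hpr : ¬ (p : ℤ) ∣ (r : ℤ) := by
    intro h
    have h1 : p ∣ r := by exact_mod_cast h
    exact hrp ((Nat.prime_dvd_prime_iff_eq hp hr).1 h1).symm
  have hpZ : Prime (p : ℤ) := Nat.prime_iff_prime_int.1 hp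
  have hr0 : (r : ℤ) ≠ 0 := by exact_mod_cast hr.ne_zero
  -- the scaling
  obtain ⟨s, hs1, hs2⟩ : ∃ s : ℤ, 0 < s ∧ M < s ∧ ¬ (p : ℤ) ∣ s := by
    refine ⟨p * (|M| + 1) + 1, ?_, ?_, ?_⟩
    · have : 0 ≤ |M| := abs_nonneg M
      have := hp.pos
      positivity
    · have h1 := le_abs_self M
      have h2 : (1 : ℤ) ≤ p := by exact_mod_cast hp.one_le
      nlinarith [abs_nonneg M]
    · intro h
      have h1 : (p : ℤ) ∣ 1 := (dvd_add_right (dvd_mul_right (p : ℤ) (|M| + 1))).1 h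
      exact hpZ.not_unit (isUnit_of_dvd_one h1)
  obtain ⟨T, hT⟩ : ∃ T : ℤ, T = r * s := ⟨_, rfl⟩
  have hT0 : T ≠ 0 := by rw [hT]; exact mul_ne_zero hr0 hs1.ne'
  have hTp : ¬ (p : ℤ) ∣ T := by
    rw [hT]
    intro h
    exact (hpZ.dvd_or_dvd h).elim hpr hs2.2
  have hTr : (r : ℤ) ∣ T := by rw [hT]; exact dvd_mul_right _ _
  -- the last coefficient
  obtain ⟨e, he⟩ : ∃ e : ℤ, r = 2 ∨ ¬ IsSquare (e : ZMod r) := by
    by_cases h2 : r = 2
    · exact ⟨0, Or.inl h2⟩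
    · obtain ⟨n, hn⟩ : ∃ n : ZMod r, ¬ IsSquare n :=
        FiniteField.exists_nonsquare (by rwa [ZMod.ringChar_zmod_n])
      refine ⟨n.val, Or.inr ?_⟩
      rwa [Int.cast_natCast, ZMod.natCast_zmod_val]
  obtain ⟨δ, hδp, hδr⟩ : ∃ δ : ℤ, (p : ℤ) ∣ δ - (1 + a * T ^ 2) ∧ (r : ℤ) ∣ δ - e := by
    have hcop : IsCoprime (p : ℤ) (r : ℤ) := (Prime.coprime_iff_not_dvd hpZ).2 hpr
    obtain ⟨u, v, huv⟩ := hcop
    refine ⟨e * (u * p) + (1 + a * T ^ 2) * (v * r), ⟨e * u - (1 + a * T ^ 2) * u, ?_⟩,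
      ⟨(1 + a * T ^ 2) * v - e * v, ?_⟩⟩
    · linear_combination (1 + a * T ^ 2) * huv
    · linear_combination e * huv
  have hδe : (δ : ZMod r) = (e : ZMod r) := by
    have := (ZMod.intCast_zmod_eq_zero_iff_dvd _ _).2 hδr
    push_cast at this
    linear_combination this
  have hTsq : ∀ {c : ℤ}, ¬ (p : ℤ) ^ 2 ∣ c → ¬ (p : ℤ) ^ 2 ∣ -(c * T ^ 2) := by
    intro c hc h
    rw [dvd_neg] at h
    have h1 : IsCoprime ((p : ℤ) ^ 2) (T ^ 2) := ((Prime.coprime_iff_not_dvd hpZ).2 hTp).pow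
    exact hc (h1.dvd_of_dvd_mul_right h)
  have hab2 : ¬ (p : ℤ) ^ 2 ∣ a * b := by
    intro h
    have h1 : ¬ (p : ℤ) ∣ a := by
      intro h1
      apply hv.ns
      rw [(ZMod.intCast_zmod_eq_zero_iff_dvd _ _).2 h1]
      exact ⟨0, by simp⟩
    have h2 : IsCoprime ((p : ℤ) ^ 2) a := ((Prime.coprime_iff_not_dvd hpZ).2 h1).pow_left
    exact hv.b2 (h2.dvd_of_dvd_mul_left h)
  refine ⟨-(a * T ^ 2), -(b * T ^ 2), -(a * b * T ^ 2), δ, ⟨?_, ?_, ?_, ?_, ?_, ?_⟩, ?_, ?_, ?_⟩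
  · intro h
    apply hv.ns
    obtain ⟨k, hk⟩ := h
    have hTz : (T : ZMod p) ≠ 0 := by
      rwa [Ne, ZMod.intCast_zmod_eq_zero_iff_dvd]
    refine ⟨k / T, ?_⟩
    push_cast at hk
    field_simp
    linear_combination hk
  · exact (hv.b1.mul_right _).neg_right
  · exact hTsq hv.b2
  · exact ((hv.b1.mul_left _).mul_right _).neg_right
  · exact hTsq hab2
  · rcases he with he | he
    · exact Or.inl he
    · right
      have h1 : (r : ℤ) ∣ T ^ 2 := dvd_pow hTr two_ne_zero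
      refine ⟨(h1.mul_left _).neg_right, (h1.mul_left _).neg_right, (h1.mul_left _).neg_right, ?_⟩
      rw [hδe]
      exact he
  · rw [abs_neg, abs_mul, abs_pow]
    have h1 : 1 ≤ |a| := Int.one_le_abs ha0
    have h2 : s ≤ |T| := by
      rw [hT, abs_mul, abs_of_pos hs1]
      have h3 : (1 : ℤ) ≤ |(r : ℤ)| := Int.one_le_abs hr0
      nlinarith
    have h4 : 1 ≤ |T| := Int.one_le_abs hT0
    have h5 : |T| ≤ |T| ^ 2 := by nlinarith
    have h6 : |T| ^ 2 ≤ |a| * |T| ^ 2 := by nlinarith [sq_nonneg |T|]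
    linarith [hs2.1]
  · intro q hq
    have hTq : (T : ℚ_[q]) ≠ 0 := by exact_mod_cast hT0
    by_cases hqp : q = p
    · subst hqp
      obtain ⟨w, hw⟩ := cube q (by omega)
      have hw3 : w ^ 3 = 1 := by linear_combination (w - 1) * hw
      have hwp : w ^ q = w := by
        obtain ⟨k, hk⟩ : ∃ k, q = 3 * k + 1 := ⟨q / 3, by omega⟩
        calc w ^ q = w ^ (3 * k + 1) := congrArg (fun n : ℕ => w ^ n) hk
          _ = w := by rw [pow_add, pow_mul, hw3, one_pow, one_mul, pow_one]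
      obtain ⟨t, ht0, ht⟩ := sq_odd' q hp2
        (-(a * T ^ 2) + -(b * T ^ 2) + -(a * b * T ^ 2) + δ) 1 (by
          obtain ⟨m, hm⟩ := hδp
          obtain ⟨b', hb'⟩ := hv.b1
          refine ⟨b' * T ^ 2 + a * b' * T ^ 2 - m, ?_⟩
          linear_combination (T ^ 2 + a * T ^ 2) * hb' - hm) (by
          intro h
          exact hpZ.not_unit (isUnit_of_dvd_one h))
      refine ⟨1, w, w ^ 2, t, Or.inl one_ne_zero, ht0, ?_, ?_⟩
      · rw [one_pow, hwp, ← pow_mul, mul_comm, pow_mul, hwp]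
        linear_combination hw
      · rw [ht]
        have h6 : (w ^ 2) ^ 3 = 1 := by rw [← pow_mul, mul_comm, pow_mul, hw3, one_pow]
        have h7 : w ^ 2 * (w ^ 2) ^ 2 = 1 := by
          have : w ^ 2 * (w ^ 2) ^ 2 = (w ^ 3) ^ 2 := by ring
          rw [this, hw3, one_pow]
        unfold sx
        push_cast
        rw [h6, hw3]
        linear_combination (-(δ : ℚ_[q])) * h7
    · obtain ⟨w, h0, hw⟩ := hv.loc q hqp
      rcases hw with hw | hw | hw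
      · refine ⟨1, -1, 0, w * T, Or.inl one_ne_zero, mul_ne_zero h0 hTq, ?_, ?_⟩
        · rw [zero_pow hp0, one_pow, hodd.neg_one_pow]
          ring
        · unfold sx
          rw [mul_pow, hw]
          push_cast
          ring
      · refine ⟨0, 1, -1, w * T, Or.inr (Or.inl one_ne_zero), mul_ne_zero h0 hTq, ?_, ?_⟩
        · rw [zero_pow hp0, one_pow, hodd.neg_one_pow]
          ring
        · unfold sx
          rw [mul_pow, hw]
          push_cast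
          ring
      · refine ⟨-1, 0, 1, w * T, Or.inr (Or.inr one_ne_zero), mul_ne_zero h0 hTq, ?_, ?_⟩
        · rw [zero_pow hp0, one_pow, hodd.neg_one_pow]
          ring
        · unfold sx
          rw [mul_pow, hw]
          push_cast
          ring
  · have hTR : (T : ℝ) ≠ 0 := by exact_mod_cast hT0
    have key : ∀ c : ℤ, 0 < c → Real.sqrt c ≠ 0 ∧ Real.sqrt c ^ 2 = c := by
      intro c hc
      have h1 : (0 : ℝ) < c := by exact_mod_cast hc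
      exact ⟨(Real.sqrt_pos.2 h1).ne', Real.sq_sqrt h1.le⟩
    rcases hv.pos with h | h | h
    · obtain ⟨k1, k2⟩ := key _ h
      refine ⟨1, -1, 0, Real.sqrt a * T, Or.inl one_ne_zero, mul_ne_zero k1 hTR, ?_, ?_⟩
      · rw [zero_pow hp0, one_pow, hodd.neg_one_pow]
        ring
      · unfold sx
        rw [mul_pow, k2]
        push_cast
        ring
    · obtain ⟨k1, k2⟩ := key _ h
      refine ⟨0, 1, -1, Real.sqrt b * T, Or.inr (Or.inl one_ne_zero), mul_ne_zero k1 hTR, ?_, ?_⟩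
      · rw [zero_pow hp0, one_pow, hodd.neg_one_pow]
        ring
      · unfold sx
        rw [mul_pow, k2]
        push_cast
        ring
    · obtain ⟨k1, k2⟩ := key _ h
      refine ⟨-1, 0, 1, Real.sqrt (a * b : ℤ) * T, Or.inr (Or.inr one_ne_zero),
        mul_ne_zero k1 hTR, ?_, ?_⟩
      · rw [zero_pow hp0, one_pow, hodd.neg_one_pow]
        ring
      · unfold sx
        rw [mul_pow, k2]
        push_cast
        ring

end Pool.Agent.K3h1.FC
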