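import Pool.Agent.K3h1.FC.Dbl2

/-!
# Project FC: double coverings whose points at `p` and at `r` are near different rational points
-/

set_option autoImplicit false

namespace Pool.Agent.K3h1.FC

section loc

variable {p : ℕ} [Fact p.Prime]

open Pool.Agent.K3h97.FC.DIS (norm_le_inv no_sqrt)

/-- near the rational point with first coordinate zero -/
theorem dis_x {n : ℕ} (hn : n ≠ 0) {α β γ δ : ℤ} (hβ1 : (p : ℤ) ∣ β) (hβ2 : ¬ (p : ℤ) ^ 2 ∣ β)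
    {x y z w : ℚ_[p]} (h : Nml n x y z) (hw : w ^ 2 = sx α β γ δ x y z) : ¬ ‖x‖ < 1 := by
  have hy := h.y1
  have hx := h.x1
  have hz := h.z1
  unfold sx at hw
  intro hx1
  obtain ⟨hy1, hz1, _, _⟩ := h.small hn hx1
  refine no_root hβ1 hβ2 w (y ^ 3 * z ^ 3)
    ((α * (x * y ^ 3) + γ * (z ^ 3 * x) + δ * (y ^ 2 * z ^ 2)) * x ^ 2) ?_ ?_ ?_
  · rw [norm_mul, norm_pow, norm_pow, hy1, hz1]
    norm_num
  · exact norm_mul_lt_inv (na (na (nm (ni _) (nm hx (np hy 3))) (nm (ni _) (nm (np hz 3) hx)))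
      (nm (ni _) (nm (np hy 2) (np hz 2)))) hx1
  · rw [hw]; ring

theorem sx_rot (α β γ δ : ℤ) {R : Type} [CommRing R] (x y z : R) :
    sx α β γ δ x y z = sx β γ α δ y z x := by
  unfold sx
  ring

end loc

/-- the values at the cusps -/
structure Vals2 (p r : ℕ) (a b : ℤ) : Prop where
  a1 : (r : ℤ) ∣ a
  a2 : ¬ (r : ℤ) ^ 2 ∣ a
  a3 : ¬ (p : ℤ) ∣ a
  b1 : (p : ℤ) ∣ b
  b2 : ¬ (p : ℤ) ^ 2 ∣ b
  loc : ∀ (q : ℕ) [Fact q.Prime],
    ∃ w : ℚ_[q], w ≠ 0 ∧ (w ^ 2 = a ∨ w ^ 2 = b ∨ w ^ 2 = (a * b : ℤ))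
  pos : 0 < a

theorem sq_of_jac (l : ℕ) [Fact l.Prime] (hl2 : l ≠ 2) (c : ℤ) (hc : ¬ (l : ℤ) ∣ c)
    (h : jacobiSym c l = 1) : ∃ w : ℚ_[l], w ≠ 0 ∧ w ^ 2 = c := by
  obtain ⟨s, hs⟩ := ZMod.isSquare_of_jacobiSym_eq_one h
  have hsc : (((s.val : ℤ)) : ZMod l) = s := by
    rw [Int.cast_natCast, ZMod.natCast_zmod_val]
  have h2 : (l : ℤ) ∣ (s.val : ℤ) ^ 2 - c := by
    rw [← ZMod.intCast_zmod_eq_zero_iff_dvd]
    push_cast [hsc] at hs ⊢
    rw [sq, ← hs]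
    ring
  exact sq_odd' l hl2 c (s.val : ℤ) h2 (by
    intro h3
    apply hc
    have h4 : (l : ℤ) ∣ (s.val : ℤ) ^ 2 := dvd_pow h3 two_ne_zero
    have h5 := dvd_sub h4 h2
    have h6 : (s.val : ℤ) ^ 2 - ((s.val : ℤ) ^ 2 - c) = c := by ring
    rwa [h6] at h5)

theorem not_dvd_of_ne {q l : ℕ} (hq : q.Prime) (hl : l.Prime) (h : q ≠ l) : ¬ (q : ℤ) ∣ (l : ℤ) := by
  intro h1
  have h2 : q ∣ l := by exact_mod_cast h1
  exact h ((Nat.prime_dvd_prime_iff_eq hq hl).1 h2)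

theorem not_sq_dvd {r l : ℕ} (hr : r.Prime) (hl : l.Prime) (h : r ≠ l) :
    ¬ (r : ℤ) ^ 2 ∣ (r : ℤ) * l := by
  intro h1
  rw [sq] at h1
  have hr0 : (r : ℤ) ≠ 0 := by exact_mod_cast hr.ne_zero
  exact not_dvd_of_ne hr hl h ((mul_dvd_mul_iff_left hr0).1 h1)

theorem not_dvd_mul {q l m : ℕ} (hq : q.Prime) (h1 : ¬ (q : ℤ) ∣ (l : ℤ))
    (h2 : ¬ (q : ℤ) ∣ (m : ℤ)) : ¬ (q : ℤ) ∣ (l : ℤ) * m := fun h =>
  ((Nat.prime_iff_prime_int.1 hq).dvd_or_dvd h).elim h1 h2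

theorem prime_mod (n x M : ℕ) (hn : n ≠ 0) (hx : Nat.Coprime x n) :
    ∃ l : ℕ, M < l ∧ l.Prime ∧ l ≡ x [MOD n] := by
  have hne : NeZero n := ⟨hn⟩
  obtain ⟨q, hqx, hq, hqm⟩ := Nat.forall_exists_prime_gt_and_eq_mod
    ((ZMod.isUnit_iff_coprime x n).2 hx) M
  exact ⟨q, hqx, hq, (ZMod.natCast_eq_natCast_iff _ _ _).1 hqm⟩

theorem vals2_odd (p r : ℕ) (hp : p.Prime) (hr : r.Prime) (hp2 : p ≠ 2) (hr2 : r ≠ 2)
    (hrp : r ≠ p) : ∃ a b : ℤ, Vals2 p r a b := by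
  have hpo := hp.odd_of_ne_two hp2
  have hro := hr.odd_of_ne_two hr2
  have h8r : Nat.Coprime 8 r := by
    rw [show (8 : ℕ) = 2 ^ 3 by norm_num]
    exact Nat.Coprime.pow_left 3 ((Nat.coprime_primes Nat.prime_two hr).2 hr2.symm)
  obtain ⟨x, hx1, hx2⟩ := Nat.chineseRemainder h8r 1 p
  have hxc : Nat.Coprime x (8 * r) := by
    apply Nat.Coprime.mul_right
    · rw [show (8 : ℕ) = 2 ^ 3 by norm_num]
      apply Nat.Coprime.pow_right
      rw [Nat.coprime_two_right, Nat.odd_iff]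
      have : x % 8 = 1 % 8 := hx1
      omega
    · have h1 : Nat.gcd x r = Nat.gcd p r := by
        exact Nat.ModEq.gcd_eq hx2
      unfold Nat.Coprime
      rw [h1]
      exact (Nat.coprime_primes hp hr).2 hrp.symm
  obtain ⟨m, hm1, hm, hm2⟩ := prime_mod (8 * r) x (p + r) (by have := hr.pos; omega) hxc
  have hm8 : m % 8 = 1 := by
    have : m % 8 = 1 % 8 := (Nat.ModEq.of_mul_right r hm2).trans hx1
    omega
  have hmr : m ≡ p [MOD r] := (Nat.ModEq.of_mul_left 8 hm2).trans hx2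
  have hmo : Odd m := by rw [Nat.odd_iff]; omega
  have hlc : Nat.Coprime r (8 * (p * m)) := by
    apply Nat.Coprime.mul_right h8r.symm
    apply Nat.Coprime.mul_right
    · exact (Nat.coprime_primes hr hp).2 hrp
    · exact (Nat.coprime_primes hr hm).2 (by omega)
  obtain ⟨l, hl1, hl, hl2⟩ := prime_mod (8 * (p * m)) r (p + r + m)
    (by have := hp.pos; have := hm.pos; positivity) hlc
  have hl8 : l % 8 = r % 8 := Nat.ModEq.of_mul_right (p * m) hl2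
  have hlpm : l ≡ r [MOD p * m] := Nat.ModEq.of_mul_left 8 hl2
  have hlp : l ≡ r [MOD p] := Nat.ModEq.of_mul_right m hlpm
  have hlm : l ≡ r [MOD m] := Nat.ModEq.of_mul_left p hlpm
  have hlo : Odd l := by
    rw [Nat.odd_iff] at hro ⊢
    omega
  refine ⟨(r : ℤ) * l, (p : ℤ) * m, dvd_mul_right _ _, not_sq_dvd hr hl (by omega),
    not_dvd_mul hp (not_dvd_of_ne hp hr hrp.symm) (not_dvd_of_ne hp hl (by omega)),
    dvd_mul_right _ _, not_sq_dvd hp hm (by omega), ?_,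
    by have := hr.pos; have := hl.pos; positivity⟩
  intro q hq
  by_cases hq2 : q = 2
  · subst hq2
    obtain ⟨w, h0, hw⟩ := sq_two' ((r : ℤ) * l) (by
      have h1 : (r * l) % 8 = 1 := by
        rw [Nat.mul_mod, hl8]
        rw [Nat.odd_iff] at hro
        have : r % 8 = 1 ∨ r % 8 = 3 ∨ r % 8 = 5 ∨ r % 8 = 7 := by omega
        rcases this with h | h | h | h <;> rw [h]
      have h2 : (r : ℤ) * l = ((r * l : ℕ) : ℤ) := by push_cast; ring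
      rw [h2]
      omega)
    exact ⟨w, h0, Or.inl hw⟩
  by_cases hqp : q = p
  · subst hqp
    obtain ⟨w, h0, hw⟩ := sq_odd' q hq2 ((r : ℤ) * l) r (by
      have h1 : (q : ℤ) ∣ r - l := (Nat.modEq_iff_dvd).1 hlp
      have e : (r : ℤ) ^ 2 - (r : ℤ) * l = r * (r - l) := by ring
      rw [e]
      exact h1.mul_left _) (not_dvd_of_ne hp hr hrp.symm)
    exact ⟨w, h0, Or.inl hw⟩
  by_cases hqm : q = m
  · subst hqm
    obtain ⟨w, h0, hw⟩ := sq_odd' q hq2 ((r : ℤ) * l) r (by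
      have h1 : (q : ℤ) ∣ r - l := (Nat.modEq_iff_dvd).1 hlm
      have e : (r : ℤ) ^ 2 - (r : ℤ) * l = r * (r - l) := by ring
      rw [e]
      exact h1.mul_left _) (not_dvd_of_ne hm hr (by omega))
    exact ⟨w, h0, Or.inl hw⟩
  by_cases hqr : q = r
  · subst hqr
    obtain ⟨w, h0, hw⟩ := sq_odd' q hq2 ((p : ℤ) * m) p (by
      have h1 : (q : ℤ) ∣ p - m := (Nat.modEq_iff_dvd).1 hmr
      have e : (p : ℤ) ^ 2 - (p : ℤ) * m = p * (p - m) := by ring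
      rw [e]
      exact h1.mul_left _) (not_dvd_of_ne hr hp hrp)
    exact ⟨w, h0, Or.inr (Or.inl hw)⟩
  by_cases hql : q = l
  · subst hql
    obtain ⟨w, h0, hw⟩ := sq_of_jac q hq2 ((p : ℤ) * m)
      (not_dvd_mul hl (not_dvd_of_ne hl hp (by omega)) (not_dvd_of_ne hl hm (by omega))) (by
      have hpmo : Odd (p * m) := hpo.mul hmo
      have e0 : (p : ℤ) * m = ((p * m : ℕ) : ℤ) := by push_cast; ring
      rw [e0, jacobiSym.quadratic_reciprocity hpmo hlo]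
      have e1 : jacobiSym ((q : ℕ) : ℤ) (p * m) = jacobiSym ((r : ℕ) : ℤ) (p * m) := by
        apply jacobiSym.mod_left'
        exact_mod_cast hlpm
      rw [e1, jacobiSym.quadratic_reciprocity hro hpmo]
      have e2 : jacobiSym ((p * m : ℕ) : ℤ) r = 1 := by
        have h1 : jacobiSym ((p * m : ℕ) : ℤ) r = jacobiSym ((p : ℤ) ^ 2) r := by
          apply jacobiSym.mod_left'
          have h2 : (r : ℤ) ∣ p - m := (Nat.modEq_iff_dvd).1 hmr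
          apply Int.ModEq.symm
          rw [Int.modEq_iff_dvd]
          have e : ((p * m : ℕ) : ℤ) - (p : ℤ) ^ 2 = -(p * (p - m)) := by push_cast; ring
          rw [e]
          exact (h2.mul_left _).neg_right
        rw [h1]
        apply jacobiSym.sq_one'
        rw [Int.gcd_natCast_natCast]
        exact (Nat.coprime_primes hp hr).2 hrp.symm
      rw [e2, mul_one, ← pow_add]
      have h3 : (p * m) / 2 * (q / 2) + r / 2 * ((p * m) / 2) = (p * m) / 2 * (q / 2 + r / 2) := by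
        ring
      rw [h3]
      have h4 : Even (q / 2 + r / 2) := by
        rw [Nat.even_iff]
        rw [Nat.odd_iff] at hro hlo
        omega
      exact (h4.mul_left _).neg_one_pow)
    exact ⟨w, h0, Or.inr (Or.inl hw)⟩
  · exact sq_of_three q hq2 _ _
      (not_dvd_mul hq.out (not_dvd_of_ne hq.out hr hqr) (not_dvd_of_ne hq.out hl hql))
      (not_dvd_mul hq.out (not_dvd_of_ne hq.out hp hqp) (not_dvd_of_ne hq.out hm hqm))

theorem vals2_two (p : ℕ) (hp : p.Prime) (hp2 : p ≠ 2) : ∃ a b : ℤ, Vals2 p 2 a b := by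
  have hpo := hp.odd_of_ne_two hp2
  have hp8 : Nat.Coprime p 8 := by
    rw [show (8 : ℕ) = 2 ^ 3 by norm_num]
    exact Nat.Coprime.pow_right 3 ((Nat.coprime_primes hp Nat.prime_two).2 hp2)
  obtain ⟨m, hm1, hm, hm2⟩ := prime_mod 8 p (p + 2) (by norm_num) hp8
  have hm8 : m % 8 = p % 8 := hm2
  have hmo : Odd m := by
    rw [Nat.odd_iff] at hpo ⊢
    omega
  have hpmo : Odd (p * m) := hpo.mul hmo
  have hpm8 : (p * m) % 8 = 1 := by
    rw [Nat.mul_mod, hm8]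
    rw [Nat.odd_iff] at hpo
    have : p % 8 = 1 ∨ p % 8 = 3 ∨ p % 8 = 5 ∨ p % 8 = 7 := by omega
    rcases this with h | h | h | h <;> rw [h]
  have hlc : Nat.Coprime 2 (p * m) := Nat.coprime_two_left.2 hpmo
  obtain ⟨l, hl1, hl, hlpm⟩ := prime_mod (p * m) 2 (p + 2 + m)
    (by have := hp.pos; have := hm.pos; positivity) hlc
  have hlp : l ≡ 2 [MOD p] := Nat.ModEq.of_mul_right m hlpm
  have hlm : l ≡ 2 [MOD m] := Nat.ModEq.of_mul_left p hlpm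
  have hlo : Odd l := hl.odd_of_ne_two (by omega)
  have e2 : ((2 : ℕ) : ℤ) = 2 := rfl
  refine ⟨((2 : ℕ) : ℤ) * l, (p : ℤ) * m, dvd_mul_right _ _, not_sq_dvd Nat.prime_two hl (by omega),
    not_dvd_mul hp (not_dvd_of_ne hp Nat.prime_two hp2) (not_dvd_of_ne hp hl (by omega)),
    dvd_mul_right _ _, not_sq_dvd hp hm (by omega), ?_,
    by have := hl.pos; positivity⟩
  intro q hq
  by_cases hq2 : q = 2
  · subst hq2
    obtain ⟨w, h0, hw⟩ := sq_two' ((p : ℤ) * m) (by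
      have h2 : (p : ℤ) * m = ((p * m : ℕ) : ℤ) := by push_cast; ring
      rw [h2]
      omega)
    exact ⟨w, h0, Or.inr (Or.inl hw)⟩
  have hq2' : ¬ (q : ℤ) ∣ ((2 : ℕ) : ℤ) := not_dvd_of_ne hq.out Nat.prime_two hq2
  by_cases hqp : q = p
  · subst hqp
    obtain ⟨w, h0, hw⟩ := sq_odd' q hq2 (((2 : ℕ) : ℤ) * l) ((2 : ℕ) : ℤ) (by
      have h1 : (q : ℤ) ∣ ((2 : ℕ) : ℤ) - l := (Nat.modEq_iff_dvd).1 hlp
      have e : ((2 : ℕ) : ℤ) ^ 2 - ((2 : ℕ) : ℤ) * l = ((2 : ℕ) : ℤ) * (((2 : ℕ) : ℤ) - l) := by ring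
      rw [e]
      exact h1.mul_left _) hq2'
    exact ⟨w, h0, Or.inl hw⟩
  by_cases hqm : q = m
  · subst hqm
    obtain ⟨w, h0, hw⟩ := sq_odd' q hq2 (((2 : ℕ) : ℤ) * l) ((2 : ℕ) : ℤ) (by
      have h1 : (q : ℤ) ∣ ((2 : ℕ) : ℤ) - l := (Nat.modEq_iff_dvd).1 hlm
      have e : ((2 : ℕ) : ℤ) ^ 2 - ((2 : ℕ) : ℤ) * l = ((2 : ℕ) : ℤ) * (((2 : ℕ) : ℤ) - l) := by ring
      rw [e]
      exact h1.mul_left _) hq2'
    exact ⟨w, h0, Or.inl hw⟩
  by_cases hql : q = l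
  · subst hql
    obtain ⟨w, h0, hw⟩ := sq_of_jac q hq2 ((p : ℤ) * m)
      (not_dvd_mul hl (not_dvd_of_ne hl hp (by omega)) (not_dvd_of_ne hl hm (by omega))) (by
      have e0 : (p : ℤ) * m = ((p * m : ℕ) : ℤ) := by push_cast; ring
      rw [e0, jacobiSym.quadratic_reciprocity hpmo hlo]
      have e1 : jacobiSym ((q : ℕ) : ℤ) (p * m) = jacobiSym 2 (p * m) := by
        apply jacobiSym.mod_left'
        have h1 : (q : ℕ) ≡ 2 [MOD p * m] := hlpm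
        exact_mod_cast h1
      rw [e1, jacobiSym.at_two hpmo, ZMod.χ₈_nat_eq_if_mod_eight]
      have h3 : (p * m) % 2 ≠ 0 := by omega
      rw [if_neg h3, if_pos (Or.inl hpm8), mul_one]
      have h4 : Even ((p * m) / 2) := by
        rw [Nat.even_iff]
        omega
      exact (h4.mul_right _).neg_one_pow)
    exact ⟨w, h0, Or.inr (Or.inl hw)⟩
  · exact sq_of_three q hq2 _ _
      (not_dvd_mul hq.out hq2' (not_dvd_of_ne hq.out hl hql))
      (not_dvd_mul hq.out (not_dvd_of_ne hq.out hp hqp) (not_dvd_of_ne hq.out hm hqm))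

theorem exists_vals2 (p r : ℕ) (hp : p.Prime) (hr : r.Prime) (hp2 : p ≠ 2) (hrp : r ≠ p) :
    ∃ a b : ℤ, Vals2 p r a b := by
  by_cases hr2 : r = 2
  · subst hr2
    exact vals2_two p hp hp2
  · exact vals2_odd p r hp hr hp2 hr2 hrp

/-- the conditions on the coefficients at `p` and at the auxiliary prime `r` -/
structure Coe2 (p r : ℕ) (α β γ δ : ℤ) : Prop where
  b1 : (p : ℤ) ∣ β
  b2 : ¬ (p : ℤ) ^ 2 ∣ β
  c1 : (p : ℤ) ∣ γ
  c2 : ¬ (p : ℤ) ^ 2 ∣ γ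
  a1 : (r : ℤ) ∣ α
  a2 : ¬ (r : ℤ) ^ 2 ∣ α
  b3 : (r : ℤ) ∣ β
  c3 : (r : ℤ) ∣ γ
  d : r = 2 ∨ ¬ IsSquare (δ : ZMod r)

theorem exists_coe2 (p : ℕ) (hp : p.Prime) (hp2 : p ≠ 2) (r : ℕ) (hr : r.Prime) (hrp : r ≠ p)
    (M : ℤ) : ∃ α β γ δ : ℤ, Coe2 p r α β γ δ ∧ M < |α| ∧
    (∀ (q : ℕ) [Fact q.Prime], ∃ x y z w : ℚ_[q], (x ≠ 0 ∨ y ≠ 0 ∨ z ≠ 0) ∧ w ≠ 0 ∧
      x ^ p + y ^ p + z ^ p = 0 ∧ w ^ 2 = sx α β γ δ x y z) ∧
    ∃ x y z w : ℝ, (x ≠ 0 ∨ y ≠ 0 ∨ z ≠ 0) ∧ w ≠ 0 ∧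
      x ^ p + y ^ p + z ^ p = 0 ∧ w ^ 2 = sx α β γ δ x y z := by
  have hodd : Odd p := hp.odd_of_ne_two hp2
  have hp0 : p ≠ 0 := hp.ne_zero
  have hrF : Fact r.Prime := ⟨hr⟩
  obtain ⟨a, b, hv⟩ := exists_vals2 p r hp hr hp2 hrp
  have ha0 : a ≠ 0 := hv.pos.ne'
  have hpZ : Prime (p : ℤ) := Nat.prime_iff_prime_int.1 hp
  have hrZ : Prime (r : ℤ) := Nat.prime_iff_prime_int.1 hr
  have hpr : ¬ (p : ℤ) ∣ (r : ℤ) := not_dvd_of_ne hp hr hrp.symm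
  have hr0 : (r : ℤ) ≠ 0 := by exact_mod_cast hr.ne_zero
  -- the scaling
  obtain ⟨T, hT1, hT2⟩ : ∃ T : ℤ, 0 < T ∧ M < T ∧ ¬ (r : ℤ) ∣ T := by
    refine ⟨r * (|M| + 1) + 1, ?_, ?_, ?_⟩
    · have : 0 ≤ |M| := abs_nonneg M
      have := hr.pos
      positivity
    · have h1 := le_abs_self M
      have h2 : (1 : ℤ) ≤ r := by exact_mod_cast hr.one_le
      nlinarith [abs_nonneg M]
    · intro h
      have h1 : (r : ℤ) ∣ 1 := (dvd_add_right (dvd_mul_right (r : ℤ) (|M| + 1))).1 h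
      exact hrZ.not_isUnit (isUnit_of_dvd_one h1)
  -- the last coefficient
  obtain ⟨δ, hδ⟩ : ∃ δ : ℤ, r = 2 ∨ ¬ IsSquare (δ : ZMod r) := by
    by_cases h2 : r = 2
    · exact ⟨0, Or.inl h2⟩
    · obtain ⟨n, hn⟩ : ∃ n : ZMod r, ¬ IsSquare n :=
        FiniteField.exists_nonsquare (by rwa [ZMod.ringChar_zmod_n])
      refine ⟨n.val, Or.inr ?_⟩
      rwa [Int.cast_natCast, ZMod.natCast_zmod_val]
  have hpr2 : IsCoprime ((p : ℤ) ^ 2) ((r : ℤ) ^ 2) :=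
    ((Prime.coprime_iff_not_dvd hpZ).2 hpr).pow
  have hrT : IsCoprime ((r : ℤ) ^ 2) (T ^ 2) := ((Prime.coprime_iff_not_dvd hrZ).2 hT2.2).pow
  have hpa : IsCoprime ((p : ℤ) ^ 2) a := ((Prime.coprime_iff_not_dvd hpZ).2 hv.a3).pow_left
  refine ⟨-(a * T ^ 2), -(b * r ^ 2), -(a * b), δ, ⟨?_, ?_, ?_, ?_, ?_, ?_, ?_, ?_, hδ⟩, ?_, ?_, ?_⟩
  · exact (hv.b1.mul_right _).neg_right
  · intro h
    rw [dvd_neg] at h
    exact hv.b2 (hpr2.dvd_of_dvd_mul_right h)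
  · exact (hv.b1.mul_left _).neg_right
  · intro h
    rw [dvd_neg] at h
    exact hv.b2 (hpa.dvd_of_dvd_mul_left h)
  · exact (hv.a1.mul_right _).neg_right
  · intro h
    rw [dvd_neg] at h
    exact hv.a2 (hrT.dvd_of_dvd_mul_right h)
  · exact ((dvd_pow_self (r : ℤ) two_ne_zero).mul_left _).neg_right
  · exact (hv.a1.mul_right _).neg_right
  · rw [abs_neg, abs_mul, abs_pow, abs_of_pos hv.pos, abs_of_pos hT1]
    have h1 : 1 ≤ a := hv.pos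
    have h5 : T ≤ T ^ 2 := by nlinarith
    have h6 : T ^ 2 ≤ a * T ^ 2 := by nlinarith [sq_nonneg T]
    linarith [hT2.1]
  · intro q hq
    have hTq : (T : ℚ_[q]) ≠ 0 := by exact_mod_cast hT1.ne'
    have hrq : (r : ℚ_[q]) ≠ 0 := by exact_mod_cast hr.ne_zero
    obtain ⟨w, h0, hw⟩ := hv.loc q
    rcases hw with hw | hw | hw
    · refine ⟨1, -1, 0, w * T, Or.inl one_ne_zero, mul_ne_zero h0 hTq, ?_, ?_⟩
      · rw [zero_pow hp0, one_pow, hodd.neg_one_pow]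
        ring
      · unfold sx
        rw [mul_pow, hw]
        push_cast
        ring
    · refine ⟨0, 1, -1, w * r, Or.inr (Or.inl one_ne_zero), mul_ne_zero h0 hrq, ?_, ?_⟩
      · rw [zero_pow hp0, one_pow, hodd.neg_one_pow]
        ring
      · unfold sx
        rw [mul_pow, hw]
        push_cast
        ring
    · refine ⟨-1, 0, 1, w, Or.inr (Or.inr one_ne_zero), h0, ?_, ?_⟩
      · rw [zero_pow hp0, one_pow, hodd.neg_one_pow]
        ring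
      · unfold sx
        rw [hw]
        push_cast
        ring
  · have hTR : (T : ℝ) ≠ 0 := by exact_mod_cast hT1.ne'
    have h1 : (0 : ℝ) < a := by exact_mod_cast hv.pos
    refine ⟨1, -1, 0, Real.sqrt a * T, Or.inl one_ne_zero,
      mul_ne_zero (Real.sqrt_pos.2 h1).ne' hTR, ?_, ?_⟩
    · rw [zero_pow hp0, one_pow, hodd.neg_one_pow]
      ring
    · unfold sx
      rw [mul_pow, Real.sq_sqrt h1.le]
      push_cast
      ring

end Pool.Agent.K3h1.FC
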