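import Pool.Agent.K3h1.FC.Core
import Pool.Agent.K3h1.FC.CRIT
import Pool.Agent.K3h97.FC.WA

/-!
# Project FC: the criteria for adelic points of the Fermat curve
-/

set_option autoImplicit false

namespace Pool.Agent.K3h1.FC

open NumberField IsDedekindDomain Polynomial Pool.Agent.Y546.WQ

open scoped TensorProduct

section local_

variable {r : ℕ} [Fact r.Prime]

theorem intCast_eq_zero_iff_norm (A : ℤ) : (A : ZMod r) = 0 ↔ ‖(A : ℚ_[r])‖ < 1 := by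
  rw [ZMod.intCast_zmod_eq_zero_iff_dvd, Padic.norm_intCast_lt_one_iff]

theorem norm_lt_of_close (a b : ℚ_[r]) (h : ‖a - b‖ < 1) (ha : ‖a‖ < 1) : ‖b‖ < 1 := by
  have e : b = a + -(a - b) := by ring
  rw [e]
  refine (Padic.nonarchimedean _ _).trans_lt (max_lt ha ?_)
  rwa [norm_neg]

theorem norm_lt_iff_of_close (a b : ℚ_[r]) (h : ‖a - b‖ < 1) : ‖a‖ < 1 ↔ ‖b‖ < 1 :=
  ⟨norm_lt_of_close a b h, norm_lt_of_close b a (by rwa [← norm_neg, neg_sub])⟩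

theorem norm_lt_one_of_pow (a : ℚ_[r]) (n : ℕ) (hn : n ≠ 0) : ‖a ^ n‖ < 1 ↔ ‖a‖ < 1 := by
  rw [norm_pow]
  exact pow_lt_one_iff_of_nonneg (norm_nonneg _) hn

theorem norm_add_lt (a b : ℚ_[r]) (ha : ‖a‖ < 1) (hb : ‖b‖ < 1) : ‖a + b‖ < 1 :=
  (Padic.nonarchimedean _ _).trans_lt (max_lt ha hb)

theorem norm_sub_lt (a b : ℚ_[r]) (ha : ‖a‖ < 1) (hb : ‖b‖ < 1) : ‖a - b‖ < 1 := by
  rw [sub_eq_add_neg]
  exact norm_add_lt a (-b) ha (by rwa [norm_neg])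

/-- normalized coordinates of a point of the Fermat curve -/
structure Nml (n : ℕ) (x y z : ℚ_[r]) : Prop where
  x1 : ‖x‖ ≤ 1
  y1 : ‖y‖ ≤ 1
  z1 : ‖z‖ ≤ 1
  one : ‖x‖ = 1 ∨ ‖y‖ = 1 ∨ ‖z‖ = 1
  eq : x ^ n + y ^ n + z ^ n = 0

theorem Nml.rot {n : ℕ} {x y z : ℚ_[r]} (h : Nml n x y z) : Nml n y z x :=
  ⟨h.y1, h.z1, h.x1, by have := h.one; tauto, by linear_combination h.eq⟩

theorem Nml.not_two {n : ℕ} (hn : n ≠ 0) {x y z : ℚ_[r]} (h : Nml n x y z) :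
    ¬ (‖x‖ < 1 ∧ ‖y‖ < 1) := by
  rintro ⟨h1, h2⟩
  have h3 : ‖z ^ n‖ < 1 := by
    have e : z ^ n = -(x ^ n + y ^ n) := by linear_combination h.eq
    rw [e, norm_neg]
    exact norm_add_lt _ _ ((norm_lt_one_of_pow x n hn).2 h1) ((norm_lt_one_of_pow y n hn).2 h2)
  rw [norm_lt_one_of_pow z n hn] at h3
  rcases h.one with h4 | h4 | h4 <;> linarith

theorem eq_one_of_not_lt {x : ℚ_[r]} (h : ‖x‖ ≤ 1) (h' : ¬ ‖x‖ < 1) : ‖x‖ = 1 :=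
  le_antisymm h (not_lt.1 h')

/-- if the first coordinate is small then the two others are units and so is the sum of the first
two -/
theorem Nml.small {n : ℕ} (hn : n ≠ 0) {x y z : ℚ_[r]} (h : Nml n x y z) (hx : ‖x‖ < 1) :
    ‖y‖ = 1 ∧ ‖z‖ = 1 ∧ ‖x + y‖ = 1 ∧ ‖z + x‖ = 1 := by
  have hy : ‖y‖ = 1 := eq_one_of_not_lt h.y1 fun h1 => h.not_two hn ⟨hx, h1⟩
  have hz : ‖z‖ = 1 := eq_one_of_not_lt h.z1 fun h1 => h.rot.rot.not_two hn ⟨h1, hx⟩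
  refine ⟨hy, hz, ?_, ?_⟩
  · rw [Padic.add_eq_max_of_ne (by rw [hy]; exact hx.ne), hy]
    exact max_eq_right hx.le
  · rw [Padic.add_eq_max_of_ne (by rw [hz]; exact hx.ne'), hz]
    exact max_eq_left hx.le

end local_

section

variable {p : ℕ} [Fact p.Prime]

/-- the Frobenius at `p` -/
theorem norm_add_pow_sub (x y : ℚ_[p]) (hx : ‖x‖ ≤ 1) (hy : ‖y‖ ≤ 1) :
    ‖(x + y) ^ p - (x ^ p + y ^ p)‖ < 1 := by
  let X : ℤ_[p] := ⟨x, hx⟩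
  let Y : ℤ_[p] := ⟨y, hy⟩
  have h : PadicInt.toZMod ((X + Y) ^ p - (X ^ p + Y ^ p)) = 0 := by
    simp only [map_sub, map_add, map_pow]
    rw [add_pow_char, sub_self]
  have h2 : ‖(X + Y) ^ p - (X ^ p + Y ^ p)‖ < 1 := by
    rw [← PadicInt.mem_nonunits, ← IsLocalRing.mem_maximalIdeal, ← PadicInt.ker_toZMod]
    exact h
  exact_mod_cast h2

theorem Nml.sum_unit {x y z : ℚ_[p]} (h : Nml p x y z) (hz : ‖z‖ = 1) : ‖x + y‖ = 1 := by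
  have hpp : p.Prime := Fact.out
  have h1 : ‖x + y‖ ≤ 1 := (Padic.nonarchimedean _ _).trans (max_le h.x1 h.y1)
  apply eq_one_of_not_lt h1
  intro h2
  have h3 := norm_add_pow_sub x y h.x1 h.y1
  have h4 : ‖x ^ p + y ^ p‖ < 1 := norm_lt_of_close _ _ h3
    ((norm_lt_one_of_pow _ p hpp.ne_zero).2 h2)
  have h5 : ‖z ^ p‖ < 1 := by
    have e : z ^ p = -(x ^ p + y ^ p) := by linear_combination h.eq
    rw [e, norm_neg]
    exact h4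
  rw [norm_lt_one_of_pow z p hpp.ne_zero] at h5
  linarith

theorem Nml.sum_all {x y z : ℚ_[p]} (h : Nml p x y z) : ‖x + y + z‖ < 1 := by
  have hpp : p.Prime := Fact.out
  have h1 : ‖x + y‖ ≤ 1 := (Padic.nonarchimedean _ _).trans (max_le h.x1 h.y1)
  have h2 := norm_add_pow_sub (x + y) z h1 h.z1
  have h3 := norm_add_pow_sub x y h.x1 h.y1
  rw [← norm_lt_one_of_pow _ p hpp.ne_zero]
  have e : (x + y + z) ^ p = ((x + y + z) ^ p - ((x + y) ^ p + z ^ p)) +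
      ((x + y) ^ p - (x ^ p + y ^ p)) := by linear_combination h.eq
  rw [e]
  exact norm_add_lt _ _ h2 h3

/-- first case contradiction: not all three coordinates are equal modulo `p` -/
theorem Nml.not_all_eq (h5 : 5 ≤ p) {x y z : ℚ_[p]} (h : Nml p x y z) (hx : ‖x‖ = 1)
    (h1 : ‖x - y‖ < 1) (h2 : ‖y - z‖ < 1) : False := by
  have hpp : p.Prime := Fact.out
  have h3 := h.sum_all
  have e : (3 : ℚ_[p]) * x = (x + y + z) + ((x - y) + ((x - y) + (y - z))) := by ring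
  have h4 : ‖(3 : ℚ_[p]) * x‖ < 1 := by
    rw [e]
    exact norm_add_lt _ _ h3 (norm_add_lt _ _ h1 (norm_add_lt _ _ h1 h2))
  rw [norm_mul, hx, mul_one] at h4
  have h6 : ‖((3 : ℕ) : ℚ_[p])‖ < 1 := by exact_mod_cast h4
  rw [Padic.norm_natCast_lt_one_iff] at h6
  have := Nat.le_of_dvd (by norm_num) h6
  omega

variable {E : Type} [Field E] [NumberField E]

omit [Fact p.Prime] in
/-- scaling -/
theorem Lifts.scale {r : ℕ} [Fact r.Prime] {δ : E → E} {D : E} {x y z : ℚ_[r]}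
    (h : Lifts p r E δ D x y z) (s : ℚ_[r]) (hs : s ≠ 0) :
    Lifts p r E δ D (s * x) (s * y) (s * z) := by
  obtain ⟨c, w, h1, h2⟩ := h
  have hu : (s ⊗ₜ[ℚ] (1 : E) : Loc r E) * (s⁻¹ ⊗ₜ[ℚ] (1 : E)) = 1 := by
    rw [Algebra.TensorProduct.tmul_mul_tmul, mul_inv_cancel₀ hs, one_mul]
    rfl
  let S : (Loc r E)ˣ := ⟨s ⊗ₜ[ℚ] (1 : E), s⁻¹ ⊗ₜ[ℚ] (1 : E), hu, by rw [mul_comm]; exact hu⟩
  have hS : (S : Loc r E) = s ⊗ₜ[ℚ] (1 : E) := rfl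
  have e1 : ∀ t : Loc r E, ((c * S⁻¹ : (Loc r E)ˣ) : Loc r E) * ((s ⊗ₜ[ℚ] (1 : E)) * t) =
      c * t := by
    intro t
    have e2 : ((S⁻¹ : (Loc r E)ˣ) : Loc r E) * (s ⊗ₜ[ℚ] (1 : E)) = 1 := by
      rw [← hS, S.inv_mul]
    rw [Units.val_mul]
    linear_combination ((c : Loc r E) * t) * e2
  refine ⟨c * S⁻¹, w, fun ξ hξ => ?_, ?_⟩
  · rw [← h1 ξ hξ, ← e1]
    congr 1
    rw [mul_add, Algebra.TensorProduct.tmul_mul_tmul, Algebra.TensorProduct.tmul_mul_tmul,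
      one_mul, one_mul]
  · rw [← h2, ← e1]
    congr 1
    rw [Algebra.TensorProduct.tmul_mul_tmul, one_mul, mul_neg]

/-- the data of a normalized adelic point lifting to a twist -/
structure Dat (p : ℕ) (E : Type) [Field E] [NumberField E] (x y z : ∀ r : Nat.Primes, ℚ_[(r : ℕ)])
    (δ : E → E) (D : E) : Prop where
  twist : IsTwist p E δ D
  nml : ∀ r, Nml p (x r) (y r) (z r)
  lifts : ∀ r : Nat.Primes, Lifts p (r : ℕ) E δ D (x r) (y r) (z r)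

theorem Dat.ord (c : Cyc p E) {x y z : ∀ r : Nat.Primes, ℚ_[(r : ℕ)]} {δ : E → E} {D : E}
    (h : Dat p E x y z δ D) (hz : ‖z ⟨p, Fact.out⟩‖ = 1) (P : HeightOneSpectrum (𝓞 E)) :
    ∃ κ : ℤ, Ords p P δ κ := by
  obtain ⟨r, hr, hP⟩ := exists_prime_mem P
  have : Fact r.Prime := ⟨hr⟩
  have hpp : p.Prime := Fact.out
  by_cases hrp : r = p
  · subst hrp
    have hn := h.nml ⟨r, hr⟩
    exact ord_eq c P hP δ D _ _ _ hn.x1 hn.y1 (hn.sum_unit hz) (h.lifts ⟨r, hr⟩)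
  · have hn := h.nml ⟨r, hr⟩
    refine ord_ne hrp c P hP δ D h.twist _ _ _ hn.x1 hn.y1 ?_ (h.lifts ⟨r, hr⟩)
    by_contra hcon
    rw [not_or] at hcon
    exact hn.not_two hpp.ne_zero ⟨lt_of_le_of_ne hn.x1 hcon.1, lt_of_le_of_ne hn.y1 hcon.2⟩

theorem Dat.ord_ratio (c : Cyc p E) {x y z : ∀ r : Nat.Primes, ℚ_[(r : ℕ)]} {δ : E → E} {D : E}
    (h : Dat p E x y z δ D) (hz : ‖z ⟨p, Fact.out⟩‖ = 1) (P : HeightOneSpectrum (𝓞 E)) :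
    ∃ m : ℤ, P.valuation E (δ c.z / δ 1) = WithZero.exp ((p : ℤ) * m) := by
  have hpp : p.Prime := Fact.out
  obtain ⟨κ, hκ⟩ := h.ord c hz P
  obtain ⟨m₁, h₁⟩ := hκ c.z (by rw [mem_nthRootsFinset hpp.pos]; exact c.prim.pow_eq_one)
  obtain ⟨m₂, h₂⟩ := hκ 1 (by rw [mem_nthRootsFinset hpp.pos]; exact one_pow p)
  refine ⟨m₁ - m₂, ?_⟩
  rw [map_div₀, h₁, h₂, ← WithZero.exp_sub]
  congr 1
  ring

/-- approximation of the quotients -/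
theorem approxQ {r : ℕ} [Fact r.Prime] (x y : ℚ_[r]) (hx : ‖x‖ ≤ 1) (hy : ‖y‖ ≤ 1)
    (hxy : ‖x + y‖ = 1) : ‖x / (x + y)‖ ≤ 1 ∧ ‖y / (x + y)‖ ≤ 1 ∧
      x / (x + y) + y / (x + y) = 1 ∧ ∃ A₀ A₁ : ℤ, ‖x / (x + y) - (A₀ : ℚ_[r])‖ < 1 ∧
      ‖y / (x + y) - (A₁ : ℚ_[r])‖ < 1 ∧ (A₀ : ZMod r) + (A₁ : ZMod r) = 1 ∧
      ((A₀ : ZMod r) = 0 ↔ ‖x‖ < 1) ∧ ((A₁ : ZMod r) = 0 ↔ ‖y‖ < 1) ∧
      ((A₀ : ZMod r) = (A₁ : ZMod r) ↔ ‖x - y‖ < 1) := by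
  have hne : x + y ≠ 0 := by
    intro h
    rw [h, norm_zero] at hxy
    exact zero_ne_one hxy
  have h1 : ‖x / (x + y)‖ = ‖x‖ := by rw [norm_div, hxy, div_one]
  have h2 : ‖y / (x + y)‖ = ‖y‖ := by rw [norm_div, hxy, div_one]
  have h3 : x / (x + y) + y / (x + y) = 1 := by rw [← add_div, div_self hne]
  obtain ⟨A₀, hA₀⟩ := approxInt (x / (x + y)) (by rw [h1]; exact hx) 1 one_pos
  obtain ⟨A₁, hA₁⟩ := approxInt (y / (x + y)) (by rw [h2]; exact hy) 1 one_pos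
  refine ⟨by rw [h1]; exact hx, by rw [h2]; exact hy, h3, A₀, A₁, hA₀, hA₁, ?_, ?_, ?_, ?_⟩
  · have h4 : ((A₀ + A₁ - 1 : ℤ) : ZMod r) = 0 := by
      rw [intCast_eq_zero_iff_norm]
      have e : ((A₀ + A₁ - 1 : ℤ) : ℚ_[r]) = -((x / (x + y) - (A₀ : ℚ_[r])) +
          (y / (x + y) - (A₁ : ℚ_[r]))) := by
        push_cast
        linear_combination h3
      rw [e, norm_neg]
      exact norm_add_lt _ _ hA₀ hA₁
    push_cast at h4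
    linear_combination h4
  · rw [intCast_eq_zero_iff_norm, ← norm_lt_iff_of_close _ _ hA₀, h1]
  · rw [intCast_eq_zero_iff_norm, ← norm_lt_iff_of_close _ _ hA₁, h2]
  · have h4 : (A₀ : ZMod r) = (A₁ : ZMod r) ↔ ((A₀ - A₁ : ℤ) : ZMod r) = 0 := by
      push_cast
      exact sub_eq_zero.symm
    have h5 : ‖(x / (x + y) - y / (x + y)) - ((A₀ - A₁ : ℤ) : ℚ_[r])‖ < 1 := by
      have e : (x / (x + y) - y / (x + y)) - ((A₀ - A₁ : ℤ) : ℚ_[r]) =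
          (x / (x + y) - (A₀ : ℚ_[r])) - (y / (x + y) - (A₁ : ℚ_[r])) := by
        push_cast
        ring
      rw [e]
      exact norm_sub_lt _ _ hA₀ hA₁
    rw [h4, intCast_eq_zero_iff_norm, ← norm_lt_iff_of_close _ _ h5, ← sub_div, norm_div, hxy,
      div_one]

/-- the first case: the criteria that only use `p` -/
theorem Dat.main_p (h5 : 5 ≤ p) (c : Cyc p E) {x y z : ∀ r : Nat.Primes, ℚ_[(r : ℕ)]}
    {δ : E → E} {D : E} (h : Dat p E x y z δ D)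
    (hreg : p - 3 ∉ irr p ∨ ((irr p).card + 1) * ((irr p).card + 2) + 3 ≤ p)
    (hz : ‖z ⟨p, Fact.out⟩‖ = 1) (hx : ‖x ⟨p, Fact.out⟩‖ = 1) (hy : ‖y ⟨p, Fact.out⟩‖ = 1) :
    ‖x ⟨p, Fact.out⟩ - y ⟨p, Fact.out⟩‖ < 1 := by
  have hpp : p.Prime := Fact.out
  have hn := h.nml ⟨p, hpp⟩
  have hs := hn.sum_unit hz
  have hne : x ⟨p, hpp⟩ + y ⟨p, hpp⟩ ≠ 0 := by
    intro h0
    rw [h0, norm_zero] at hs
    exact zero_ne_one hs
  obtain ⟨u, hu⟩ := ratio c δ D h.twist _ _ _ hne (h.lifts ⟨p, hpp⟩)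
  obtain ⟨k0, k1, k2, A₀, A₁, hA₀, hA₁, hA, i0, i1, i2⟩ := approxQ _ _ hn.x1 hn.y1 hs
  have : Fact (Nat.Prime 2) := ⟨Nat.prime_two⟩
  obtain ⟨f, n, hpn, hqn, hf0, hv, hf, _⟩ := core Pool.Agent.K3h97.FC.WA.main h5 c
    (δ c.z / δ 1) (h.ord_ratio c hz) _ _ k0 k1 k2 u hu 2 (by omega) 0 0 (by simp) (by simp) 0
    (by
      rw [zero_pow hpp.ne_zero, mul_zero, TensorProduct.zero_tmul, TensorProduct.zero_tmul,
        add_zero]) A₀ A₁ 0 0 hA₀ hA₁ (by simp) (by simp)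
  have h6 := (main p h5 E c f n hpn A₀ A₁ hA hf hf0 hv).1 hreg
    (fun h0 => by
      have := i0.1 h0
      rw [hx] at this
      exact lt_irrefl _ this)
    (fun h0 => by
      have := i1.1 h0
      rw [hy] at this
      exact lt_irrefl _ this)
  exact i2.1 h6

/-- the criteria that use another prime `q` -/
theorem Dat.main_q (h5 : 5 ≤ p) (c : Cyc p E) {x y z : ∀ r : Nat.Primes, ℚ_[(r : ℕ)]}
    {δ : E → E} {D : E} (h : Dat p E x y z δ D) (q : Nat.Primes) (hqp : (q : ℕ) ≠ p)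
    (hW : ¬ p ^ 2 ∣ (q : ℕ) ^ (p - 1) - 1)
    (hz : ‖z ⟨p, Fact.out⟩‖ = 1) (hxy : ‖x q + y q‖ = 1) :
    (‖x q‖ < 1 → ‖x ⟨p, Fact.out⟩‖ < 1) ∧ (‖y q‖ < 1 → ‖y ⟨p, Fact.out⟩‖ < 1) ∧
    (‖x q - y q‖ < 1 → ‖x ⟨p, Fact.out⟩ - y ⟨p, Fact.out⟩‖ < 1) := by
  have hpp : p.Prime := Fact.out
  have hn := h.nml ⟨p, hpp⟩
  have hs := hn.sum_unit hz
  have hne : x ⟨p, hpp⟩ + y ⟨p, hpp⟩ ≠ 0 := by
    intro h0
    rw [h0, norm_zero] at hs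
    exact zero_ne_one hs
  have hnq := h.nml q
  have hneq : x q + y q ≠ 0 := by
    intro h0
    rw [h0, norm_zero] at hxy
    exact zero_ne_one hxy
  obtain ⟨u, hu⟩ := ratio c δ D h.twist _ _ _ hne (h.lifts ⟨p, hpp⟩)
  obtain ⟨v, hv⟩ := ratio c δ D h.twist _ _ _ hneq (h.lifts q)
  obtain ⟨k0, k1, k2, A₀, A₁, hA₀, hA₁, hA, i0, i1, i2⟩ := approxQ _ _ hn.x1 hn.y1 hs
  obtain ⟨l0, l1, l2, B₀, B₁, hB₀, hB₁, hB, j0, j1, j2⟩ := approxQ _ _ hnq.x1 hnq.y1 hxy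
  obtain ⟨f, n, hpn, hqn, hf0, hval, hf, hfq⟩ := core Pool.Agent.K3h97.FC.WA.main h5 c
    (δ c.z / δ 1) (h.ord_ratio c hz) _ _ k0 k1 k2 u hu (q : ℕ) hqp _ _ l0 l1 v hv
    A₀ A₁ B₀ B₁ hA₀ hA₁ hB₀ hB₁
  obtain ⟨m1, m2, m3⟩ := (main p h5 E c f n hpn A₀ A₁ hA hf hf0 hval).2 (q : ℕ) hqp hqn hW
    B₀ B₁ hB hfq
  exact ⟨fun h1 => i0.1 (m1 (j0.2 h1)), fun h1 => i1.1 (m2 (j1.2 h1)),
    fun h1 => i2.1 (m3 (j2.2 h1))⟩

end

end Pool.Agent.K3h1.FC
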