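import Pool.Agent.K3h1.FC.Fer
import Pool.Agent.K3h97.FC.DIS

/-!
# Project FC: adelic points of the Fermat curve which survive the three coverings
-/

set_option autoImplicit false

namespace Pool.Agent.K3h1.FC

open NumberField IsDedekindDomain Polynomial Pool.Agent.Y546.WQ

open scoped TensorProduct

section local_

variable {r : ℕ} [Fact r.Prime]

/-- an integral element as an element of the ring of integers -/
def mkI (x : ℚ_[r]) (hx : ‖x‖ ≤ 1) : ℤ_[r] := Subtype.mk x hx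

/-- the residue of an integral element -/
noncomputable def rs (x : ℚ_[r]) (hx : ‖x‖ ≤ 1) : ZMod r := PadicInt.toZMod (mkI x hx)

theorem rs_eq_zero (x : ℚ_[r]) (hx : ‖x‖ ≤ 1) : rs x hx = 0 ↔ ‖x‖ < 1 := by
  have h1 : ∀ y : ℤ_[r], PadicInt.toZMod y = 0 ↔ ‖(y : ℚ_[r])‖ < 1 := by
    intro y
    have h2 : PadicInt.toZMod y = 0 ↔ y ∈ RingHom.ker (PadicInt.toZMod (p := r)) := Iff.rfl
    rw [h2, PadicInt.ker_toZMod, IsLocalRing.mem_maximalIdeal, PadicInt.mem_nonunits,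
      PadicInt.norm_def]
  exact h1 _

theorem rs_add (x y : ℚ_[r]) (hx : ‖x‖ ≤ 1) (hy : ‖y‖ ≤ 1) (hxy : ‖x + y‖ ≤ 1) :
    rs (x + y) hxy = rs x hx + rs y hy := by
  have e : mkI (x + y) hxy = mkI x hx + mkI y hy := rfl
  unfold rs
  rw [e, map_add]

theorem rs_sub (x y : ℚ_[r]) (hx : ‖x‖ ≤ 1) (hy : ‖y‖ ≤ 1) (hxy : ‖x - y‖ ≤ 1) :
    rs (x - y) hxy = rs x hx - rs y hy := by
  have e : mkI (x - y) hxy = mkI x hx - mkI y hy := rfl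
  unfold rs
  rw [e, map_sub]

/-- the residues if `a ^ n = a` in the residue field -/
theorem Nml.res {n : ℕ} (ha : ∀ a : ZMod r, a ^ n = a) {x y z : ℚ_[r]} (h : Nml n x y z) :
    rs x h.x1 + rs y h.y1 + rs z h.z1 = 0 := by
  have h0 : ∀ X Y Z : ℤ_[r], (X : ℚ_[r]) ^ n + (Y : ℚ_[r]) ^ n + (Z : ℚ_[r]) ^ n = 0 →
      PadicInt.toZMod X + PadicInt.toZMod Y + PadicInt.toZMod Z = 0 := by
    intro X Y Z h1
    have h1' : X ^ n + Y ^ n + Z ^ n = 0 := by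
      apply Subtype.ext
      push_cast
      exact h1
    have h2 := congrArg PadicInt.toZMod h1'
    rw [map_add, map_add, map_pow, map_pow, map_pow, map_zero, ha, ha, ha] at h2
    exact h2
  exact h0 _ _ _ h.eq

theorem Nml.sum_res {n : ℕ} (ha : ∀ a : ZMod r, a ^ n = a) {x y z : ℚ_[r]} (h : Nml n x y z) :
    ‖x + y + z‖ < 1 := by
  have h0 : ‖x + y‖ ≤ 1 := (Padic.nonarchimedean _ _).trans (max_le h.x1 h.y1)
  have h1 : ‖x + y + z‖ ≤ 1 := (Padic.nonarchimedean _ _).trans (max_le h0 h.z1)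
  rw [← rs_eq_zero _ h1, rs_add (x + y) z h0 h.z1, rs_add x y h.x1 h.y1]
  exact h.res ha

end local_

theorem pow_two_res {n : ℕ} (hn : n ≠ 0) (a : ZMod 2) : a ^ n = a := by
  have h : a = 0 ∨ a = 1 := by revert a; decide
  rcases h with rfl | rfl
  · exact zero_pow hn
  · exact one_pow n

theorem pow_three_res {n : ℕ} (hn : Odd n) (a : ZMod 3) : a ^ n = a := by
  have h : a = 0 ∨ a = 1 ∨ a = -1 := by revert a; decide
  rcases h with rfl | rfl | rfl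
  · exact zero_pow (by rintro rfl; exact absurd hn (by decide))
  · exact one_pow n
  · exact hn.neg_one_pow

theorem Nml.two {n : ℕ} (hn : n ≠ 0) {x y z : ℚ_[2]} (h : Nml n x y z) :
    ‖x‖ < 1 ∨ ‖y‖ < 1 ∨ ‖z‖ < 1 := by
  have h1 := h.res (pow_two_res hn)
  rw [← rs_eq_zero x h.x1, ← rs_eq_zero y h.y1, ← rs_eq_zero z h.z1]
  have hd : ∀ X Y Z : ZMod 2, X + Y + Z = 0 → X = 0 ∨ Y = 0 ∨ Z = 0 := by decide
  exact hd _ _ _ h1

theorem Nml.three {n : ℕ} (hn : Odd n) {x y z : ℚ_[3]} (h : Nml n x y z) :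
    (‖x‖ < 1 ∨ ‖y‖ < 1 ∨ ‖z‖ < 1) ∨ (‖x - y‖ < 1 ∧ ‖y - z‖ < 1 ∧ ‖z - x‖ < 1 ∧ ‖x + y‖ = 1 ∧
      ‖y + z‖ = 1 ∧ ‖z + x‖ = 1) := by
  have h1 := h.res (pow_three_res hn)
  have hxy : ‖x - y‖ ≤ 1 := by
    rw [sub_eq_add_neg]
    exact (Padic.nonarchimedean _ _).trans (max_le h.x1 (by rw [norm_neg]; exact h.y1))
  have hyz : ‖y - z‖ ≤ 1 := by
    rw [sub_eq_add_neg]
    exact (Padic.nonarchimedean _ _).trans (max_le h.y1 (by rw [norm_neg]; exact h.z1))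
  have hzx : ‖z - x‖ ≤ 1 := by
    rw [sub_eq_add_neg]
    exact (Padic.nonarchimedean _ _).trans (max_le h.z1 (by rw [norm_neg]; exact h.x1))
  have sxy : ‖x + y‖ ≤ 1 := (Padic.nonarchimedean _ _).trans (max_le h.x1 h.y1)
  have syz : ‖y + z‖ ≤ 1 := (Padic.nonarchimedean _ _).trans (max_le h.y1 h.z1)
  have szx : ‖z + x‖ ≤ 1 := (Padic.nonarchimedean _ _).trans (max_le h.z1 h.x1)
  by_cases hs : ‖x‖ < 1 ∨ ‖y‖ < 1 ∨ ‖z‖ < 1
  · exact Or.inl hs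
  right
  rw [← rs_eq_zero x h.x1, ← rs_eq_zero y h.y1, ← rs_eq_zero z h.z1] at hs
  have hd : ∀ X Y Z : ZMod 3, X + Y + Z = 0 → ¬ (X = 0 ∨ Y = 0 ∨ Z = 0) →
      X - Y = 0 ∧ Y - Z = 0 ∧ Z - X = 0 ∧ ¬ X + Y = 0 ∧ ¬ Y + Z = 0 ∧ ¬ Z + X = 0 := by decide
  obtain ⟨d1, d2, d3, d4, d5, d6⟩ := hd _ _ _ h1 hs
  rw [← rs_sub x y h.x1 h.y1 hxy, rs_eq_zero] at d1
  rw [← rs_sub y z h.y1 h.z1 hyz, rs_eq_zero] at d2
  rw [← rs_sub z x h.z1 h.x1 hzx, rs_eq_zero] at d3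
  rw [← rs_add x y h.x1 h.y1 sxy, rs_eq_zero] at d4
  rw [← rs_add y z h.y1 h.z1 syz, rs_eq_zero] at d5
  rw [← rs_add z x h.z1 h.x1 szx, rs_eq_zero] at d6
  exact ⟨d1, d2, d3, eq_one_of_not_lt sxy d4, eq_one_of_not_lt syz d5, eq_one_of_not_lt szx d6⟩

section

variable {p : ℕ} [Fact p.Prime] {E : Type} [Field E] [NumberField E]

/-- a normalized adelic point surviving the three coverings -/
structure Tri (p : ℕ) (E : Type) [Field E] [NumberField E]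
    (x y z : ∀ r : Nat.Primes, ℚ_[(r : ℕ)]) : Prop where
  z2 : ∃ (δ : E → E) (D : E), Dat p E x y z δ D
  x0 : ∃ (δ : E → E) (D : E), Dat p E y z x δ D
  y1 : ∃ (δ : E → E) (D : E), Dat p E z x y δ D

omit [Fact p.Prime] in
theorem Tri.rot {x y z : ∀ r : Nat.Primes, ℚ_[(r : ℕ)]} (h : Tri p E x y z) : Tri p E y z x :=
  ⟨h.x0, h.y1, h.z2⟩

/-- the criteria using only `p` -/
theorem Tri.first (h5 : 5 ≤ p) (c : Cyc p E) {x y z : ∀ r : Nat.Primes, ℚ_[(r : ℕ)]}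
    (h : Tri p E x y z) (hreg : p - 3 ∉ irr p ∨ ((irr p).card + 1) * ((irr p).card + 2) + 3 ≤ p) :
    ‖x ⟨p, Fact.out⟩‖ < 1 ∨ ‖y ⟨p, Fact.out⟩‖ < 1 ∨ ‖z ⟨p, Fact.out⟩‖ < 1 := by
  obtain ⟨δ, D, h2⟩ := h.z2
  obtain ⟨δ', D', h0⟩ := h.x0
  have hn := h2.nml ⟨p, Fact.out⟩
  by_contra hcon
  rw [not_or, not_or] at hcon
  have hx := eq_one_of_not_lt hn.x1 hcon.1
  have hy := eq_one_of_not_lt hn.y1 hcon.2.1
  have hz := eq_one_of_not_lt hn.z1 hcon.2.2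
  exact hn.not_all_eq h5 hx (h2.main_p h5 c hreg hz hx hy) (h0.main_p h5 c hreg hx hy hz)

/-- Furtwängler's criterion -/
theorem Tri.furt (h5 : 5 ≤ p) (c : Cyc p E) {x y z : ∀ r : Nat.Primes, ℚ_[(r : ℕ)]}
    (h : Tri p E x y z) (q : Nat.Primes) (hqp : (q : ℕ) ≠ p)
    (hW : ¬ p ^ 2 ∣ (q : ℕ) ^ (p - 1) - 1) (hx : ‖x q‖ < 1) : ‖x ⟨p, Fact.out⟩‖ < 1 := by
  have hpp : p.Prime := Fact.out
  obtain ⟨δ, D, h2⟩ := h.z2
  obtain ⟨δ', D', h1⟩ := h.y1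
  obtain ⟨_, _, k1, k2⟩ := (h2.nml q).small hpp.ne_zero hx
  have hn := h2.nml ⟨p, Fact.out⟩
  by_cases hz : ‖z ⟨p, Fact.out⟩‖ < 1
  · by_cases hy : ‖y ⟨p, Fact.out⟩‖ < 1
    · exact absurd ⟨hy, hz⟩ (hn.rot.not_two hpp.ne_zero)
    · exact (h1.main_q h5 c q hqp hW (eq_one_of_not_lt hn.y1 hy) k2).2.1 hx
  · exact (h2.main_q h5 c q hqp hW (eq_one_of_not_lt hn.z1 hz) k1).1 hx

/-- Mirimanoff's criterion -/
theorem Tri.three (h5 : 5 ≤ p) (c : Cyc p E) {x y z : ∀ r : Nat.Primes, ℚ_[(r : ℕ)]}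
    (h : Tri p E x y z) (q : Nat.Primes) (hq : (q : ℕ) = 3)
    (hW : ¬ p ^ 2 ∣ 3 ^ (p - 1) - 1) : ‖x q‖ < 1 ∨ ‖y q‖ < 1 ∨ ‖z q‖ < 1 := by
  have hpp : p.Prime := Fact.out
  obtain ⟨q, hqP⟩ := q
  simp only at hq
  subst hq
  obtain ⟨δ, D, h2⟩ := h.z2
  obtain ⟨δ', D', h0⟩ := h.x0
  obtain ⟨δ'', D'', h1⟩ := h.y1
  have hn := h2.nml ⟨p, Fact.out⟩
  rcases (h2.nml ⟨3, hqP⟩).three (hpp.odd_of_ne_two (by omega)) with h3 |
    ⟨d1, d2, d3, s1, s2, s3⟩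
  · exact h3
  exfalso
  have hqp : ((⟨3, hqP⟩ : Nat.Primes) : ℕ) ≠ p := by
    change 3 ≠ p
    omega
  have k2 := fun hz => (h2.main_q h5 c ⟨3, hqP⟩ hqp hW hz s1).2.2 d1
  have k0 := fun hx => (h0.main_q h5 c ⟨3, hqP⟩ hqp hW hx s2).2.2 d2
  have k1 := fun hy => (h1.main_q h5 c ⟨3, hqP⟩ hqp hW hy s3).2.2 d3
  by_cases hz : ‖z ⟨p, Fact.out⟩‖ < 1
  · obtain ⟨hx1, hy1, _, _⟩ := hn.rot.rot.small hpp.ne_zero hz
    have h6 := k0 hx1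
    rw [← norm_neg, neg_sub] at h6
    have := norm_lt_of_close _ _ h6 hz
    rw [hy1] at this
    exact lt_irrefl _ this
  have hz1 := eq_one_of_not_lt hn.z1 hz
  by_cases hx : ‖x ⟨p, Fact.out⟩‖ < 1
  · obtain ⟨hy1, _, _, _⟩ := hn.small hpp.ne_zero hx
    have := norm_lt_of_close _ _ (k2 hz1) hx
    rw [hy1] at this
    exact lt_irrefl _ this
  have hx1 := eq_one_of_not_lt hn.x1 hx
  have hyx := k2 hz1
  have hyz := k0 hx1
  exact hn.not_all_eq h5 hx1 hyx hyz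

/-- normalization -/
theorem exists_scale {r : ℕ} [Fact r.Prime] (u : Fin 3 → ℚ_[r]) (hu : u ≠ 0) :
    ∃ s : ℚ_[r], s ≠ 0 ∧ (∀ i, ‖s * u i‖ ≤ 1) ∧ ∃ i, ‖s * u i‖ = 1 := by
  obtain ⟨i, hi⟩ := Finite.exists_max (fun i => ‖u i‖)
  have h0 : u i ≠ 0 := by
    intro h
    apply hu
    ext j
    have := hi j
    rw [h, norm_zero] at this
    exact norm_le_zero_iff.1 this
  refine ⟨(u i)⁻¹, inv_ne_zero h0, fun j => ?_, i, ?_⟩
  · rw [norm_mul, norm_inv, inv_mul_le_one₀ (norm_pos_iff.2 h0)]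
    exact hi j
  · rw [inv_mul_cancel₀ h0, norm_one]

omit [Fact p.Prime] in
/-- the normalized coordinates of a surviving adelic point -/
theorem exists_tri {v : ∀ r : Nat.Primes, Fin 3 → ℚ_[(r : ℕ)]} (hv : IsAdelicPoint p v)
    (h : ∀ k, Survives p E v k) : ∃ s : ∀ r : Nat.Primes, ℚ_[(r : ℕ)], (∀ r, s r ≠ 0) ∧
      Tri p E (fun r => s r * v r 0) (fun r => s r * v r 1) (fun r => s r * v r 2) := by
  choose s hs0 hs1 hs2 using fun r => exists_scale (v r) (hv.ne r)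
  have hn : ∀ r : Nat.Primes, Nml p (s r * v r 0) (s r * v r 1) (s r * v r 2) := by
    intro r
    refine ⟨hs1 r 0, hs1 r 1, hs1 r 2, ?_, ?_⟩
    · obtain ⟨i, hi⟩ := hs2 r
      fin_cases i
      · exact Or.inl hi
      · exact Or.inr (Or.inl hi)
      · exact Or.inr (Or.inr hi)
    · rw [mul_pow, mul_pow, mul_pow, ← mul_add, ← mul_add, hv.eq r, mul_zero]
  refine ⟨s, hs0, ?_, ?_, ?_⟩
  · obtain ⟨δ, D, hT, hL⟩ := h 2
    exact ⟨δ, D, hT, hn, fun r => (hL r).scale (s r) (hs0 r)⟩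
  · obtain ⟨δ, D, hT, hL⟩ := h 0
    exact ⟨δ, D, hT, fun r => (hn r).rot, fun r => (hL r).scale (s r) (hs0 r)⟩
  · obtain ⟨δ, D, hT, hL⟩ := h 1
    exact ⟨δ, D, hT, fun r => (hn r).rot.rot, fun r => (hL r).scale (s r) (hs0 r)⟩

/-- The reduction modulo `r` of the point with homogeneous coordinates `u` is the reduction of the
rational point of the Fermat curve with the coordinates `0`, `1`, `-1` at `k`, `k + 1`, `k + 2`. -/
def Red {r : ℕ} [Fact r.Prime] (u : Fin 3 → ℚ_[r]) (k : Fin 3) : Prop :=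
  ‖u k‖ < ‖u (k + 1)‖ ∧ ‖u (k + 1) + u (k + 2)‖ < ‖u (k + 1)‖

theorem norm_scale_lt {r : ℕ} [Fact r.Prime] {s : ℚ_[r]} (hs : s ≠ 0) (a b : ℚ_[r]) :
    ‖s * a‖ < ‖s * b‖ ↔ ‖a‖ < ‖b‖ := by
  rw [norm_mul, norm_mul]
  exact mul_lt_mul_iff_right₀ (norm_pos_iff.2 hs)

theorem red_of_small {r : ℕ} [Fact r.Prime] {n : ℕ} (hn : n ≠ 0) {u : Fin 3 → ℚ_[r]} {s : ℚ_[r]}
    (hs : s ≠ 0) (h : Nml n (s * u 0) (s * u 1) (s * u 2))
    (hsum : ‖s * u 0 + s * u 1 + s * u 2‖ < 1) (k : Fin 3) (hk : ‖s * u k‖ < 1) : Red u k := by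
  have key : ∀ x y z : ℚ_[r], Nml n (s * x) (s * y) (s * z) →
      ‖s * x + s * y + s * z‖ < 1 → ‖s * x‖ < 1 → ‖x‖ < ‖y‖ ∧ ‖y + z‖ < ‖y‖ := by
    intro x y z h1 h2 h3
    obtain ⟨h4, h5, _, _⟩ := h1.small hn h3
    rw [← norm_scale_lt hs x y, ← norm_scale_lt hs (y + z) y, h4]
    refine ⟨h3, ?_⟩
    have e : s * (y + z) = (s * x + s * y + s * z) - s * x := by ring
    rw [e]
    exact norm_sub_lt _ _ h2 h3
  have e1 : s * u 1 + s * u 2 + s * u 0 = s * u 0 + s * u 1 + s * u 2 := by ring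
  have e2 : s * u 2 + s * u 0 + s * u 1 = s * u 0 + s * u 1 + s * u 2 := by ring
  fin_cases k
  · exact key (u 0) (u 1) (u 2) h hsum hk
  · exact key (u 1) (u 2) (u 0) h.rot (by rw [e1]; exact hsum) hk
  · exact key (u 2) (u 0) (u 1) h.rot.rot (by rw [e2]; exact hsum) hk

theorem small_of_lt {r : ℕ} [Fact r.Prime] {n : ℕ} {u : Fin 3 → ℚ_[r]} {s : ℚ_[r]}
    (hs : s ≠ 0) (h : Nml n (s * u 0) (s * u 1) (s * u 2)) (k : Fin 3)
    (hk : ‖u k‖ < ‖u (k + 1)‖) : ‖s * u k‖ < 1 := by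
  rw [← norm_scale_lt hs] at hk
  refine hk.trans_le ?_
  fin_cases k
  · exact h.y1
  · exact h.z1
  · exact h.x1

end

end Pool.Agent.K3h1.FC
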