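import Pool.Agent.K3h1.FC.Fer

/-!
# Project FC: global approximations of the equations at one place
-/

set_option autoImplicit false

namespace Pool.Agent.K3h1.FC

open NumberField IsDedekindDomain Polynomial Pool.Agent.Y546.WQ

open scoped TensorProduct

section

variable {p : ℕ} [Fact p.Prime] {E : Type} [Field E] [NumberField E] {r : ℕ} [Fact r.Prime]

/-- elements of `E` and integers which satisfy the equations at the place `P` approximately -/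
theorem glo (c : Cyc p E) (P : HeightOneSpectrum (𝓞 E)) (hP : ((r : ℕ) : 𝓞 E) ∈ P.asIdeal)
    (x y : ℚ_[r]) (hx : ‖x‖ ≤ 1) (hy : ‖y‖ ≤ 1) (C : (Loc r E)ˣ) (w : E → Loc r E) (δ : E → E)
    (S : Finset E) (hξ : ∀ ξ ∈ S, ∃ k : ℕ, ξ = c.z ^ k)
    (h : ∀ ξ ∈ S, (C : Loc r E) * (x ⊗ₜ[ℚ] (1 : E) + y ⊗ₜ[ℚ] ξ) =
      ((1 : ℚ_[r]) ⊗ₜ[ℚ] δ ξ) * w ξ ^ p) (N₀ : ℕ) :
    ∃ (C' : E) (w' : E → E) (X Y : ℤ), C' ≠ 0 ∧ ‖x - (X : ℚ_[r])‖ ≤ (r : ℝ) ^ (-(N₀ : ℤ)) ∧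
      ‖y - (Y : ℚ_[r])‖ ≤ (r : ℝ) ^ (-(N₀ : ℤ)) ∧
      ∀ ξ ∈ S, P.valuation E (C' * ((X : E) + ξ * (Y : E)) - δ ξ * w' ξ ^ p) ≤
        P.valuation E C' * P.valuation E ((r : ℕ) : E) ^ (N₀ : ℤ) := by
  have hpp : p.Prime := Fact.out
  have hr : r.Prime := Fact.out
  have hrR : (1 : ℝ) < (r : ℝ) := by exact_mod_cast hr.one_lt
  have hrR0 : (0 : ℝ) < (r : ℝ) := by linarith
  -- a common bound
  choose Bw hBw0 hBw using fun ξ => exists_Le c (w ξ)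
  choose Bδ hBδ0 hBδ using fun ξ => exists_Le c ((1 : ℚ_[r]) ⊗ₜ[ℚ] δ ξ)
  obtain ⟨BC, hBC0, hBC⟩ := exists_Le c (C : Loc r E)
  obtain ⟨BD, hBD0, hBD⟩ := exists_Le c ((C⁻¹ : (Loc r E)ˣ) : Loc r E)
  have hsw : 0 ≤ ∑ ξ ∈ S, Bw ξ := Finset.sum_nonneg fun ξ _ => (hBw0 ξ).le
  have hsδ : 0 ≤ ∑ ξ ∈ S, Bδ ξ := Finset.sum_nonneg fun ξ _ => (hBδ0 ξ).le
  obtain ⟨M, hM⟩ := pow_unbounded_of_one_lt (1 + ∑ ξ ∈ S, Bw ξ + ∑ ξ ∈ S, Bδ ξ + BC + BD) hrR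
  set B : ℝ := (r : ℝ) ^ M with hB
  have hB1 : 1 ≤ B := by linarith
  have hB0 : 0 ≤ B := by linarith
  have hw : ∀ ξ ∈ S, Le r c (w ξ) B := fun ξ hξS => (hBw ξ).mono (by
    have := Finset.single_le_sum (fun i _ => (hBw0 i).le) hξS
    linarith)
  have hδB : ∀ ξ ∈ S, Le r c ((1 : ℚ_[r]) ⊗ₜ[ℚ] δ ξ) B := fun ξ hξS => (hBδ ξ).mono (by
    have := Finset.single_le_sum (fun i _ => (hBδ0 i).le) hξS
    linarith)
  have hC : Le r c (C : Loc r E) B := hBC.mono (by linarith)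
  have hD : Le r c ((C⁻¹ : (Loc r E)ˣ) : Loc r E) B := hBD.mono (by linarith)
  -- the precision
  set N : ℕ := M * (p + 2) + 1 + N₀ with hN
  set ε : ℝ := (r : ℝ) ^ (-(N : ℤ)) with hε
  have hε0 : 0 < ε := zpow_pos hrR0 _
  have hε1 : ε ≤ 1 := by
    rw [hε]
    exact zpow_le_one_of_nonpos₀ hrR.le (by omega)
  have hεN : ε ≤ (r : ℝ) ^ (-(N₀ : ℤ)) := by
    rw [hε]
    apply zpow_le_zpow_right₀ hrR.le
    rw [hN]
    push_cast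
    have : 0 ≤ (M : ℤ) * (p + 2) := by positivity
    linarith
  obtain ⟨C', hC'⟩ := approx1 r c (C : Loc r E) ε hε0
  obtain ⟨D', hD'⟩ := approx1 r c ((C⁻¹ : (Loc r E)ˣ) : Loc r E) ε hε0
  choose w' hw' using fun ξ => approx1 r c (w ξ) ε hε0
  obtain ⟨X, hX⟩ := approxInt x hx ε hε0
  obtain ⟨Y, hY⟩ := approxInt y hy ε hε0
  have hC'B : Le r c ((1 : ℚ_[r]) ⊗ₜ[ℚ] C') B := by
    have e : ((1 : ℚ_[r]) ⊗ₜ[ℚ] C' : Loc r E) = C - (C - (1 : ℚ_[r]) ⊗ₜ[ℚ] C') := by ring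
    rw [e]
    exact hC.sub (hC'.mono (by linarith))
  have hD'B : Le r c ((1 : ℚ_[r]) ⊗ₜ[ℚ] D') B := by
    have e : ((1 : ℚ_[r]) ⊗ₜ[ℚ] D' : Loc r E) = ((C⁻¹ : (Loc r E)ˣ) : Loc r E) -
        (((C⁻¹ : (Loc r E)ˣ) : Loc r E) - (1 : ℚ_[r]) ⊗ₜ[ℚ] D') := by ring
    rw [e]
    exact hD.sub (hD'.mono (by linarith))
  -- the product of C' and D' is close to 1
  have h1 : Le r c ((1 : ℚ_[r]) ⊗ₜ[ℚ] (1 - C' * D')) (ε * B) := by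
    have e : ((1 : ℚ_[r]) ⊗ₜ[ℚ] (1 - C' * D') : Loc r E) =
        (C - (1 : ℚ_[r]) ⊗ₜ[ℚ] C') * ((C⁻¹ : (Loc r E)ˣ) : Loc r E) +
        (((C⁻¹ : (Loc r E)ˣ) : Loc r E) - (1 : ℚ_[r]) ⊗ₜ[ℚ] D') * ((1 : ℚ_[r]) ⊗ₜ[ℚ] C') := by
      rw [one_tmul_sub, one_tmul_mul, sub_mul, C.mul_inv]
      have e1 : ((1 : ℚ_[r]) ⊗ₜ[ℚ] (1 : E) : Loc r E) = 1 := rfl
      rw [e1]
      ring
    rw [e]
    exact (Le.mul hε0.le hB0 hC' hD).add (Le.mul hε0.le hB0 hD' hC'B)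
  have hεB : ε * B = (r : ℝ) ^ (-((N : ℤ) - M)) := by
    rw [hε, hB, ← zpow_natCast, ← zpow_add₀ hrR0.ne']
    congr 1
    ring
  have h2 : P.valuation E (C' * D') = 1 := by
    rw [hεB] at h1
    have := val_eq_of_close c P hP 1 (C' * D') ((N : ℤ) - M) 0 (by
      rw [hN]
      push_cast
      have : 0 ≤ (M : ℤ) * (p + 1) := by positivity
      nlinarith) h1 (by simp)
    rw [this, map_one]
  have h3 : P.valuation E D' ≤ P.valuation E ((r : ℕ) : E) ^ (-(M : ℤ)) := by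
    apply val_le c P hP
    rw [neg_neg, zpow_natCast]
    exact hD'B
  have h4 : P.valuation E ((r : ℕ) : E) ^ (M : ℤ) ≤ P.valuation E C' := by
    rw [map_mul] at h2
    have h5 : P.valuation E C' = (P.valuation E D')⁻¹ := eq_inv_of_mul_eq_one_left h2
    rw [h5]
    have h6 : P.valuation E D' ≠ 0 := by
      intro h7
      rw [h7, mul_zero] at h2
      exact zero_ne_one h2
    rw [zpow_neg] at h3
    rw [le_inv_comm₀ (zpow_pos (zero_lt_iff.2 (val_r_ne P)) _) (zero_lt_iff.2 h6)]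
    exact h3
  have hC'0 : C' ≠ 0 := by
    intro h7
    rw [h7, zero_mul, map_zero] at h2
    exact zero_ne_one h2
  refine ⟨C', w', X, Y, hC'0, hX.le.trans hεN, hY.le.trans hεN, fun ξ hξS => ?_⟩
  obtain ⟨k, hk⟩ := hξ ξ hξS
  -- the difference
  have hxy : Le r c ((x ⊗ₜ[ℚ] (1 : E) + y ⊗ₜ[ℚ] ξ) -
      (1 : ℚ_[r]) ⊗ₜ[ℚ] ((X : E) + ξ * (Y : E))) ε := by
    have e : (x ⊗ₜ[ℚ] (1 : E) + y ⊗ₜ[ℚ] ξ : Loc r E) -
        (1 : ℚ_[r]) ⊗ₜ[ℚ] ((X : E) + ξ * (Y : E)) =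
        (x - X) • ((1 : ℚ_[r]) ⊗ₜ[ℚ] (c.z ^ 0)) + (y - Y) • ((1 : ℚ_[r]) ⊗ₜ[ℚ] (c.z ^ k)) := by
      have e1 : ∀ (t : ℤ) (s : E), ((1 : ℚ_[r]) ⊗ₜ[ℚ] ((t : E) * s) : Loc r E) =
          (t : ℚ_[r]) ⊗ₜ[ℚ] s := by
        intro t s
        have e2 : (t : E) * s = (t : ℚ) • s := by rw [Algebra.smul_def]; simp
        rw [e2, ← TensorProduct.smul_tmul, Algebra.smul_def]
        simp
      rw [TensorProduct.smul_tmul', TensorProduct.smul_tmul', smul_eq_mul, smul_eq_mul, mul_one,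
        mul_one, pow_zero, ← hk, TensorProduct.sub_tmul, TensorProduct.sub_tmul,
        TensorProduct.tmul_add, mul_comm ξ, e1, ← mul_one (X : E), e1]
      ring
    rw [e]
    have h5 := Le.smul hX.le (Le_pow_z (r := r) c 0) hε0.le
    have h6 := Le.smul hY.le (Le_pow_z (r := r) c k) hε0.le
    rw [mul_one] at h5 h6
    exact h5.add h6
  have hXYB : Le r c ((1 : ℚ_[r]) ⊗ₜ[ℚ] ((X : E) + ξ * (Y : E))) 1 := by
    have e : ((1 : ℚ_[r]) ⊗ₜ[ℚ] ((X : E) + ξ * (Y : E)) : Loc r E) =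
        (x ⊗ₜ[ℚ] (1 : E) + y ⊗ₜ[ℚ] ξ) - ((x ⊗ₜ[ℚ] (1 : E) + y ⊗ₜ[ℚ] ξ) -
          (1 : ℚ_[r]) ⊗ₜ[ℚ] ((X : E) + ξ * (Y : E))) := by ring
    rw [e]
    refine Le.sub (Le.add ?_ ?_) (hxy.mono hε1)
    · have h5 := Le.smul hx (Le_pow_z (r := r) c 0) zero_le_one
      rw [TensorProduct.smul_tmul', smul_eq_mul, mul_one, mul_one, pow_zero] at h5
      exact h5
    · have h5 := Le.smul hy (Le_pow_z (r := r) c k) zero_le_one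
      rw [TensorProduct.smul_tmul', smul_eq_mul, mul_one, mul_one, ← hk] at h5
      exact h5
  have hw'B : Le r c ((1 : ℚ_[r]) ⊗ₜ[ℚ] w' ξ) B := by
    have e : ((1 : ℚ_[r]) ⊗ₜ[ℚ] w' ξ : Loc r E) = w ξ - (w ξ - (1 : ℚ_[r]) ⊗ₜ[ℚ] w' ξ) := by ring
    rw [e]
    exact (hw ξ hξS).sub ((hw' ξ).mono (by linarith))
  have h5 : Le r c ((1 : ℚ_[r]) ⊗ₜ[ℚ] (C' * ((X : E) + ξ * (Y : E)) - δ ξ * w' ξ ^ p))
      (ε * B ^ p) := by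
    have hBp : B ≤ B ^ p := le_self_pow₀ hB1 hpp.ne_zero
    have e : ((1 : ℚ_[r]) ⊗ₜ[ℚ] (C' * ((X : E) + ξ * (Y : E)) - δ ξ * w' ξ ^ p) : Loc r E) =
        ((1 : ℚ_[r]) ⊗ₜ[ℚ] δ ξ) * (w ξ ^ p - ((1 : ℚ_[r]) ⊗ₜ[ℚ] w' ξ) ^ p) -
        ((C - (1 : ℚ_[r]) ⊗ₜ[ℚ] C') * ((1 : ℚ_[r]) ⊗ₜ[ℚ] ((X : E) + ξ * (Y : E))) +
          C * ((x ⊗ₜ[ℚ] (1 : E) + y ⊗ₜ[ℚ] ξ) - (1 : ℚ_[r]) ⊗ₜ[ℚ] ((X : E) + ξ * (Y : E)))) := by
      rw [one_tmul_sub, one_tmul_mul, one_tmul_mul, one_tmul_pow]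
      linear_combination h ξ hξS
    rw [e]
    refine Le.sub ?_ (Le.add ?_ ?_)
    · have h6 := Le.mul hB0 (mul_nonneg hε0.le (pow_nonneg hB0 (p - 1))) (hδB ξ hξS)
        (Le.pow_sub hB0 hε0.le (hw ξ hξS) hw'B (hw' ξ) p)
      have e2 : B * (ε * B ^ (p - 1)) = ε * B ^ p := by
        have e3 : B ^ p = B ^ (p - 1) * B := by
          rw [← pow_succ, Nat.sub_add_cancel hpp.one_le]
        rw [e3]
        ring
      rwa [e2] at h6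
    · refine (Le.mul hε0.le zero_le_one hC' hXYB).mono ?_
      exact mul_le_mul_of_nonneg_left (hB1.trans hBp) hε0.le
    · refine (Le.mul hB0 hε0.le hC hxy).mono ?_
      rw [mul_comm]
      exact mul_le_mul_of_nonneg_left hBp hε0.le
  have hεBp : ε * B ^ p = (r : ℝ) ^ (-((N : ℤ) - M * p)) := by
    rw [hε, hB, ← pow_mul, ← zpow_natCast, ← zpow_add₀ hrR0.ne']
    congr 1
    push_cast
    ring
  rw [hεBp] at h5
  have h6 := val_le c P hP _ _ h5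
  have hr1 := val_r_lt P hP
  have hr0 := val_r_ne (r := r) P
  calc P.valuation E (C' * ((X : E) + ξ * (Y : E)) - δ ξ * w' ξ ^ p)
      ≤ P.valuation E ((r : ℕ) : E) ^ ((N : ℤ) - M * p) := h6
    _ ≤ P.valuation E ((r : ℕ) : E) ^ ((M : ℤ) + N₀) := by
        apply zpow_le_zpow_right_of_le_one₀ (zero_lt_iff.2 hr0) hr1.le
        rw [hN]
        push_cast
        have : (0 : ℤ) ≤ M := by positivity
        nlinarith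
    _ = P.valuation E ((r : ℕ) : E) ^ (M : ℤ) * P.valuation E ((r : ℕ) : E) ^ (N₀ : ℤ) :=
        zpow_add₀ hr0 _ _
    _ ≤ P.valuation E C' * P.valuation E ((r : ℕ) : E) ^ (N₀ : ℤ) := mul_le_mul_left h4 _

end

end Pool.Agent.K3h1.FC
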