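import Pool.Agent.K3h1.FC.Stm

/-!
# Project FC: the norm of `ℚ_r ⊗ E` in the basis of the powers of the root of unity
-/

set_option autoImplicit false

namespace Pool.Agent.K3h1.FC

open NumberField IsDedekindDomain Polynomial Pool.Agent.Y546.WQ

open scoped TensorProduct

section

variable {p : ℕ} [Fact p.Prime] {E : Type} [Field E] [NumberField E]

theorem cycl_minpoly (c : Cyc p E) : cyclotomic p ℚ = minpoly ℚ c.z :=
  cyclotomic_eq_minpoly_rat c.prim (Fact.out : p.Prime).pos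

theorem natDegree_minpoly (c : Cyc p E) : (minpoly ℚ c.z).natDegree = p - 1 := by
  rw [← cycl_minpoly c, natDegree_cyclotomic, Nat.totient_prime Fact.out]

/-- the basis `1, z, ..., z ^ (p - 2)` of `E` -/
noncomputable def bas (c : Cyc p E) : Module.Basis (Fin (p - 1)) ℚ E :=
  have h : LinearIndependent ℚ (fun i : Fin (p - 1) => c.z ^ (i : ℕ)) := by
    have h0 := linearIndependent_pow (K := ℚ) c.z
    rw [natDegree_minpoly c] at h0
    exact h0
  haveI : Nonempty (Fin (p - 1)) := ⟨⟨0, by have := (Fact.out : p.Prime).two_le; omega⟩⟩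
  basisOfLinearIndependentOfCardEqFinrank h (by rw [Fintype.card_fin, c.rank])

theorem bas_apply (c : Cyc p E) (i : Fin (p - 1)) : bas c i = c.z ^ (i : ℕ) := by
  unfold bas
  simp

/-- rational coordinates -/
noncomputable def rc (c : Cyc p E) (e : E) (i : Fin (p - 1)) : ℚ := (bas c).repr e i

theorem sum_rc (c : Cyc p E) (e : E) : ∑ i, (rc c e i : E) * c.z ^ (i : ℕ) = e := by
  conv_rhs => rw [← (bas c).sum_repr e]
  refine Finset.sum_congr rfl fun i _ => ?_
  rw [bas_apply, Algebra.smul_def]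
  rfl

variable (r : ℕ) [Fact r.Prime]

/-- the local basis -/
noncomputable def lbas (c : Cyc p E) : Module.Basis (Fin (p - 1)) ℚ_[r] (Loc r E) :=
  (bas c).baseChange ℚ_[r]

theorem lbas_apply (c : Cyc p E) (i : Fin (p - 1)) :
    lbas r c i = (1 : ℚ_[r]) ⊗ₜ[ℚ] (c.z ^ (i : ℕ)) := by
  unfold lbas
  rw [Module.Basis.baseChange_apply, bas_apply]

/-- local coordinates -/
noncomputable def lc (c : Cyc p E) (g : Loc r E) (i : Fin (p - 1)) : ℚ_[r] := (lbas r c).repr g i

theorem lc_tmul (c : Cyc p E) (x : ℚ_[r]) (e : E) (i : Fin (p - 1)) :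
    lc r c (x ⊗ₜ[ℚ] e) i = (rc c e i : ℚ_[r]) * x := by
  unfold lc lbas rc
  rw [Module.Basis.baseChange_repr_tmul, Algebra.smul_def]
  rfl

theorem sum_lc (c : Cyc p E) (g : Loc r E) :
    ∑ i, (lc r c g i) • ((1 : ℚ_[r]) ⊗ₜ[ℚ] (c.z ^ (i : ℕ))) = g := by
  conv_rhs => rw [← (lbas r c).sum_repr g]
  refine Finset.sum_congr rfl fun i _ => ?_
  rw [lbas_apply]
  rfl

theorem lc_add (c : Cyc p E) (g h : Loc r E) (i : Fin (p - 1)) :
    lc r c (g + h) i = lc r c g i + lc r c h i := by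
  unfold lc
  rw [map_add]
  rfl

theorem lc_sub (c : Cyc p E) (g h : Loc r E) (i : Fin (p - 1)) :
    lc r c (g - h) i = lc r c g i - lc r c h i := by
  unfold lc
  rw [map_sub]
  rfl

theorem lc_smul (c : Cyc p E) (x : ℚ_[r]) (g : Loc r E) (i : Fin (p - 1)) :
    lc r c (x • g) i = x * lc r c g i := by
  unfold lc
  rw [map_smul]
  rfl

theorem lc_sum {ι : Type} (c : Cyc p E) (s : Finset ι) (g : ι → Loc r E) (i : Fin (p - 1)) :
    lc r c (∑ j ∈ s, g j) i = ∑ j ∈ s, lc r c (g j) i := by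
  unfold lc
  rw [map_sum, Finsupp.finsetSum_apply]

/-- the norm is at most `B` -/
def Le (c : Cyc p E) (g : Loc r E) (B : ℝ) : Prop := ∀ i, ‖lc r c g i‖ ≤ B

variable {r}

theorem Le.mono {c : Cyc p E} {g : Loc r E} {B B' : ℝ} (h : Le r c g B) (hB : B ≤ B') :
    Le r c g B' := fun i => (h i).trans hB

theorem Le.add {c : Cyc p E} {g h : Loc r E} {B : ℝ} (hg : Le r c g B) (hh : Le r c h B) :
    Le r c (g + h) B := by
  intro i
  rw [lc_add]
  exact (Padic.nonarchimedean _ _).trans (max_le (hg i) (hh i))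

theorem Le.sub {c : Cyc p E} {g h : Loc r E} {B : ℝ} (hg : Le r c g B) (hh : Le r c h B) :
    Le r c (g - h) B := by
  intro i
  rw [lc_sub, sub_eq_add_neg]
  refine (Padic.nonarchimedean _ _).trans (max_le (hg i) ?_)
  rw [norm_neg]
  exact hh i

theorem Le.sum {ι : Type} {c : Cyc p E} {s : Finset ι} {g : ι → Loc r E} {B : ℝ} (hB : 0 ≤ B)
    (h : ∀ j ∈ s, Le r c (g j) B) : Le r c (∑ j ∈ s, g j) B := by
  classical
  induction s using Finset.induction_on with
  | empty =>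
    intro i
    simp [lc, hB]
  | insert j s hj ih =>
    rw [Finset.sum_insert hj]
    exact Le.add (h j (Finset.mem_insert_self _ _))
      (ih fun k hk => h k (Finset.mem_insert_of_mem hk))

theorem Le.smul {c : Cyc p E} {g : Loc r E} {B B' : ℝ} {x : ℚ_[r]} (hx : ‖x‖ ≤ B')
    (hg : Le r c g B) (hB' : 0 ≤ B') : Le r c (x • g) (B' * B) := by
  intro i
  rw [lc_smul, norm_mul]
  exact mul_le_mul hx (hg i) (norm_nonneg _) hB'

/-- every element has finite norm -/
theorem exists_Le (c : Cyc p E) (g : Loc r E) : ∃ B : ℝ, 0 < B ∧ Le r c g B := by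
  refine ⟨1 + ∑ i, ‖lc r c g i‖, ?_, fun i => ?_⟩
  · have : 0 ≤ ∑ i, ‖lc r c g i‖ := Finset.sum_nonneg fun i _ => norm_nonneg _
    linarith
  · have : ‖lc r c g i‖ ≤ ∑ i, ‖lc r c g i‖ :=
      Finset.single_le_sum (fun i _ => norm_nonneg _) (Finset.mem_univ i)
    linarith

/-- an integral polynomial in `z` has integral coordinates -/
theorem rc_aeval (c : Cyc p E) (F : Polynomial ℤ) :
    ∃ R : Polynomial ℤ, R.natDegree < p - 1 ∧ aeval c.z F = aeval c.z R ∧
      ∀ i, rc c (aeval c.z F) i = (R.coeff i : ℚ) := by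
  have hpp : p.Prime := Fact.out
  have h1 : (cyclotomic p ℤ).Monic := cyclotomic.monic p ℤ
  have hd : (cyclotomic p ℤ).natDegree = p - 1 := by
    rw [natDegree_cyclotomic, Nat.totient_prime hpp]
  have hne : cyclotomic p ℤ ≠ 1 := by
    intro h
    rw [h, natDegree_one] at hd
    have := hpp.two_le
    omega
  have hlt : (F %ₘ cyclotomic p ℤ).natDegree < p - 1 := by
    have := natDegree_modByMonic_lt F h1 hne
    rwa [hd] at this
  have hz : aeval c.z (cyclotomic p ℤ) = 0 := by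
    have h2 : aeval c.z (cyclotomic p ℚ) = 0 := by
      rw [cycl_minpoly c]
      exact minpoly.aeval ℚ c.z
    rw [← map_cyclotomic p (Int.castRingHom ℚ)] at h2
    rw [aeval_def, eval₂_map] at h2
    rw [aeval_def]
    have e : (algebraMap ℚ E).comp (Int.castRingHom ℚ) = algebraMap ℤ E := RingHom.ext_int _ _
    rwa [e] at h2
  have h3 : aeval c.z F = aeval c.z (F %ₘ cyclotomic p ℤ) := by
    conv_lhs => rw [← modByMonic_add_div F (cyclotomic p ℤ)]
    rw [map_add, map_mul, hz, zero_mul, add_zero]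
  refine ⟨F %ₘ cyclotomic p ℤ, hlt, h3, fun i => ?_⟩
  have h4 : aeval c.z (F %ₘ cyclotomic p ℤ) =
      ∑ j : Fin (p - 1), (((F %ₘ cyclotomic p ℤ).coeff j : ℤ) : ℚ) • bas c j := by
    rw [aeval_eq_sum_range' hlt, ← Fin.sum_univ_eq_sum_range
      (fun j => (F %ₘ cyclotomic p ℤ).coeff j • c.z ^ j)]
    refine Finset.sum_congr rfl fun j _ => ?_
    rw [bas_apply, Algebra.smul_def, Algebra.smul_def]
    simp
  unfold rc
  rw [h3, h4, map_sum, Finsupp.finsetSum_apply]
  simp only [map_smul, Module.Basis.repr_self, Finsupp.smul_apply, smul_eq_mul]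
  rw [Finset.sum_eq_single i]
  · simp
  · intro j _ hj
    rw [Finsupp.single_eq_of_ne' hj, mul_zero]
  · intro h
    exact absurd (Finset.mem_univ i) h

theorem Le_pow_z (c : Cyc p E) (k : ℕ) : Le r c ((1 : ℚ_[r]) ⊗ₜ[ℚ] (c.z ^ k)) 1 := by
  intro i
  rw [lc_tmul, mul_one]
  obtain ⟨R, _, _, hR⟩ := rc_aeval c (X ^ k)
  have h := hR i
  rw [map_pow, aeval_X] at h
  rw [h]
  push_cast
  exact Padic.norm_int_le_one _

theorem Le.mul {c : Cyc p E} {g h : Loc r E} {B B' : ℝ} (hB : 0 ≤ B) (hB' : 0 ≤ B')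
    (hg : Le r c g B) (hh : Le r c h B') : Le r c (g * h) (B * B') := by
  have e : g * h = ∑ i, ∑ j, (lc r c g i * lc r c h j) •
      ((1 : ℚ_[r]) ⊗ₜ[ℚ] (c.z ^ ((i : ℕ) + (j : ℕ)))) := by
    conv_lhs => rw [← sum_lc r c g, ← sum_lc r c h]
    rw [Finset.sum_mul_sum]
    refine Finset.sum_congr rfl fun i _ => Finset.sum_congr rfl fun j _ => ?_
    rw [smul_mul_smul_comm, Algebra.TensorProduct.tmul_mul_tmul, one_mul, pow_add]
  rw [e]
  have hBB : 0 ≤ B * B' := mul_nonneg hB hB'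
  refine Le.sum hBB fun i _ => Le.sum hBB fun j _ => ?_
  have h1 : ‖lc r c g i * lc r c h j‖ ≤ B * B' := by
    rw [norm_mul]
    exact mul_le_mul (hg i) (hh j) (norm_nonneg _) hB
  have h2 := Le.smul h1 (Le_pow_z (r := r) c ((i : ℕ) + (j : ℕ))) hBB
  rwa [mul_one] at h2

theorem Le_one (c : Cyc p E) : Le r c (1 : Loc r E) 1 := by
  have := Le_pow_z (r := r) c 0
  rwa [pow_zero] at this

theorem Le.pow {c : Cyc p E} {g : Loc r E} {B : ℝ} (hB : 0 ≤ B) (hg : Le r c g B) (n : ℕ) :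
    Le r c (g ^ n) (B ^ n) := by
  induction n with
  | zero =>
    rw [pow_zero, pow_zero]
    exact Le_one c
  | succ n ih =>
    rw [pow_succ, pow_succ]
    exact Le.mul (pow_nonneg hB n) hB ih hg

/-- the difference of `n`-th powers -/
theorem Le.pow_sub {c : Cyc p E} {g h : Loc r E} {B ε : ℝ} (hB : 0 ≤ B) (hε : 0 ≤ ε)
    (hg : Le r c g B) (hh : Le r c h B) (hd : Le r c (g - h) ε) (n : ℕ) :
    Le r c (g ^ n - h ^ n) (ε * B ^ (n - 1)) := by
  rw [← Commute.geom_sum₂_mul (Commute.all g h) n, mul_comm]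
  refine Le.mul hε (pow_nonneg hB _) hd (Le.sum (pow_nonneg hB _) fun i hi => ?_)
  have hi' : i < n := Finset.mem_range.1 hi
  have h1 := Le.mul (pow_nonneg hB i) (pow_nonneg hB (n - 1 - i)) (hg.pow hB i)
    (hh.pow hB (n - 1 - i))
  rwa [← pow_add, show i + (n - 1 - i) = n - 1 by omega] at h1

end

end Pool.Agent.K3h1.FC
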