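import Pool.Agent.K3h1.FC.Val

/-!
# Project FC: the valuations of the `δ ξ` are congruent modulo `p`
-/

set_option autoImplicit false

namespace Pool.Agent.K3h1.FC

open NumberField IsDedekindDomain Polynomial Pool.Agent.Y546.WQ

open scoped TensorProduct

theorem exists_prime_mem {E : Type} [Field E] [NumberField E] (P : HeightOneSpectrum (𝓞 E)) :
    ∃ r : ℕ, r.Prime ∧ ((r : ℕ) : 𝓞 E) ∈ P.asIdeal := by
  have hmem : ((Ideal.absNorm P.asIdeal : ℕ) : 𝓞 E) ∈ P.asIdeal := Ideal.absNorm_mem _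
  have hn0 : Ideal.absNorm P.asIdeal ≠ 0 := by
    rw [Ne, Ideal.absNorm_eq_zero_iff]
    exact P.ne_bot
  have hP := P.isPrime
  have h : ∀ n : ℕ, n ≠ 0 → ((n : ℕ) : 𝓞 E) ∈ P.asIdeal →
      ∃ r : ℕ, r.Prime ∧ ((r : ℕ) : 𝓞 E) ∈ P.asIdeal := by
    intro n
    induction n using Nat.recOnMul with
    | zero => intro h _; exact absurd rfl h
    | one =>
      intro _ h
      rw [Nat.cast_one] at h
      exact absurd h (one_notMem _ hP)
    | prime q hq => intro _ h; exact ⟨q, hq, h⟩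
    | mul a b iha ihb =>
      intro h0 h
      rw [Nat.cast_mul] at h
      rcases hP.mem_or_mem h with h1 | h1
      · exact iha (left_ne_zero_of_mul h0) h1
      · exact ihb (right_ne_zero_of_mul h0) h1
  exact h _ hn0 hmem

section

variable {p : ℕ} [Fact p.Prime] {E : Type} [Field E] [NumberField E] {r : ℕ} [Fact r.Prime]

theorem mem_mu (c : Cyc p E) (ξ : E) (h : ξ ∈ nthRootsFinset p (1 : E)) :
    ∃ k : ℕ, ξ = c.z ^ k := by
  have hpp : p.Prime := Fact.out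
  have : NeZero p := ⟨hpp.ne_zero⟩
  rw [mem_nthRootsFinset hpp.pos] at h
  obtain ⟨k, _, hk⟩ := c.prim.eq_pow_of_pow_eq_one h
  exact ⟨k, hk.symm⟩

theorem mu_int (c : Cyc p E) (ξ : E) (h : ξ ∈ nthRootsFinset p (1 : E)) :
    ∃ a : 𝓞 E, (a : E) = ξ ∧ a ^ p = 1 := by
  have hpp : p.Prime := Fact.out
  obtain ⟨k, hk⟩ := mem_mu c ξ h
  obtain ⟨w, hw, hw2⟩ := exists_zint c
  refine ⟨w ^ k, ?_, ?_⟩
  · rw [hk, ← hw]
    exact map_pow (algebraMap (𝓞 E) E) w k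
  · rw [← pow_mul, mul_comm, pow_mul, hw2.pow_eq_one, one_pow]

theorem exp_sum {ι : Type} (s : Finset ι) (f : ι → ℤ) :
    (WithZero.exp (∑ i ∈ s, f i) : WithZero (Multiplicative ℤ)) =
      ∏ i ∈ s, WithZero.exp (f i) := by
  classical
  induction s using Finset.induction_on with
  | empty => simp
  | insert j s hj ih => rw [Finset.sum_insert hj, Finset.prod_insert hj, WithZero.exp_add, ih]

theorem val_int_iff (P : HeightOneSpectrum (𝓞 E)) (a : 𝓞 E) :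
    P.valuation E (a : E) = 1 ↔ a ∉ P.asIdeal := by
  constructor
  · intro h h1
    have := (P.valuation_lt_one_iff_mem (K := E) a).2 h1
    exact absurd h this.ne
  · exact val_one P a

theorem not_dvd_of_norm (x : ℚ_[r]) (X : ℤ) (hx : ‖x‖ = 1) (h : ‖x - (X : ℚ_[r])‖ < 1) :
    ¬ (r : ℤ) ∣ X := by
  intro h1
  have h2 : ‖(X : ℚ_[r])‖ < 1 := Padic.norm_intCast_lt_one_iff.2 h1
  have h3 : x = (x - (X : ℚ_[r])) + (X : ℚ_[r]) := by ring
  have h4 : ‖x‖ < 1 := by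
    rw [h3]
    exact (Padic.nonarchimedean _ _).trans_lt (max_lt h h2)
  linarith

/-- `κ` is the common residue modulo `p` of the orders of the `δ ξ` at `P` -/
def Ords (p : ℕ) (P : HeightOneSpectrum (𝓞 E)) (δ : E → E) (κ : ℤ) : Prop :=
  ∀ ξ ∈ nthRootsFinset p (1 : E), ∃ m : ℤ, P.valuation E (δ ξ) = WithZero.exp (κ + (p : ℤ) * m)

theorem ord_of_all_but_one (P : HeightOneSpectrum (𝓞 E)) (c : Cyc p E) (δ : E → E) (D : E)
    (hT : IsTwist p E δ D) (κ : ℤ) (ξ₀ : E) (h₀ : ξ₀ ∈ nthRootsFinset p (1 : E))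
    (h : ∀ ξ ∈ nthRootsFinset p (1 : E), ξ ≠ ξ₀ →
      ∃ m : ℤ, P.valuation E (δ ξ) = WithZero.exp (κ + (p : ℤ) * m)) : Ords p P δ κ := by
  classical
  have hpp : p.Prime := Fact.out
  intro ξ hξ
  by_cases he : ξ ≠ ξ₀
  · exact h ξ hξ he
  rw [not_not] at he
  subst he
  choose! m hm using h
  obtain ⟨k, hk⟩ := mem_val_exp P (δ ξ) (hT.ne ξ hξ)
  have hD0 : D ≠ 0 := by
    intro hD
    have h1 := hT.prod
    rw [hD, zero_pow hpp.ne_zero, Finset.prod_eq_zero_iff] at h1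
    obtain ⟨η, hη, hη0⟩ := h1
    exact hT.ne η hη hη0
  obtain ⟨d, hd⟩ := mem_val_exp P D hD0
  have h1 := congrArg (P.valuation E) hT.prod
  rw [map_prod, map_pow, hd, ← Finset.mul_prod_erase _ _ hξ, hk] at h1
  have h2 : ∏ η ∈ (nthRootsFinset p (1 : E)).erase ξ, P.valuation E (δ η) =
      WithZero.exp (∑ η ∈ (nthRootsFinset p (1 : E)).erase ξ, (κ + (p : ℤ) * m η)) := by
    rw [exp_sum]
    refine Finset.prod_congr rfl fun η hη => ?_
    rw [Finset.mem_erase] at hη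
    exact hm η hη.2 hη.1
  rw [h2, ← WithZero.exp_add, ← WithZero.exp_nsmul, WithZero.exp_inj, Finset.sum_add_distrib,
    Finset.sum_const, Finset.card_erase_of_mem hξ, c.prim.card_nthRootsFinset,
    ← Finset.mul_sum] at h1
  refine ⟨d - κ - ∑ η ∈ (nthRootsFinset p (1 : E)).erase ξ, m η, ?_⟩
  rw [hk, WithZero.exp_inj]
  have h3 : ((p - 1 : ℕ) : ℤ) = (p : ℤ) - 1 := by
    rw [Nat.cast_sub hpp.one_le]
    rfl
  simp only [nsmul_eq_mul] at h1
  rw [h3] at h1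
  linarith

/-- the primes not above `p` -/
theorem ord_ne (hrp : r ≠ p) (c : Cyc p E) (P : HeightOneSpectrum (𝓞 E))
    (hP : ((r : ℕ) : 𝓞 E) ∈ P.asIdeal) (δ : E → E) (D : E) (hT : IsTwist p E δ D)
    (x y z : ℚ_[r]) (hx : ‖x‖ ≤ 1) (hy : ‖y‖ ≤ 1) (hxy : ‖x‖ = 1 ∨ ‖y‖ = 1)
    (h : Lifts p r E δ D x y z) : ∃ κ : ℤ, Ords p P δ κ := by
  have hpp : p.Prime := Fact.out
  have hr : r.Prime := Fact.out
  obtain ⟨C, w, hw, _⟩ := h
  obtain ⟨κ, X, Y, hX, hY, hκ⟩ := valp c P hP x y hx hy C w δ (nthRootsFinset p (1 : E))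
    (fun ξ hξ => mem_mu c ξ hξ) hw
  refine ⟨κ, ?_⟩
  have hXY : ¬ ((r : ℤ) ∣ X ∧ (r : ℤ) ∣ Y) := by
    rintro ⟨h1, h2⟩
    rcases hxy with h3 | h3
    · exact not_dvd_of_norm x X h3 hX h1
    · exact not_dvd_of_norm y Y h3 hY h2
  by_cases hall : ∀ ξ ∈ nthRootsFinset p (1 : E), P.valuation E ((X : E) + ξ * (Y : E)) = 1
  · exact fun ξ hξ => hκ ξ hξ (hall ξ hξ)
  push Not at hall
  obtain ⟨ξ₀, h₀, h₁⟩ := hall
  refine ord_of_all_but_one P c δ D hT κ ξ₀ h₀ fun ξ hξ hne => hκ ξ hξ ?_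
  by_contra hcon
  obtain ⟨a, ha, hap⟩ := mu_int c ξ hξ
  obtain ⟨b, hb, hbp⟩ := mu_int c ξ₀ h₀
  have e1 : ((((X : 𝓞 E) + a * (Y : 𝓞 E) : 𝓞 E)) : E) = (X : E) + ξ * (Y : E) := by
    rw [← ha]
    simp
  have e2 : ((((X : 𝓞 E) + b * (Y : 𝓞 E) : 𝓞 E)) : E) = (X : E) + ξ₀ * (Y : E) := by
    rw [← hb]
    simp
  rw [← e1, val_int_iff, not_not] at hcon
  rw [← e2] at h₁
  replace h₁ : (X : 𝓞 E) + b * (Y : 𝓞 E) ∈ P.asIdeal := by
    by_contra h2
    exact h₁ ((val_int_iff P _).2 h2)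
  have hIP := P.isPrime
  have h2 : (a - b) * (Y : 𝓞 E) ∈ P.asIdeal := by
    have := P.asIdeal.sub_mem hcon h₁
    have e : (X : 𝓞 E) + a * (Y : 𝓞 E) - ((X : 𝓞 E) + b * (Y : 𝓞 E)) = (a - b) * (Y : 𝓞 E) := by
      ring
    rwa [e] at this
  rcases hIP.mem_or_mem h2 with h3 | h3
  · -- then `P` is above `p`
    have hab : a ≠ b := by
      intro he
      apply hne
      rw [← ha, ← hb, he]
    have hη : (b * a ^ (p - 1)) ^ p = 1 := by
      rw [mul_pow, ← pow_mul, mul_comm (p - 1) p, pow_mul, hap, hbp, one_pow, one_mul]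
    have hη1 : b * a ^ (p - 1) ≠ 1 := by
      intro he
      apply hab
      have h4 : a ^ (p - 1) * a = 1 := by rw [← pow_succ, Nat.sub_add_cancel hpp.one_le, hap]
      calc a = b * a ^ (p - 1) * a := by rw [he, one_mul]
        _ = b * (a ^ (p - 1) * a) := by ring
        _ = b := by rw [h4, mul_one]
    have hprim : IsPrimitiveRoot (b * a ^ (p - 1)) p := by
      rw [IsPrimitiveRoot.iff_orderOf]
      exact orderOf_eq_prime hη hη1
    have h5 : 1 - b * a ^ (p - 1) ∈ P.asIdeal := by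
      have h6 : (1 : 𝓞 E) - b * a ^ (p - 1) = (a - b) * a ^ (p - 1) := by
        have h4 : a * a ^ (p - 1) = 1 := by rw [← pow_succ', Nat.sub_add_cancel hpp.one_le, hap]
        rw [sub_mul, h4]
      rw [h6]
      exact P.asIdeal.mul_mem_right _ h3
    have h6 := p_mem_of_one_sub_mem _ hprim P.asIdeal h5
    refine int_notMem P.asIdeal hIP p hpp h6 (r : ℤ) ?_ (by exact_mod_cast hP)
    intro h7
    have h8 : p ∣ r := by exact_mod_cast h7
    exact hrp ((Nat.prime_dvd_prime_iff_eq hpp hr).1 h8).symm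
  · have hYd : (r : ℤ) ∣ Y := by
      by_contra h4
      exact int_notMem P.asIdeal hIP r hr hP Y h4 h3
    have hXP : (X : 𝓞 E) ∈ P.asIdeal := by
      have e : (X : 𝓞 E) = ((X : 𝓞 E) + a * (Y : 𝓞 E)) - a * (Y : 𝓞 E) := by ring
      rw [e]
      exact P.asIdeal.sub_mem hcon (P.asIdeal.mul_mem_left _ h3)
    have hXd : (r : ℤ) ∣ X := by
      by_contra h4
      exact int_notMem P.asIdeal hIP r hr hP X h4 hXP
    exact hXY ⟨hXd, hYd⟩

/-- the prime above `p` -/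
theorem ord_eq (c : Cyc p E) (P : HeightOneSpectrum (𝓞 E))
    (hP : ((p : ℕ) : 𝓞 E) ∈ P.asIdeal) (δ : E → E) (D : E)
    (x y z : ℚ_[p]) (hx : ‖x‖ ≤ 1) (hy : ‖y‖ ≤ 1) (hxy : ‖x + y‖ = 1)
    (h : Lifts p p E δ D x y z) : ∃ κ : ℤ, Ords p P δ κ := by
  have hpp : p.Prime := Fact.out
  obtain ⟨C, w, hw, _⟩ := h
  obtain ⟨κ, X, Y, hX, hY, hκ⟩ := valp c P hP x y hx hy C w δ (nthRootsFinset p (1 : E))
    (fun ξ hξ => mem_mu c ξ hξ) hw
  refine ⟨κ, fun ξ hξ => hκ ξ hξ ?_⟩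
  have hXY : ¬ (p : ℤ) ∣ X + Y := by
    apply not_dvd_of_norm (x + y) (X + Y) hxy
    have e : x + y - ((X + Y : ℤ) : ℚ_[p]) = (x - (X : ℚ_[p])) + (y - (Y : ℚ_[p])) := by
      push_cast
      ring
    rw [e]
    exact (Padic.nonarchimedean _ _).trans_lt (max_lt hX hY)
  obtain ⟨a, ha, hap⟩ := mu_int c ξ hξ
  have e1 : ((((X : 𝓞 E) + a * (Y : 𝓞 E) : 𝓞 E)) : E) = (X : E) + ξ * (Y : E) := by
    rw [← ha]
    simp
  rw [← e1, val_int_iff]
  intro h1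
  apply int_notMem P.asIdeal P.isPrime p hpp hP (X + Y) hXY
  have e2 : ((X + Y : ℤ) : 𝓞 E) = ((X : 𝓞 E) + a * (Y : 𝓞 E)) + (Y : 𝓞 E) * (1 - a) := by
    push_cast
    ring
  rw [e2]
  exact P.asIdeal.add_mem h1
    (P.asIdeal.mul_mem_left _ (one_sub_mem a hap P.asIdeal P.isPrime hP))

end

end Pool.Agent.K3h1.FC
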