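import Pool.Agent.K3h1.FC.Glo
import Pool.Agent.Y158.KL.Hil7
import Pool.Agent.Y158.KL.Case2c

/-!
# Project FC: regular primes, the quotients of the `δ ξ` and of the values at a cusp are `p`-th
powers
-/

set_option autoImplicit false

namespace Pool.Agent.K3h1.FC

open NumberField IsDedekindDomain Polynomial Pool.Agent.Y546.WQ WithZero

open scoped TensorProduct

section

open Pool.Agent.Y158.KL (lam Kl KLem cm V V_cm V_unit V_om om pow_near ell_dvd_of exists_exp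
  exists_unit_mul_pow lam_pi lam_assoc lam_ell other_pi diff_assoc kummer_lemma)

section pow

variable {K : Type} [Field K] [NumberField K] {ℓ : ℕ}
  [hp : Fact ℓ.Prime] [hK : IsCyclotomicExtension {ℓ} ℚ K] {ζ : K} (hζ : IsPrimitiveRoot ζ ℓ)

include hζ in
/-- a number all of whose valuations outside `ℓ` are divisible by `ℓ` and which is congruent to an
`ℓ`-th power modulo `ℓ` is an `ℓ`-th power (copy of `Pool.Agent.Y158.FQ.glob_pow`) -/
theorem glob_pow' (hcop : (classNumber K).Coprime ℓ) (hKL : KLem ℓ K) {t u : K} (ht0 : t ≠ 0)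
    (hv : ∀ v : HeightOneSpectrum (𝓞 K), v ≠ lam hζ →
      ∃ m : ℤ, v.valuation K t = exp ((ℓ : ℤ) * m))
    (he : (lam hζ).valuation K (1 - t * u ^ ℓ) ≤ exp (-((ℓ - 1 : ℕ) : ℤ))) :
    ∃ k : K, t = k ^ ℓ := by
  have hℓ0 : ℓ ≠ 0 := hp.out.ne_zero
  have hℓ2 := hp.out.two_le
  obtain ⟨W, hW⟩ : ∃ W, W = cm hζ u := ⟨_, rfl⟩
  obtain ⟨ξ, hξd⟩ : ∃ ξ, ξ = cm hζ (1 - t * u ^ ℓ) := ⟨_, rfl⟩
  have h : cm hζ t * W ^ ℓ = 1 - ξ := by
    rw [hW, hξd, map_sub, map_mul, map_pow, map_one]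
    ring
  have hξ : V hζ ξ ≤ exp (-((ℓ - 1 : ℕ) : ℤ)) := by
    rw [hξd, V_cm]
    exact he
  have hξ1 : V hζ ξ < 1 := by
    refine lt_of_le_of_lt hξ ?_
    rw [← exp_zero, exp_lt_exp]
    omega
  have h1 : V hζ (1 - ξ) = 1 := (V hζ).map_one_sub_of_lt hξ1
  have hVt : V hζ (cm hζ t) * V hζ W ^ ℓ = 1 := by rw [← map_pow, ← map_mul, h, h1]
  have hW0 : W ≠ 0 := by
    intro h0
    rw [h0, map_zero, zero_pow hℓ0, mul_zero] at hVt
    exact zero_ne_one hVt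
  obtain ⟨u', k, hk, hu⟩ := exists_unit_mul_pow hp.out.pos hcop t ht0 (by
    intro v
    by_cases hvl : v = lam hζ
    · subst hvl
      refine ⟨(V hζ W)⁻¹, ?_⟩
      rw [← V_cm, inv_pow]
      exact eq_inv_of_mul_eq_one_left hVt
    · obtain ⟨m, hm⟩ := hv v hvl
      refine ⟨exp m, ?_⟩
      rw [hm, ← exp_nsmul]
      congr 1)
  have hk' : cm hζ k ≠ 0 := (_root_.map_ne_zero _).2 hk
  obtain ⟨w, hw⟩ : ∃ w, w = (cm hζ k * W)⁻¹ := ⟨_, rfl⟩
  have hw0 : w ≠ 0 := by rw [hw]; exact inv_ne_zero (mul_ne_zero hk' hW0)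
  have hou : om hζ u' = (1 - ξ) * w ^ ℓ := by
    have h2 : cm hζ t = om hζ u' * cm hζ k ^ ℓ := by rw [hu, map_mul, map_pow]; rfl
    rw [← h, h2, hw, inv_pow, mul_pow, mul_assoc (om hζ u')]
    exact (mul_inv_cancel_right₀ (mul_ne_zero (pow_ne_zero _ hk') (pow_ne_zero _ hW0)) _).symm
  have hVw : V hζ w = 1 := by
    have h2 : V hζ w ^ ℓ = 1 := by
      have h3 := congrArg (V hζ) hou
      rw [V_unit, map_mul, h1, one_mul, map_pow] at h3
      exact h3.symm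
    exact (pow_eq_one_iff_of_nonneg zero_le hℓ0).1 h2
  obtain ⟨n, hn⟩ := pow_near hζ (w := w) hVw.le
  obtain ⟨η, hη⟩ := hKL u' n (by
    apply ell_dvd_of hζ
    rw [← V_om, map_sub, map_intCast]
    have e : om hζ u' - n = (w ^ ℓ - n) - ξ * w ^ ℓ := by rw [hou]; ring
    rw [e]
    refine Valuation.map_sub_le _ hn ?_
    rw [map_mul, map_pow, hVw, one_pow, mul_one]
    exact hξ)
  refine ⟨algebraMap (𝓞 K) K η * k, ?_⟩
  rw [mul_pow, hu, hη, Units.val_pow_eq_pow_val, map_pow]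

end pow

variable {p : ℕ} [Fact p.Prime] {E : Type} [Field E] [NumberField E]
  [IsCyclotomicExtension {p} ℚ E]

theorem lam_p_mem (c : Cyc p E) : ((p : ℕ) : 𝓞 E) ∈ (lam c.prim).asIdeal := by
  have hpp : p.Prime := Fact.out
  have h := lam_ell c.prim
  have h2 : (lam c.prim).intValuation ((p : ℕ) : 𝓞 E) < 1 := by
    rw [h, ← exp_zero, exp_lt_exp]
    have := hpp.two_le
    omega
  exact ((lam c.prim).intValuation_lt_one_iff_mem _).1 h2

theorem lam_val_p (c : Cyc p E) :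
    (lam c.prim).valuation E ((p : ℕ) : E) = exp (-((p - 1 : ℕ) : ℤ)) := by
  have h := (lam c.prim).valuation_of_algebraMap (K := E) ((p : ℕ) : 𝓞 E)
  rw [lam_ell] at h
  rw [← h]
  congr 1

theorem val_diff_all (c : Cyc p E) (v : HeightOneSpectrum (𝓞 E)) {ξ η : E}
    (hξ : ξ ∈ nthRootsFinset p (1 : E)) (hη : η ∈ nthRootsFinset p (1 : E)) (hne : ξ ≠ η) :
    v.valuation E (ξ - η) = v.intValuation (c.prim.toInteger - 1) := by
  obtain ⟨i, hi⟩ := mem_mu c ξ hξ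
  obtain ⟨j, hj⟩ := mem_mu c η hη
  have hz : (c.prim.toInteger : E) = c.z := rfl
  have e : ((c.prim.toInteger ^ i - c.prim.toInteger ^ j : 𝓞 E) : E) = ξ - η := by
    rw [hi, hj]
    change algebraMap (𝓞 E) E (c.prim.toInteger ^ i - c.prim.toInteger ^ j) = _
    rw [map_sub, map_pow, map_pow]
    rfl
  have h1 : c.prim.toInteger ^ i ≠ c.prim.toInteger ^ j := by
    intro h2
    apply hne
    rw [← sub_eq_zero, ← e, h2, sub_self]
    exact map_zero (algebraMap (𝓞 E) E)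
  rw [← e, v.valuation_of_algebraMap]
  exact (lam_assoc (v := v) (diff_assoc c.prim h1)).symm

omit [IsCyclotomicExtension {p} ℚ E] in
theorem val_mu (_c : Cyc p E) (v : HeightOneSpectrum (𝓞 E)) {ξ : E}
    (hξ : ξ ∈ nthRootsFinset p (1 : E)) : v.valuation E ξ = 1 := by
  have hpp : p.Prime := Fact.out
  have h1 : ξ ^ p = 1 := (mem_nthRootsFinset hpp.pos _).1 hξ
  have h2 : v.valuation E ξ ^ p = 1 := by rw [← map_pow, h1, map_one]
  exact (pow_eq_one_iff_of_nonneg zero_le hpp.ne_zero).1 h2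

theorem ne_of_ne_lam (c : Cyc p E) (v : HeightOneSpectrum (𝓞 E)) (hv : v ≠ lam c.prim) (r : ℕ)
    (hr : ((r : ℕ) : 𝓞 E) ∈ v.asIdeal) : r ≠ p := by
  rintro rfl
  have h1 := other_pi c.prim hv
  have h3 : v.intValuation ((r : ℕ) : 𝓞 E) = 1 := by
    rw [← lam_assoc (v := v)
      (IsCyclotomicExtension.Rat.associated_zeta_sub_one_pow_prime r c.prim), map_pow, h1, one_pow]
  rw [HeightOneSpectrum.intValuation_eq_one_iff] at h3
  exact h3 hr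

omit [NumberField E] [IsCyclotomicExtension {p} ℚ E] [Fact p.Prime] in
/-- comparison of the quotients -/
theorem step (v : Valuation E (WithZero (Multiplicative ℤ))) (ρ : WithZero (Multiplicative ℤ))
    (hρ0 : ρ ≠ 0) (hρ1 : ρ < 1) {a a₀ b b₀ C F F₀ : E} (hC : C ≠ 0) (hb : v b ≤ 1) (hb0 : b ≠ 0)
    (hb₀ : v b₀ ≤ 1) (hF : v (C * a - F) ≤ v C * ρ ^ 5) (hF₀ : v (C * a₀ - F₀) ≤ v C * ρ ^ 5)
    (h1 : v (a₀ * b - a * b₀) ≤ ρ * (v a₀ * v b)) (h2 : ρ ^ 5 ≤ ρ * (v a₀ * v b)) :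
    F₀ ≠ 0 ∧ v (1 - F * b₀ / (F₀ * b)) ≤ ρ := by
  have hvC : v C ≠ 0 := (Valuation.ne_zero_iff _).2 hC
  have hva : v a₀ ≠ 0 := by
    intro h
    rw [h, zero_mul, mul_zero, le_zero_iff] at h2
    exact pow_ne_zero _ hρ0 h2
  have h3 : v (C * a₀ - F₀) < v (C * a₀) := by
    rw [map_mul]
    calc v (C * a₀ - F₀) ≤ v C * ρ ^ 5 := hF₀
      _ ≤ v C * (ρ * (v a₀ * v b)) := mul_le_mul_right h2 _
      _ ≤ v C * (ρ * (v a₀ * 1)) := by gcongr
      _ < v C * v a₀ := by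
        rw [mul_one]
        apply mul_lt_mul_of_pos_left _ (zero_lt_iff.2 hvC)
        calc ρ * v a₀ < 1 * v a₀ := mul_lt_mul_of_pos_right hρ1 (zero_lt_iff.2 hva)
          _ = v a₀ := one_mul _
  have h4 : v F₀ = v C * v a₀ := by
    have e : F₀ = C * a₀ - (C * a₀ - F₀) := by ring
    rw [e, Valuation.map_sub_eq_of_lt_left _ h3, map_mul]
  have hF00 : F₀ ≠ 0 := by
    intro h
    rw [h, map_zero] at h4
    exact mul_ne_zero hvC hva h4.symm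
  refine ⟨hF00, ?_⟩
  have e : 1 - F * b₀ / (F₀ * b) = (F₀ * b - F * b₀) / (F₀ * b) := by
    field_simp
  have hvb : v b ≠ 0 := (Valuation.ne_zero_iff _).2 hb0
  rw [e, map_div₀, map_mul, h4, div_le_iff₀ (zero_lt_iff.2 (mul_ne_zero (mul_ne_zero hvC hva) hvb))]
  have e2 : F₀ * b - F * b₀ = (C * a - F) * b₀ - (C * a₀ - F₀) * b + C * (a₀ * b - a * b₀) := by
    ring
  have hR : v C * ρ ^ 5 ≤ ρ * (v C * v a₀ * v b) := by
    calc v C * ρ ^ 5 ≤ v C * (ρ * (v a₀ * v b)) := mul_le_mul_right h2 _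
      _ = ρ * (v C * v a₀ * v b) := by rw [mul_left_comm, ← mul_assoc (v C)]
  rw [e2]
  refine Valuation.map_add_le _ (Valuation.map_sub_le _ ?_ ?_) ?_
  · rw [map_mul]
    calc v (C * a - F) * v b₀ ≤ v (C * a - F) * 1 := by gcongr
      _ ≤ _ := by rw [mul_one]; exact hF.trans hR
  · rw [map_mul]
    calc v (C * a₀ - F₀) * v b ≤ v (C * a₀ - F₀) * 1 := by gcongr
      _ ≤ _ := by rw [mul_one]; exact hF₀.trans hR
  · rw [map_mul]
    calc v C * v (a₀ * b - a * b₀) ≤ v C * (ρ * (v a₀ * v b)) := mul_le_mul_right h1 _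
      _ = _ := by rw [mul_left_comm, ← mul_assoc (v C)]

/-- the quotients of the `δ ξ` by the values `b ξ` at a cusp differ by `p`-th powers -/
theorem Dat.pow (hreg : (classNumber E).Coprime p) (h5 : 5 ≤ p) (c : Cyc p E)
    {x y z : ∀ r : Nat.Primes, ℚ_[(r : ℕ)]} {δ : E → E} {D : E} (h : Dat p E x y z δ D)
    (b : E → E) (T : Finset E) (hT : T ⊆ nthRootsFinset p (1 : E)) (hb0 : ∀ ξ ∈ T, b ξ ≠ 0)
    (hb1 : ∀ ξ ∈ T, ∀ v : HeightOneSpectrum (𝓞 E), v ≠ lam c.prim → v.valuation E (b ξ) = 1)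
    (hb2 : ∀ ξ ∈ T, (lam c.prim).valuation E (b ξ) ≤ 1)
    (hab : ∀ X Y : ℤ, ‖x ⟨p, Fact.out⟩ - (X : ℚ_[p])‖ ≤ (p : ℝ) ^ (-(5 : ℤ)) →
      ‖y ⟨p, Fact.out⟩ - (Y : ℚ_[p])‖ ≤ (p : ℝ) ^ (-(5 : ℤ)) → ∀ ξ ∈ T, ∀ η ∈ T,
      (lam c.prim).valuation E (((X : E) + η * (Y : E)) * b ξ - ((X : E) + ξ * (Y : E)) * b η) ≤
        (lam c.prim).valuation E ((p : ℕ) : E) *
          ((lam c.prim).valuation E ((X : E) + η * (Y : E)) * (lam c.prim).valuation E (b ξ)) ∧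
      (lam c.prim).valuation E ((p : ℕ) : E) ^ 5 ≤ (lam c.prim).valuation E ((p : ℕ) : E) *
          ((lam c.prim).valuation E ((X : E) + η * (Y : E)) * (lam c.prim).valuation E (b ξ))) :
    ∀ ξ ∈ T, ∀ η ∈ T, ∃ k : E, δ ξ * b η / (δ η * b ξ) = k ^ p := by
  have hpp : p.Prime := Fact.out
  intro ξ hξ η hη
  have hδξ := h.twist.ne ξ (hT hξ)
  have hδη := h.twist.ne η (hT hη)
  have hL := lam_p_mem c
  have hn := h.nml ⟨p, hpp⟩
  obtain ⟨C, w, hw, _⟩ := h.lifts ⟨p, hpp⟩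
  obtain ⟨C', w', X, Y, hC', hX, hY, hG⟩ := glo c (lam c.prim) hL _ _ hn.x1 hn.y1 C w δ T
    (fun ξ hξ => mem_mu c ξ (hT hξ)) (fun ξ hξ => hw ξ (hT hξ)) 5
  have hG1 := hG ξ hξ
  have hG2 := hG η hη
  rw [zpow_natCast] at hG1 hG2
  obtain ⟨k1, k2⟩ := hab X Y hX hY ξ hξ η hη
  have hρ0 : (lam c.prim).valuation E ((p : ℕ) : E) ≠ 0 := val_r_ne _
  have hρ1 : (lam c.prim).valuation E ((p : ℕ) : E) < 1 := val_r_lt _ hL
  obtain ⟨s1, s2⟩ := step ((lam c.prim).valuation E) _ hρ0 hρ1 hC' (hb2 ξ hξ) (hb0 ξ hξ) (hb2 η hη)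
    hG1 hG2 k1 k2
  have hw'η : w' η ≠ 0 := by
    intro h0
    apply s1
    rw [h0, zero_pow hpp.ne_zero, mul_zero]
  refine glob_pow' c.prim hreg (kummer_lemma c.prim (by omega) hreg) (u := w' ξ / w' η)
    (div_ne_zero (mul_ne_zero hδξ (hb0 η hη)) (mul_ne_zero hδη (hb0 ξ hξ))) ?_ ?_
  · intro v hv
    obtain ⟨r, hr, hrv⟩ := exists_prime_mem v
    have hrp := ne_of_ne_lam c v hv r hrv
    have : Fact r.Prime := ⟨hr⟩
    have hnr := h.nml ⟨r, hr⟩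
    obtain ⟨κ, hκ⟩ := ord_ne hrp c v hrv δ D h.twist _ _ _ hnr.x1 hnr.y1 (by
      by_contra hcon
      rw [not_or] at hcon
      exact hnr.not_two hpp.ne_zero
        ⟨lt_of_le_of_ne hnr.x1 hcon.1, lt_of_le_of_ne hnr.y1 hcon.2⟩) (h.lifts ⟨r, hr⟩)
    obtain ⟨m₁, h₁⟩ := hκ ξ (hT hξ)
    obtain ⟨m₂, h₂⟩ := hκ η (hT hη)
    refine ⟨m₁ - m₂, ?_⟩
    rw [map_div₀, map_mul, map_mul, hb1 ξ hξ v hv, hb1 η hη v hv, mul_one, mul_one, h₁, h₂,
      ← WithZero.exp_sub]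
    congr 1
    ring
  · rw [← lam_val_p c]
    have e : δ ξ * b η / (δ η * b ξ) * (w' ξ / w' η) ^ p =
        δ ξ * w' ξ ^ p * b η / (δ η * w' η ^ p * b ξ) := by
      rw [div_pow]
      field_simp
    rw [e]
    exact s2

end

end Pool.Agent.K3h1.FC
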