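import Pool.Agent.K3h1.FC.Reg

/-!
# Project FC: regular primes, an adelic point lies on the twist of the cusp near its `p`-component
-/

set_option autoImplicit false

namespace Pool.Agent.K3h1.FC

open NumberField IsDedekindDomain Polynomial Pool.Agent.Y546.WQ WithZero

open scoped TensorProduct

section

variable {p : ℕ} [Fact p.Prime] {E : Type} [Field E] [NumberField E]

omit [Fact p.Prime] in
/-- lifts of rational points from equations over `E` -/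
theorem lifts_rat {δ : E → E} {D : E} (a b e : ℚ) (κ : E) (hκ : κ ≠ 0) (w : E → E)
    (h1 : ∀ ξ ∈ nthRootsFinset p (1 : E), κ * ((a : E) + (b : E) * ξ) = δ ξ * w ξ ^ p)
    (h2 : κ * (-(e : E)) = D * ∏ ξ ∈ nthRootsFinset p (1 : E), w ξ) (r : ℕ) [Fact r.Prime] :
    Lifts p r E δ D (a : ℚ_[r]) (b : ℚ_[r]) (e : ℚ_[r]) := by
  have hu : ((1 : ℚ_[r]) ⊗ₜ[ℚ] κ : Loc r E) * ((1 : ℚ_[r]) ⊗ₜ[ℚ] κ⁻¹) = 1 := by
    rw [← one_tmul_mul, mul_inv_cancel₀ hκ]
    rfl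
  have e1 : ∀ (t : ℚ) (s : E), ((t : ℚ_[r]) ⊗ₜ[ℚ] s : Loc r E) = (1 : ℚ_[r]) ⊗ₜ[ℚ] ((t : E) * s) := by
    intro t s
    have e2 : (t : E) * s = t • s := by rw [Algebra.smul_def]; rfl
    rw [e2, ← TensorProduct.smul_tmul, Algebra.smul_def]
    simp
  have hprod : ∀ T : Finset E, ((1 : ℚ_[r]) ⊗ₜ[ℚ] (∏ ξ ∈ T, w ξ) : Loc r E) =
      ∏ ξ ∈ T, ((1 : ℚ_[r]) ⊗ₜ[ℚ] w ξ : Loc r E) := by
    classical
    intro T
    induction T using Finset.induction_on with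
    | empty => rfl
    | insert j s hj ih => rw [Finset.prod_insert hj, Finset.prod_insert hj, one_tmul_mul, ih]
  refine ⟨⟨(1 : ℚ_[r]) ⊗ₜ[ℚ] κ, (1 : ℚ_[r]) ⊗ₜ[ℚ] κ⁻¹, hu, by rw [mul_comm]; exact hu⟩,
    fun ξ => (1 : ℚ_[r]) ⊗ₜ[ℚ] w ξ, fun ξ hξ => ?_, ?_⟩
  · change ((1 : ℚ_[r]) ⊗ₜ[ℚ] κ : Loc r E) * _ = _
    rw [e1, e1, ← TensorProduct.tmul_add, ← one_tmul_mul, ← one_tmul_pow, ← one_tmul_mul,
      ← h1 ξ hξ, mul_one]
  · change ((1 : ℚ_[r]) ⊗ₜ[ℚ] κ : Loc r E) * _ = _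
    have e3 : ((-(e : ℚ_[r])) ⊗ₜ[ℚ] (1 : E) : Loc r E) = (1 : ℚ_[r]) ⊗ₜ[ℚ] (-(e : E)) := by
      have := e1 (-e) 1
      push_cast at this
      rw [this, mul_one]
    rw [e3, ← one_tmul_mul, ← hprod, ← one_tmul_mul, h2]

open Pool.Agent.Y158.KL (lam lam_pi)

theorem prod_mu (hp2 : p ≠ 2) (c : Cyc p E) : ∏ ξ ∈ nthRootsFinset p (1 : E), ξ = 1 := by
  have hpp : p.Prime := Fact.out
  have h := c.prim.pow_add_pow_eq_prod_add_mul (0 : E) 1 (hpp.odd_of_ne_two hp2)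
  rw [zero_pow hpp.ne_zero, one_pow, zero_add] at h
  refine (Finset.prod_congr rfl fun ξ _ => ?_).trans h.symm
  ring

/-- the twist when all quotients are `p`-th powers -/
theorem exists_roots (c : Cyc p E) {δ : E → E} {D : E} (hT : IsTwist p E δ D) (b : E → E)
    (hb0 : ∀ ξ ∈ nthRootsFinset p (1 : E), b ξ ≠ 0)
    (hb : ∏ ξ ∈ nthRootsFinset p (1 : E), b ξ = 1)
    (h : ∀ ξ ∈ nthRootsFinset p (1 : E), ∀ η ∈ nthRootsFinset p (1 : E), ∃ k : E,
      δ ξ * b η / (δ η * b ξ) = k ^ p) :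
    ∃ (κ : E) (k : E → E), κ ≠ 0 ∧ (∀ ξ ∈ nthRootsFinset p (1 : E), k ξ ≠ 0 ∧
      δ ξ = κ * b ξ * k ξ ^ p) ∧ D = κ * ∏ ξ ∈ nthRootsFinset p (1 : E), k ξ := by
  classical
  have hpp : p.Prime := Fact.out
  have h1 : (1 : E) ∈ nthRootsFinset p (1 : E) := by
    rw [mem_nthRootsFinset hpp.pos]
    exact one_pow p
  choose! k hk using fun ξ hξ => h ξ hξ 1 h1
  have hκ : δ 1 / b 1 ≠ 0 := div_ne_zero (hT.ne 1 h1) (hb0 1 h1)
  have hk0 : ∀ ξ ∈ nthRootsFinset p (1 : E), k ξ ≠ 0 := by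
    intro ξ hξ h0
    have h2 := hk ξ hξ
    rw [h0, zero_pow hpp.ne_zero] at h2
    exact div_ne_zero (mul_ne_zero (hT.ne ξ hξ) (hb0 1 h1))
      (mul_ne_zero (hT.ne 1 h1) (hb0 ξ hξ)) h2
  have hδ : ∀ ξ ∈ nthRootsFinset p (1 : E), δ ξ = δ 1 / b 1 * b ξ * k ξ ^ p := by
    intro ξ hξ
    rw [← hk ξ hξ]
    have := hT.ne 1 h1
    have := hb0 1 h1
    have := hb0 ξ hξ
    field_simp
  -- the product
  have hD := hT.prod
  rw [Finset.prod_congr rfl hδ, Finset.prod_mul_distrib, Finset.prod_mul_distrib, hb,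
    Finset.prod_const, c.prim.card_nthRootsFinset, Finset.prod_pow, mul_one, ← mul_pow] at hD
  set Q := δ 1 / b 1 * ∏ ξ ∈ nthRootsFinset p (1 : E), k ξ with hQ
  have hQ0 : Q ≠ 0 := mul_ne_zero hκ (Finset.prod_ne_zero_iff.2 hk0)
  set ω := D / Q with hω
  have hωp : ω ^ p = 1 := by
    rw [hω, div_pow, ← hD, div_self (pow_ne_zero _ hQ0)]
  have hω0 : ω ≠ 0 := by
    intro h0
    rw [h0, zero_pow hpp.ne_zero] at hωp
    exact zero_ne_one hωp
  refine ⟨δ 1 / b 1, fun ξ => if ξ = 1 then ω * k 1 else k ξ, hκ, fun ξ hξ => ?_, ?_⟩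
  · by_cases hξ1 : ξ = 1
    · simp only [hξ1, if_true]
      refine ⟨mul_ne_zero hω0 (hk0 1 h1), ?_⟩
      rw [mul_pow, hωp, one_mul]
      exact hδ 1 h1
    · simp only [if_neg hξ1]
      exact ⟨hk0 ξ hξ, hδ ξ hξ⟩
  · have e1 : ∏ ξ ∈ nthRootsFinset p (1 : E), (if ξ = 1 then ω * k 1 else k ξ) =
        ω * ∏ ξ ∈ nthRootsFinset p (1 : E), k ξ := by
      rw [← Finset.mul_prod_erase _ _ h1, ← Finset.mul_prod_erase _ k h1, if_pos rfl, mul_assoc]
      congr 2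
      refine Finset.prod_congr rfl fun ξ hξ => ?_
      rw [if_neg (Finset.mem_erase.1 hξ).1]
    rw [e1]
    calc D = ω * Q := by rw [hω, div_mul_cancel₀ _ hQ0]
      _ = _ := by rw [hQ]; ring

variable [IsCyclotomicExtension {p} ℚ E]

/-- the valuation of a rational integer -/
theorem val_int_eq_one (c : Cyc p E) (X : ℤ) (hX : ¬ (p : ℤ) ∣ X) :
    (lam c.prim).valuation E ((X : ℤ) : E) = 1 := by
  have := val_one (lam c.prim) ((X : ℤ) : 𝓞 E)
    (int_notMem _ (lam c.prim).isPrime p Fact.out (lam_p_mem c) X hX)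
  simpa using this

theorem val_int_le (c : Cyc p E) (X : ℤ) (n : ℕ) (hX : (p : ℤ) ^ n ∣ X) :
    (lam c.prim).valuation E ((X : ℤ) : E) ≤ (lam c.prim).valuation E ((p : ℕ) : E) ^ n := by
  obtain ⟨Y, rfl⟩ := hX
  have e : (((p : ℤ) ^ n * Y : ℤ) : E) = ((p : ℕ) : E) ^ n * ((Y : ℤ) : E) := by
    push_cast
    rfl
  have h : (lam c.prim).valuation E ((Y : ℤ) : E) ≤ 1 := by
    have := (lam c.prim).valuation_le_one (K := E) ((Y : ℤ) : 𝓞 E)
    simpa using this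
  rw [e, map_mul, map_pow]
  exact mul_le_of_le_one_right' h

theorem val_diff_le (c : Cyc p E) {ξ η : E}
    (hξ : ξ ∈ nthRootsFinset p (1 : E)) (hη : η ∈ nthRootsFinset p (1 : E)) :
    (lam c.prim).valuation E (ξ - η) ≤ 1 := by
  refine Valuation.map_sub_le _ (val_mu c _ hξ).le (val_mu c _ hη).le

theorem val_lin_one (c : Cyc p E) (X Y : ℤ) {ξ : E} (hξ : ξ ∈ nthRootsFinset p (1 : E))
    (hXY : ((p : ℤ) ∣ X ∧ ¬ (p : ℤ) ∣ Y) ∨ (¬ (p : ℤ) ∣ X ∧ (p : ℤ) ∣ Y)) :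
    (lam c.prim).valuation E ((X : E) + ξ * (Y : E)) = 1 := by
  have hρ1 := val_r_lt (r := p) _ (lam_p_mem c)
  rcases hXY with ⟨h1, h2⟩ | ⟨h1, h2⟩
  · have e1 := val_int_le c X 1 (by simpa using h1)
    rw [pow_one] at e1
    have e2 : (lam c.prim).valuation E (ξ * (Y : E)) = 1 := by
      rw [map_mul, val_mu c _ hξ, val_int_eq_one c Y h2, one_mul]
    rw [Valuation.map_add_eq_of_lt_right _ (by rw [e2]; exact e1.trans_lt hρ1), e2]
  · have e1 := val_int_le c Y 1 (by simpa using h2)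
    rw [pow_one] at e1
    have e2 : (lam c.prim).valuation E (ξ * (Y : E)) < 1 := by
      rw [map_mul, val_mu c _ hξ, one_mul]
      exact e1.trans_lt hρ1
    have e3 := val_int_eq_one c X h1
    rw [Valuation.map_add_eq_of_lt_left _ (by rw [e3]; exact e2), e3]

omit [IsCyclotomicExtension {p} ℚ E] [NumberField E] in
theorem close_dvd {x : ℚ_[p]} {X : ℤ} (h : ‖x - (X : ℚ_[p])‖ ≤ (p : ℝ) ^ (-(5 : ℤ))) :
    (‖x‖ < 1 ↔ (p : ℤ) ∣ X) := by
  have hpp : p.Prime := Fact.out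
  have hp1 : (1 : ℝ) < p := by exact_mod_cast hpp.one_lt
  have h1 : ‖x - (X : ℚ_[p])‖ < 1 := h.trans_lt (zpow_lt_one_of_neg₀ hp1 (by norm_num))
  rw [norm_lt_iff_of_close _ _ h1, Padic.norm_intCast_lt_one_iff]

/-- the cusp with first coordinate zero -/
theorem Dat.cusp_x (hreg : (classNumber E).Coprime p) (h5 : 5 ≤ p) (c : Cyc p E)
    {x y z : ∀ r : Nat.Primes, ℚ_[(r : ℕ)]} {δ : E → E} {D : E} (h : Dat p E x y z δ D)
    (hx : ‖x ⟨p, Fact.out⟩‖ < 1) (r : ℕ) [Fact r.Prime] :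
    Lifts p r E δ D ((0 : ℚ) : ℚ_[r]) ((1 : ℚ) : ℚ_[r]) ((-1 : ℚ) : ℚ_[r]) := by
  have hpp : p.Prime := Fact.out
  have hρ1 := val_r_lt (r := p) _ (lam_p_mem c)
  obtain ⟨hy, _, _, _⟩ := (h.nml ⟨p, hpp⟩).small hpp.ne_zero hx
  have hpow := h.pow hreg h5 c (fun ξ => ξ) (nthRootsFinset p (1 : E)) subset_rfl
    (fun ξ hξ h0 => by
      have := val_mu c (lam c.prim) hξ
      rw [h0, map_zero] at this
      exact zero_ne_one this)
    (fun ξ hξ v _ => val_mu c v hξ) (fun ξ hξ => (val_mu c _ hξ).le)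
    (fun X Y hX hY ξ hξ η hη => by
      have d1 : (p : ℤ) ∣ X := (close_dvd hX).1 hx
      have d2 : ¬ (p : ℤ) ∣ Y := fun h' => by
        have := (close_dvd hY).2 h'
        rw [hy] at this
        exact lt_irrefl _ this
      rw [val_lin_one c X Y hη (Or.inl ⟨d1, d2⟩), val_mu c _ hξ, mul_one, mul_one]
      refine ⟨?_, ?_⟩
      · have e : ((X : E) + η * (Y : E)) * ξ - ((X : E) + ξ * (Y : E)) * η =
            (X : E) * (ξ - η) := by ring
        rw [e, map_mul]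
        have e1 := val_int_le c X 1 (by simpa using d1)
        rw [pow_one] at e1
        exact (mul_le_of_le_one_right' (val_diff_le c hξ hη)).trans e1
      · exact pow_le_of_le_one zero_le hρ1.le (n := 5) (by norm_num))
  obtain ⟨κ, k, hκ, hk, hD⟩ := exists_roots c h.twist (fun ξ => ξ) (fun ξ hξ h0 => by
      have := val_mu c (lam c.prim) hξ
      rw [h0, map_zero] at this
      exact zero_ne_one this) (prod_mu (by omega) c) hpow
  refine lifts_rat 0 1 (-1) κ hκ (fun ξ => (k ξ)⁻¹) (fun ξ hξ => ?_) ?_ r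
  · obtain ⟨k1, k2⟩ := hk ξ hξ
    have hk' : k ξ ^ p * (k ξ)⁻¹ ^ p = 1 := by rw [← mul_pow, mul_inv_cancel₀ k1, one_pow]
    rw [k2]
    push_cast
    linear_combination (-(κ * ξ)) * hk'
  · have hne : ∏ ξ ∈ nthRootsFinset p (1 : E), k ξ ≠ 0 :=
      Finset.prod_ne_zero_iff.2 fun ξ hξ => (hk ξ hξ).1
    rw [Finset.prod_inv_distrib, hD, mul_assoc, mul_inv_cancel₀ hne]
    push_cast
    ring

/-- the cusp with second coordinate zero -/
theorem Dat.cusp_y (hreg : (classNumber E).Coprime p) (h5 : 5 ≤ p) (c : Cyc p E)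
    {x y z : ∀ r : Nat.Primes, ℚ_[(r : ℕ)]} {δ : E → E} {D : E} (h : Dat p E x y z δ D)
    (hy : ‖y ⟨p, Fact.out⟩‖ < 1) (r : ℕ) [Fact r.Prime] :
    Lifts p r E δ D ((-1 : ℚ) : ℚ_[r]) ((0 : ℚ) : ℚ_[r]) ((1 : ℚ) : ℚ_[r]) := by
  have hpp : p.Prime := Fact.out
  have hodd : Odd p := hpp.odd_of_ne_two (by omega)
  have hρ1 := val_r_lt (r := p) _ (lam_p_mem c)
  obtain ⟨_, hx, _, _⟩ := (h.nml ⟨p, hpp⟩).rot.small hpp.ne_zero hy
  have hpow := h.pow hreg h5 c (fun _ => 1) (nthRootsFinset p (1 : E)) subset_rfl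
    (fun ξ hξ => one_ne_zero) (fun ξ hξ v _ => map_one _) (fun ξ hξ => (map_one _).le)
    (fun X Y hX hY ξ hξ η hη => by
      have d2 : (p : ℤ) ∣ Y := (close_dvd hY).1 hy
      have d1 : ¬ (p : ℤ) ∣ X := fun h' => by
        have := (close_dvd hX).2 h'
        rw [hx] at this
        exact lt_irrefl _ this
      simp only [map_one, mul_one]
      rw [val_lin_one c X Y hη (Or.inr ⟨d1, d2⟩), mul_one]
      refine ⟨?_, ?_⟩
      · have e : ((X : E) + η * (Y : E)) - ((X : E) + ξ * (Y : E)) =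
            (Y : E) * (η - ξ) := by ring
        rw [e, map_mul]
        have e1 := val_int_le c Y 1 (by simpa using d2)
        rw [pow_one] at e1
        exact (mul_le_of_le_one_right' (val_diff_le c hη hξ)).trans e1
      · exact pow_le_of_le_one zero_le hρ1.le (n := 5) (by norm_num))
  obtain ⟨κ, k, hκ, hk, hD⟩ := exists_roots c h.twist (fun _ => 1) (fun ξ hξ => one_ne_zero)
    (by simp) hpow
  refine lifts_rat (-1) 0 1 κ hκ (fun ξ => -(k ξ)⁻¹) (fun ξ hξ => ?_) ?_ r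
  · obtain ⟨k1, k2⟩ := hk ξ hξ
    have hk' : k ξ ^ p * (k ξ)⁻¹ ^ p = 1 := by rw [← mul_pow, mul_inv_cancel₀ k1, one_pow]
    rw [k2, hodd.neg_pow]
    push_cast
    linear_combination κ * hk'
  · have hne : ∏ ξ ∈ nthRootsFinset p (1 : E), k ξ ≠ 0 :=
      Finset.prod_ne_zero_iff.2 fun ξ hξ => (hk ξ hξ).1
    rw [Finset.prod_neg, c.prim.card_nthRootsFinset, hodd.neg_one_pow, Finset.prod_inv_distrib, hD]
    push_cast
    field_simp

/-- the sum of the first two coordinates near the third cusp -/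
theorem sum_dvd (h5 : 5 ≤ p) {x y z : ℚ_[p]} (h : Nml p x y z) (hz : ‖z‖ < 1) (X Y : ℤ)
    (hX : ‖x - (X : ℚ_[p])‖ ≤ (p : ℝ) ^ (-(5 : ℤ))) (hY : ‖y - (Y : ℚ_[p])‖ ≤ (p : ℝ) ^ (-(5 : ℤ))) :
    (p : ℤ) ^ 4 ∣ X + Y ∧ ¬ (p : ℤ) ∣ X ∧ ¬ (p : ℤ) ∣ Y := by
  have hpp : p.Prime := Fact.out
  have hodd : Odd p := hpp.odd_of_ne_two (by omega)
  have hp1 : (1 : ℝ) < p := by exact_mod_cast hpp.one_lt
  have hp0 : (0 : ℝ) < p := by linarith
  obtain ⟨hx1, hy1, _, _⟩ := h.rot.rot.small hpp.ne_zero hz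
  have d1 : ¬ (p : ℤ) ∣ X := fun h' => by
    have := (close_dvd hX).2 h'
    rw [hx1] at this
    exact lt_irrefl _ this
  have d2 : ¬ (p : ℤ) ∣ Y := fun h' => by
    have := (close_dvd hY).2 h'
    rw [hy1] at this
    exact lt_irrefl _ this
  refine ⟨?_, d1, d2⟩
  -- powers
  have hpow : ∀ (t : ℚ_[p]) (T : ℤ), ‖t‖ ≤ 1 → ‖t - (T : ℚ_[p])‖ ≤ (p : ℝ) ^ (-(5 : ℤ)) →
      ‖t ^ p - (T : ℚ_[p]) ^ p‖ ≤ (p : ℝ) ^ (-(5 : ℤ)) := by
    intro t T ht hT
    rw [← Commute.geom_sum₂_mul (Commute.all t (T : ℚ_[p])) p, norm_mul]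
    have h1 : ‖∑ i ∈ Finset.range p, t ^ i * (T : ℚ_[p]) ^ (p - 1 - i)‖ ≤ 1 := by
      apply IsUltrametricDist.norm_sum_le_of_forall_le_of_nonneg zero_le_one
      intro i _
      rw [norm_mul, norm_pow, norm_pow]
      exact mul_le_one₀ (pow_le_one₀ (norm_nonneg _) ht) (by positivity)
        (pow_le_one₀ (norm_nonneg _) (Padic.norm_int_le_one T))
    calc _ ≤ 1 * ‖t - (T : ℚ_[p])‖ := mul_le_mul_of_nonneg_right h1 (norm_nonneg _)
      _ ≤ _ := by rw [one_mul]; exact hT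
  have hzp : ‖z ^ p‖ ≤ (p : ℝ) ^ (-(5 : ℤ)) := by
    rw [norm_pow]
    have h1 : ‖z‖ ≤ (p : ℝ) ^ (-(1 : ℤ)) := by
      have := (Padic.norm_le_pow_iff_norm_lt_pow_add_one z (-1)).2 (by simpa using hz)
      exact this
    calc ‖z‖ ^ p ≤ ((p : ℝ) ^ (-(1 : ℤ))) ^ p := pow_le_pow_left₀ (norm_nonneg _) h1 p
      _ ≤ ((p : ℝ) ^ (-(1 : ℤ))) ^ 5 := by
        apply pow_le_pow_of_le_one (by positivity) _ h5
        exact zpow_le_one_of_nonpos₀ hp1.le (by norm_num)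
      _ = (p : ℝ) ^ (-(5 : ℤ)) := by
        rw [← zpow_natCast, ← zpow_mul]
        norm_num
  have h5' : (p : ℤ) ^ 5 ∣ X ^ p + Y ^ p := by
    rw [← Padic.norm_int_le_pow_iff_dvd (p := p)]
    have e : ((X ^ p + Y ^ p : ℤ) : ℚ_[p]) = -(z ^ p) - ((x ^ p - (X : ℚ_[p]) ^ p) +
        (y ^ p - (Y : ℚ_[p]) ^ p)) := by
      push_cast
      linear_combination h.eq
    rw [e, sub_eq_add_neg]
    refine (Padic.nonarchimedean _ _).trans (max_le ?_ ?_)
    · rw [norm_neg]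
      exact_mod_cast hzp
    · rw [norm_neg]
      refine (Padic.nonarchimedean _ _).trans (max_le ?_ ?_)
      · exact_mod_cast hpow x X h.x1 hX
      · exact_mod_cast hpow y Y h.y1 hY
  have hsum : (p : ℤ) ∣ X + Y := by
    have h1 : ((X + Y : ℤ) : ZMod p) = 0 := by
      have h2 : ((X ^ p + Y ^ p : ℤ) : ZMod p) = 0 := by
        rw [ZMod.intCast_zmod_eq_zero_iff_dvd]
        exact (dvd_pow_self _ (by norm_num)).trans h5'
      push_cast at h2 ⊢
      rwa [ZMod.pow_card, ZMod.pow_card] at h2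
    exact (ZMod.intCast_zmod_eq_zero_iff_dvd _ _).1 h1
  have hlte := Int.emultiplicity_pow_add_pow hpp hodd hsum d1 hodd
  have hm : emultiplicity p p = 1 := by
    have h1 : FiniteMultiplicity p p := Nat.finiteMultiplicity_iff.2 ⟨hpp.ne_one, hpp.pos⟩
    rw [h1.emultiplicity_eq_multiplicity, Nat.cast_eq_one]
    exact multiplicity_self
  rw [hm] at hlte
  rw [pow_dvd_iff_le_emultiplicity] at h5' ⊢
  rw [hlte] at h5'
  have h6 : ((4 : ℕ) : ℕ∞) + 1 ≤ emultiplicity (p : ℤ) (X + Y) + 1 := by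
    have e : ((4 : ℕ) : ℕ∞) + 1 = ((5 : ℕ) : ℕ∞) := by norm_num
    rw [e]
    exact h5'
  exact (ENat.add_le_add_iff_right (by norm_num)).1 h6

/-- the cusp with third coordinate zero -/
theorem Dat.cusp_z (hreg : (classNumber E).Coprime p) (h5 : 5 ≤ p) (c : Cyc p E)
    {x y z : ∀ r : Nat.Primes, ℚ_[(r : ℕ)]} {δ : E → E} {D : E} (h : Dat p E x y z δ D)
    (hz : ‖z ⟨p, Fact.out⟩‖ < 1) (r : ℕ) [Fact r.Prime] :
    Lifts p r E δ D ((1 : ℚ) : ℚ_[r]) ((-1 : ℚ) : ℚ_[r]) ((0 : ℚ) : ℚ_[r]) := by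
  classical
  have hpp : p.Prime := Fact.out
  have hρ1 := val_r_lt (r := p) _ (lam_p_mem c)
  have h1 : (1 : E) ∈ nthRootsFinset p (1 : E) := by
    rw [mem_nthRootsFinset hpp.pos]
    exact one_pow p
  have hzm : c.z ∈ nthRootsFinset p (1 : E) := by
    rw [mem_nthRootsFinset hpp.pos]
    exact c.prim.pow_eq_one
  have hz1 : c.z ≠ 1 := c.prim.ne_one hpp.one_lt
  have hlam : ∀ ξ ∈ (nthRootsFinset p (1 : E)).erase 1,
      (lam c.prim).valuation E (1 - ξ) = exp (-1) := by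
    intro ξ hξ
    rw [Finset.mem_erase] at hξ
    rw [val_diff_all c _ h1 hξ.2 hξ.1.symm]
    exact lam_pi c.prim
  have hρ : (lam c.prim).valuation E ((p : ℕ) : E) = exp (-((p - 1 : ℕ) : ℤ)) := lam_val_p c
  have hρ2 : (lam c.prim).valuation E ((p : ℕ) : E) ^ 3 ≤ exp (-1) * exp (-1) := by
    rw [hρ, ← exp_nsmul, ← exp_add, exp_le_exp]
    simp only [nsmul_eq_mul]
    have : ((p - 1 : ℕ) : ℤ) = (p : ℤ) - 1 := by
      rw [Nat.cast_sub hpp.one_le]
      rfl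
    rw [this]
    push_cast
    omega
  have hpow := h.pow hreg h5 c (fun ξ => 1 - ξ) ((nthRootsFinset p (1 : E)).erase 1)
    (Finset.erase_subset _ _)
    (fun ξ hξ h0 => (Finset.mem_erase.1 hξ).1 (sub_eq_zero.1 h0).symm)
    (fun ξ hξ v hv => by
      rw [Finset.mem_erase] at hξ
      rw [val_diff_all c _ h1 hξ.2 hξ.1.symm]
      exact Pool.Agent.Y158.KL.other_pi c.prim hv)
    (fun ξ hξ => by
      rw [hlam ξ hξ, ← exp_zero, exp_le_exp]
      norm_num)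
    (fun X Y hX hY ξ hξ η hη => by
      obtain ⟨d0, d1, d2⟩ := sum_dvd h5 (h.nml ⟨p, hpp⟩) hz X Y hX hY
      have hXY := val_int_le c (X + Y) 4 d0
      have hη' := (Finset.mem_erase.1 hη).2
      have hξ' := (Finset.mem_erase.1 hξ).2
      have hρ3 : (lam c.prim).valuation E ((p : ℕ) : E) ^ 4 < exp (-1) := by
        rw [hρ, ← exp_nsmul, exp_lt_exp]
        simp only [nsmul_eq_mul]
        have : ((p - 1 : ℕ) : ℤ) = (p : ℤ) - 1 := by
          rw [Nat.cast_sub hpp.one_le]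
          rfl
        rw [this]
        push_cast
        omega
      have hva : (lam c.prim).valuation E ((X : E) + η * (Y : E)) = exp (-1) := by
        have e : (X : E) + η * (Y : E) = ((X + Y : ℤ) : E) - (1 - η) * (Y : E) := by
          push_cast
          ring
        have e1 : (lam c.prim).valuation E ((1 - η) * (Y : E)) = exp (-1) := by
          rw [map_mul, hlam η hη, val_int_eq_one c Y d2, mul_one]
        rw [e, Valuation.map_sub_eq_of_lt_right _ (by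
          rw [e1]
          exact hXY.trans_lt hρ3), e1]
      rw [hva, hlam ξ hξ]
      have key : (lam c.prim).valuation E ((p : ℕ) : E) ^ 4 ≤
          (lam c.prim).valuation E ((p : ℕ) : E) * (exp (-1) * exp (-1)) := by
        rw [pow_succ']
        exact mul_le_mul_right hρ2 _
      refine ⟨?_, ?_⟩
      · have e : ((X : E) + η * (Y : E)) * (1 - ξ) - ((X : E) + ξ * (Y : E)) * (1 - η) =
            ((X + Y : ℤ) : E) * (η - ξ) := by
          push_cast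
          ring
        rw [e, map_mul]
        exact (mul_le_of_le_one_right' (val_diff_le c hη' hξ')).trans (hXY.trans key)
      · refine le_trans ?_ key
        exact pow_le_pow_of_le_one zero_le hρ1.le (by norm_num))
  -- the twist
  have hzT : c.z ∈ (nthRootsFinset p (1 : E)).erase 1 := Finset.mem_erase.2 ⟨hz1, hzm⟩
  choose! k hk using fun ξ hξ => hpow ξ hξ c.z hzT
  have hbz : (1 : E) - c.z ≠ 0 := fun h0 => hz1 (sub_eq_zero.1 h0).symm
  have hκ : δ c.z / (1 - c.z) ≠ 0 := div_ne_zero (h.twist.ne _ hzm) hbz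
  refine lifts_rat 1 (-1) 0 (δ c.z / (1 - c.z)) hκ (fun ξ => if ξ = 1 then 0 else (k ξ)⁻¹)
    (fun ξ hξ => ?_) ?_ r
  · by_cases hξ1 : ξ = 1
    · subst hξ1
      simp only [if_true, zero_pow hpp.ne_zero, mul_zero]
      push_cast
      ring
    · simp only [if_neg hξ1]
      have hξT : ξ ∈ (nthRootsFinset p (1 : E)).erase 1 := Finset.mem_erase.2 ⟨hξ1, hξ⟩
      have hbξ : (1 : E) - ξ ≠ 0 := fun h0 => hξ1 (sub_eq_zero.1 h0).symm
      rw [inv_pow, ← hk ξ hξT]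
      have := h.twist.ne ξ hξ
      have := h.twist.ne c.z hzm
      push_cast
      field_simp
      ring
  · rw [Finset.prod_eq_zero h1 (by simp)]
    push_cast
    ring

end

end Pool.Agent.K3h1.FC
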