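import Pool.Agent.K3h1.FC.Reg2
import Pool.Agent.K3h1.FC.Fin
import Pool.Agent.Y158.KL.Glob1

/-!
# Project FC: regular primes, the first case
-/

set_option autoImplicit false

namespace Pool.Agent.K3h1.FC

open NumberField IsDedekindDomain Polynomial Pool.Agent.Y546.WQ WithZero

open scoped TensorProduct

section

open Pool.Agent.Y158.KL (lam Kl cm V V_cm V_unit V_om om pow_near exists_unit_mul_pow lam_dvd glob1
  pi_dvd_int lam_pi)

variable {p : ℕ} [Fact p.Prime] {E : Type} [Field E] [NumberField E]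
  [IsCyclotomicExtension {p} ℚ E]

/-- If no coordinate is divisible by `p`, the first two are congruent. -/
theorem Dat.kummer (hreg : (classNumber E).Coprime p) (h5 : 5 ≤ p) (c : Cyc p E)
    {x y z : ∀ r : Nat.Primes, ℚ_[(r : ℕ)]} {δ : E → E} {D : E} (h : Dat p E x y z δ D)
    (hx : ‖x ⟨p, Fact.out⟩‖ = 1) (hy : ‖y ⟨p, Fact.out⟩‖ = 1) (hz : ‖z ⟨p, Fact.out⟩‖ = 1) :
    ‖x ⟨p, Fact.out⟩ - y ⟨p, Fact.out⟩‖ < 1 := by
  have hpp : p.Prime := Fact.out
  have hp1 : (1 : ℝ) < p := by exact_mod_cast hpp.one_lt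
  have hsmall : (p : ℝ) ^ (-(5 : ℤ)) < 1 := zpow_lt_one_of_neg₀ hp1 (by norm_num)
  have hL := lam_p_mem c
  have hn := h.nml ⟨p, hpp⟩
  have hsum := hn.sum_unit hz
  obtain ⟨C, w, hw, _⟩ := h.lifts ⟨p, hpp⟩
  obtain ⟨C', w', X, Y, hC', hX, hY, hG⟩ := glo c (lam c.prim) hL _ _ hn.x1 hn.y1 C w δ
    (nthRootsFinset p (1 : E)) (fun ξ hξ => mem_mu c ξ hξ) hw 5
  have hX1 := hX.trans_lt hsmall
  have hY1 := hY.trans_lt hsmall
  have dX : ¬ (p : ℤ) ∣ X := not_dvd_of_norm _ X hx hX1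
  have dY : ¬ (p : ℤ) ∣ Y := not_dvd_of_norm _ Y hy hY1
  have dXY : ¬ (p : ℤ) ∣ X + Y := by
    apply not_dvd_of_norm _ (X + Y) hsum
    have e : x ⟨p, hpp⟩ + y ⟨p, hpp⟩ - ((X + Y : ℤ) : ℚ_[p]) =
        (x ⟨p, hpp⟩ - X) + (y ⟨p, hpp⟩ - Y) := by
      push_cast
      ring
    rw [e]
    exact norm_add_lt _ _ hX1 hY1
  have hρ0 : (lam c.prim).valuation E ((p : ℕ) : E) ≠ 0 := val_r_ne _
  have hρ1 : (lam c.prim).valuation E ((p : ℕ) : E) < 1 := val_r_lt _ hL
  set v := (lam c.prim).valuation E with hv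
  have h1mem : (1 : E) ∈ nthRootsFinset p (1 : E) := one_mem_nthRootsFinset hpp.pos
  have hlin : ∀ ξ ∈ nthRootsFinset p (1 : E), v ((X : E) + ξ * (Y : E)) = 1 := by
    intro ξ hξ
    have e : (X : E) + ξ * (Y : E) = ((X + Y : ℤ) : E) + (ξ - 1) * (Y : E) := by
      push_cast
      ring
    have e1 : v (ξ - 1) < 1 := by
      by_cases h1 : ξ = 1
      · rw [h1, sub_self, map_zero]
        exact zero_lt_one
      · rw [hv, val_diff_all c _ hξ h1mem h1, lam_pi, ← exp_zero, exp_lt_exp]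
        norm_num
    have e2 : v ((ξ - 1) * (Y : E)) < 1 := by
      rw [map_mul, hv, val_int_eq_one c Y dY, mul_one]
      exact e1
    have e3 : v ((X + Y : ℤ) : E) = 1 := val_int_eq_one c _ dXY
    rw [e, Valuation.map_add_eq_of_lt_left _ (by rw [e3]; exact e2), e3]
  have hvC : v C' ≠ 0 := (Valuation.ne_zero_iff _).2 hC'
  have hF : ∀ ξ ∈ nthRootsFinset p (1 : E), v (δ ξ * w' ξ ^ p) = v C' := by
    intro ξ hξ
    have h1 := hG ξ hξ
    have h2 : v (C' * ((X : E) + ξ * (Y : E))) = v C' := by rw [map_mul, hlin ξ hξ, mul_one]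
    have h3 : v (C' * ((X : E) + ξ * (Y : E)) - δ ξ * w' ξ ^ p) < v (C' * ((X : E) + ξ * (Y : E))) := by
      rw [h2]
      refine lt_of_le_of_lt h1 ?_
      calc v C' * ((lam c.prim).valuation E ((p : ℕ) : E)) ^ ((5 : ℕ) : ℤ) < v C' * 1 := by
            apply mul_lt_mul_of_pos_left _ (zero_lt_iff.2 hvC)
            rw [zpow_natCast]
            exact pow_lt_one₀ zero_le hρ1 (by norm_num)
        _ = v C' := mul_one _
    have e : δ ξ * w' ξ ^ p = C' * ((X : E) + ξ * (Y : E)) -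
        (C' * ((X : E) + ξ * (Y : E)) - δ ξ * w' ξ ^ p) := by ring
    rw [e, Valuation.map_sub_eq_of_lt_left _ h3, h2]
  have hw0 : ∀ ξ ∈ nthRootsFinset p (1 : E), w' ξ ≠ 0 := by
    intro ξ hξ h0
    have h1 := hF ξ hξ
    rw [h0, zero_pow hpp.ne_zero, mul_zero, map_zero] at h1
    exact hvC h1.symm
  have hδ1 := h.twist.ne 1 h1mem
  -- an integer congruent to X / Y
  obtain ⟨m, hm⟩ : ∃ m : ℤ, (p : ℤ) ∣ X - m * Y := by
    have hcop : IsCoprime (p : ℤ) Y :=
      (Prime.coprime_iff_not_dvd (Nat.prime_iff_prime_int.1 hpp)).2 dY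
    obtain ⟨a, b, hab⟩ := hcop
    refine ⟨X * b, ⟨X * a, ?_⟩⟩
    linear_combination (-X) * hab
  have key := glob1 c.prim h5 (ξ := ((m : ℤ) : 𝓞 E)) (by
      rw [pi_dvd_int]
      intro h1
      apply dX
      have e : X = (X - m * Y) + m * Y := by ring
      rw [e]
      exact dvd_add hm (h1.mul_right _)) (by
      have e : ((m : ℤ) : 𝓞 E) + 1 = ((m + 1 : ℤ) : 𝓞 E) := by push_cast; rfl
      rw [e, pi_dvd_int]
      intro h1
      apply dXY
      have e : X + Y = (X - m * Y) + (m + 1) * Y := by ring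
      rw [e]
      exact dvd_add hm (h1.mul_right _)) (by
      intro j
      obtain ⟨ξ, hξd⟩ : ∃ ξ : E, ξ = c.z ^ j := ⟨_, rfl⟩
      have hξ : ξ ∈ nthRootsFinset p (1 : E) := by
        rw [mem_nthRootsFinset hpp.pos, hξd, ← pow_mul, mul_comm, pow_mul, c.prim.pow_eq_one,
          one_pow]
      have hδξ := h.twist.ne ξ hξ
      have hrat : v (δ ξ / δ 1) * v (w' ξ / w' 1) ^ p = 1 := by
        rw [← map_pow, ← map_mul]
        have e : δ ξ / δ 1 * (w' ξ / w' 1) ^ p = (δ ξ * w' ξ ^ p) / (δ 1 * w' 1 ^ p) := by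
          rw [div_pow]
          field_simp
        rw [e, map_div₀, hF ξ hξ, hF 1 h1mem, div_self hvC]
      obtain ⟨u, k, hk0, hk⟩ := exists_unit_mul_pow hpp.pos hreg (δ ξ / δ 1)
        (div_ne_zero hδξ hδ1) (by
          intro P
          by_cases hP : P = lam c.prim
          · subst hP
            refine ⟨(v (w' ξ / w' 1))⁻¹, ?_⟩
            rw [inv_pow]
            exact eq_inv_of_mul_eq_one_left hrat
          · obtain ⟨r, hr, hrv⟩ := exists_prime_mem P
            have hrp := ne_of_ne_lam c P hP r hrv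
            have : Fact r.Prime := ⟨hr⟩
            have hnr := h.nml ⟨r, hr⟩
            obtain ⟨κ, hκ⟩ := ord_ne hrp c P hrv δ D h.twist _ _ _ hnr.x1 hnr.y1 (by
              by_contra hcon
              rw [not_or] at hcon
              exact hnr.not_two hpp.ne_zero
                ⟨lt_of_le_of_ne hnr.x1 hcon.1, lt_of_le_of_ne hnr.y1 hcon.2⟩) (h.lifts ⟨r, hr⟩)
            obtain ⟨m₁, h₁⟩ := hκ ξ hξ
            obtain ⟨m₂, h₂⟩ := hκ 1 h1mem
            refine ⟨exp (m₁ - m₂), ?_⟩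
            rw [map_div₀, h₁, h₂, ← WithZero.exp_sub, ← exp_nsmul]
            congr 1
            simp only [nsmul_eq_mul]
            ring)
      obtain ⟨W, hW⟩ : ∃ W, W = k * (w' ξ / w' 1) := ⟨_, rfl⟩
      have hvu : v (algebraMap (𝓞 E) E u) = 1 := by
        have := V_unit c.prim u
        rw [← V_cm]
        exact this
      have hvW : v W = 1 := by
        have h1 : v W ^ p = 1 := by
          rw [hk, map_mul, hvu, one_mul, map_pow, ← mul_pow, ← map_mul, ← hW] at hrat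
          exact hrat
        exact (pow_eq_one_iff_of_nonneg zero_le hpp.ne_zero).1 h1
      obtain ⟨n, hn1⟩ := pow_near c.prim (w := cm c.prim W) (by rw [V_cm]; exact hvW.le)
      have hn2 : v (W ^ p - (n : E)) ≤ exp (-((p - 1 : ℕ) : ℤ)) := by
        rw [hv, ← V_cm, map_sub, map_pow, map_intCast]
        exact hn1
      rw [← lam_val_p c, ← hv] at hn2
      refine ⟨u, n, ?_⟩
      have hvn : v (n : E) ≤ 1 := by
        have := (lam c.prim).valuation_le_one (K := E) ((n : ℤ) : 𝓞 E)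
        simpa using this
      have hG1 := hG ξ hξ
      have hG2 := hG 1 h1mem
      have hρ5 : v C' * ((lam c.prim).valuation E ((p : ℕ) : E)) ^ ((5 : ℕ) : ℤ) ≤
          v C' * v ((p : ℕ) : E) := by
        rw [zpow_natCast]
        exact mul_le_mul_right (pow_le_of_le_one zero_le hρ1.le (by norm_num)) _
      have hmain : v (((X : E) + ξ * (Y : E)) - algebraMap (𝓞 E) E u * n * ((X : E) + 1 * (Y : E))) ≤
          v ((p : ℕ) : E) := by
        have h1 : v C' * v (((X : E) + ξ * (Y : E)) -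
            algebraMap (𝓞 E) E u * n * ((X : E) + 1 * (Y : E))) ≤ v C' * v ((p : ℕ) : E) := by
          rw [← map_mul]
          have e : C' * (((X : E) + ξ * (Y : E)) -
              algebraMap (𝓞 E) E u * n * ((X : E) + 1 * (Y : E))) =
              (C' * ((X : E) + ξ * (Y : E)) - δ ξ * w' ξ ^ p) -
              algebraMap (𝓞 E) E u * n * (C' * ((X : E) + 1 * (Y : E)) - δ 1 * w' 1 ^ p) +
              algebraMap (𝓞 E) E u * (W ^ p - n) * (δ 1 * w' 1 ^ p) := by
            have e1 : δ ξ * w' ξ ^ p = algebraMap (𝓞 E) E u * W ^ p * (δ 1 * w' 1 ^ p) := by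
              have e2 : δ ξ = algebraMap (𝓞 E) E u * k ^ p * δ 1 := by
                rw [← hk, div_mul_cancel₀ _ hδ1]
              have := hw0 1 h1mem
              rw [e2, hW, mul_pow, div_pow]
              field_simp
            linear_combination e1
          rw [e]
          refine Valuation.map_add_le _ (Valuation.map_sub_le _ (hG1.trans hρ5) ?_) ?_
          · rw [map_mul, map_mul, hvu, one_mul]
            exact (mul_le_of_le_one_left zero_le hvn).trans (hG2.trans hρ5)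
          · rw [map_mul, map_mul, hvu, one_mul, hF 1 h1mem, mul_comm]
            exact mul_le_mul_right hn2 _
        exact (mul_le_mul_iff_of_pos_left (zero_lt_iff.2 hvC)).1 h1
      rw [← lam_dvd, ← (lam c.prim).valuation_of_algebraMap (K := E)]
      have e0 : algebraMap (𝓞 E) E ((((m : ℤ) : 𝓞 E) + c.prim.toInteger ^ j) -
          (u : 𝓞 E) * n * (((m : ℤ) : 𝓞 E) + 1)) =
          ((m : E) + ξ) - algebraMap (𝓞 E) E u * n * ((m : E) + 1) := by
        have hz' : algebraMap (𝓞 E) E c.prim.toInteger = c.z := rfl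
        rw [map_sub, map_add, map_mul, map_mul, map_add, map_intCast, map_intCast, map_one,
          map_pow, hz', hξd]
      refine (congrArg v e0).trans_le ?_
      have e3 : v (((m : E) + ξ) - algebraMap (𝓞 E) E u * n * ((m : E) + 1)) =
          v ((((m : E) + ξ) - algebraMap (𝓞 E) E u * n * ((m : E) + 1)) * (Y : E)) := by
        rw [map_mul v _ (Y : E), hv, val_int_eq_one c Y dY, mul_one]
      have e4 : (((m : E) + ξ) - algebraMap (𝓞 E) E u * n * ((m : E) + 1)) * (Y : E) =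
          (((X : E) + ξ * (Y : E)) - algebraMap (𝓞 E) E u * n * ((X : E) + 1 * (Y : E))) -
          ((X - m * Y : ℤ) : E) * (1 - algebraMap (𝓞 E) E u * n) := by
        push_cast
        ring
      have h6 : v ((X - m * Y : ℤ) : E) ≤ v ((p : ℕ) : E) := by
        have := val_int_le c (X - m * Y) 1 (by simpa using hm)
        rwa [pow_one] at this
      have h7 : v ((p : ℕ) : E) ≤ exp (-((4 : ℕ) : ℤ)) := by
        rw [hv, lam_val_p, exp_le_exp]
        omega
      rw [e3, e4]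
      refine le_trans (Valuation.map_sub_le _ hmain ?_) h7
      rw [map_mul]
      refine (mul_le_of_le_one_right zero_le ?_).trans h6
      refine Valuation.map_sub_le _ (map_one v).le ?_
      rw [map_mul, hvu, one_mul]
      exact hvn)
  have e5 : ((m : ℤ) : 𝓞 E) - 1 = ((m - 1 : ℤ) : 𝓞 E) := by push_cast; rfl
  rw [e5, pi_dvd_int] at key
  have hfin : (p : ℤ) ∣ X - Y := by
    have e : X - Y = (X - m * Y) + (m - 1) * Y := by ring
    rw [e]
    exact dvd_add hm (key.mul_right _)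
  have h8 : ‖((X - Y : ℤ) : ℚ_[p])‖ < 1 := (Padic.norm_intCast_lt_one_iff).2 hfin
  have e : x ⟨p, hpp⟩ - y ⟨p, hpp⟩ = ((X - Y : ℤ) : ℚ_[p]) +
      ((x ⟨p, hpp⟩ - X) - (y ⟨p, hpp⟩ - Y)) := by
    push_cast
    ring
  change ‖x ⟨p, hpp⟩ - y ⟨p, hpp⟩‖ < 1
  rw [e]
  exact norm_add_lt _ _ h8 (norm_sub_lt _ _ hX1 hY1)

/-- Kummer's theorem on the first case -/
theorem Tri.first_reg (hreg : (classNumber E).Coprime p) (h5 : 5 ≤ p) (c : Cyc p E)
    {x y z : ∀ r : Nat.Primes, ℚ_[(r : ℕ)]} (h : Tri p E x y z) :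
    ‖x ⟨p, Fact.out⟩‖ < 1 ∨ ‖y ⟨p, Fact.out⟩‖ < 1 ∨ ‖z ⟨p, Fact.out⟩‖ < 1 := by
  obtain ⟨δ, D, h2⟩ := h.z2
  obtain ⟨δ', D', h0⟩ := h.x0
  have hn := h2.nml ⟨p, Fact.out⟩
  by_contra hcon
  rw [not_or, not_or] at hcon
  have hx := eq_one_of_not_lt hn.x1 hcon.1
  have hy := eq_one_of_not_lt hn.y1 hcon.2.1
  have hz := eq_one_of_not_lt hn.z1 hcon.2.2
  exact hn.not_all_eq h5 hx (h2.kummer hreg h5 c hx hy hz) (h0.kummer hreg h5 c hy hz hx)

end

end Pool.Agent.K3h1.FC
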