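import Pool.Agent.K3h16.FC.SOL

/-!
# Project FC: the double covering has points with `w ≠ 0` over all completions

(the proof is that of `Pool.Agent.K3h16.FC.sol`)
-/

set_option autoImplicit false

namespace Pool.Agent.K3h1.FC

open Pool.Agent.K3h16.FC (sq_odd sq_two cube three)

theorem sol2 (p : ℕ) (hp : p.Prime) (h24 : p % 24 = 7) (a b : ℤ) (ha : ¬ (p : ℤ) ∣ a)
    (hb : ¬ (p : ℤ) ∣ b) :
    (∀ (r : ℕ) [Fact r.Prime], ∃ x y z w : ℚ_[r], (x ≠ 0 ∨ y ≠ 0 ∨ z ≠ 0) ∧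
      x ^ p + y ^ p + z ^ p = 0 ∧
      w ≠ 0 ∧
      w ^ 2 = x ^ 3 * y ^ 3 + p * a ^ 2 * (y ^ 3 * z ^ 3) - p * b ^ 2 * (z ^ 3 * x ^ 3)) ∧
    ∃ x y z w : ℝ, (x ≠ 0 ∨ y ≠ 0 ∨ z ≠ 0) ∧ x ^ p + y ^ p + z ^ p = 0 ∧
      w ≠ 0 ∧
      w ^ 2 = x ^ 3 * y ^ 3 + p * a ^ 2 * (y ^ 3 * z ^ 3) - p * b ^ 2 * (z ^ 3 * x ^ 3) := by
  have hodd : Odd p := by
    rw [Nat.odd_iff]; omega
  have hp0 : p ≠ 0 := hp.ne_zero
  have ha0 : a ≠ 0 := by rintro rfl; exact ha (dvd_zero _)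
  have hb0 : b ≠ 0 := by rintro rfl; exact hb (dvd_zero _)
  have hv0 : ∀ (r : ℕ) [Fact r.Prime] (c : ℤ) (v : ℚ_[r]), c ≠ 0 → v ^ 2 = c → v ≠ 0 := by
    intro r _ c v hc hv h0
    rw [h0, zero_pow two_ne_zero] at hv
    exact hc (by exact_mod_cast hv.symm)
  constructor
  · intro r hr
    have ha1 : (a : ℚ_[r]) ≠ 0 := by exact_mod_cast ha0
    have hb1 : (b : ℚ_[r]) ≠ 0 := by exact_mod_cast hb0
    by_cases hrp : r = p
    · subst hrp
      obtain ⟨w, hw⟩ := cube r (by omega)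
      have hw3 : w ^ 3 = 1 := by linear_combination (w - 1) * hw
      have hwp : w ^ r = w := by
        obtain ⟨k, hk⟩ : ∃ k, r = 3 * k + 1 := ⟨r / 3, by omega⟩
        calc w ^ r = w ^ (3 * k + 1) := congrArg (fun n : ℕ => w ^ n) hk
          _ = w := by rw [pow_add, pow_mul, hw3, one_pow, one_mul, pow_one]
      obtain ⟨v, hv⟩ := sq_odd r (by rintro rfl; omega) (1 + r * a ^ 2 - r * b ^ 2) 1
        ⟨b ^ 2 - a ^ 2, by ring⟩ (by
          intro h
          have : r ∣ 1 := by exact_mod_cast h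
          exact hp.one_lt.ne' (Nat.dvd_one.1 this))
      refine ⟨1, w, w ^ 2, v, Or.inl one_ne_zero, ?_, hv0 r _ v (fun h0 => ?_) hv, ?_⟩
      · rw [one_pow, hwp, ← pow_mul, mul_comm, pow_mul, hwp]
        linear_combination hw
      · have h1 : (r : ℤ) ∣ 1 := ⟨b ^ 2 - a ^ 2, by linear_combination h0⟩
        have : r ∣ 1 := by exact_mod_cast h1
        exact hp.one_lt.ne' (Nat.dvd_one.1 this)
      · rw [hv]
        push_cast
        have h6 : (w ^ 2) ^ 3 = 1 := by rw [← pow_mul, mul_comm, pow_mul, hw3, one_pow]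
        rw [h6, hw3]
        ring
    by_cases hr2 : r = 2
    · subst hr2
      obtain ⟨v, hv⟩ := sq_two (-(p : ℤ)) (by omega)
      refine ⟨0, 1, -1, v * a, Or.inr (Or.inl one_ne_zero), ?_,
        mul_ne_zero (hv0 2 _ v (by omega) hv) ha1, ?_⟩
      · rw [zero_pow hp0, one_pow, hodd.neg_one_pow]
        ring
      · rw [mul_pow, hv]
        push_cast
        ring
    · have hpr : ¬ (r : ℤ) ∣ (p : ℤ) := by
        intro h
        have h1 : r ∣ p := by exact_mod_cast h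
        exact hrp ((Nat.prime_dvd_prime_iff_eq hr.out hp).1 h1)
      rcases three r hr2 p hpr with ⟨k, h1, h2⟩ | ⟨k, h1, h2⟩ | ⟨k, h1, h2⟩
      · obtain ⟨v, hv⟩ := sq_odd r hr2 _ k h1 h2
        refine ⟨1, -1, 0, v, Or.inl one_ne_zero, ?_, hv0 r _ v (by norm_num) hv, ?_⟩
        · rw [zero_pow hp0, one_pow, hodd.neg_one_pow]
          ring
        · rw [hv]
          push_cast
          ring
      · obtain ⟨v, hv⟩ := sq_odd r hr2 _ k h1 h2
        refine ⟨0, 1, -1, v * a, Or.inr (Or.inl one_ne_zero), ?_,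
          mul_ne_zero (hv0 r _ v (by omega) hv) ha1, ?_⟩
        · rw [zero_pow hp0, one_pow, hodd.neg_one_pow]
          ring
        · rw [mul_pow, hv]
          push_cast
          ring
      · obtain ⟨v, hv⟩ := sq_odd r hr2 _ k h1 h2
        refine ⟨-1, 0, 1, v * b, Or.inr (Or.inr one_ne_zero), ?_,
          mul_ne_zero (hv0 r _ v (by omega) hv) hb1, ?_⟩
        · rw [zero_pow hp0, one_pow, hodd.neg_one_pow]
          ring
        · rw [mul_pow, hv]
          push_cast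
          ring
  · refine ⟨-1, 0, 1, Real.sqrt p * b, Or.inr (Or.inr one_ne_zero), ?_,
      mul_ne_zero (Real.sqrt_ne_zero'.2 (by exact_mod_cast hp.pos)) (by exact_mod_cast hb0), ?_⟩
    · rw [zero_pow hp0, one_pow, hodd.neg_one_pow]
      ring
    · rw [mul_pow, Real.sq_sqrt (Nat.cast_nonneg p)]
      ring

end Pool.Agent.K3h1.FC
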