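import Pool.Agent.Y546.WQ.PalK

/-!
# Project FC: adelic points of the Fermat curve and its abelian etale coverings, statements

`p` is a prime number, `E` the `p`-th cyclotomic field.
-/

set_option autoImplicit false

namespace Pool.Agent.K3h1.FC

open NumberField IsDedekindDomain Polynomial Pool.Agent.Y546.WQ

open scoped TensorProduct

/-- The algebra `ℚ_r ⊗ E`, the product of the completions of `E` at the places above `r`. -/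
abbrev Loc (r : ℕ) [Fact r.Prime] (E : Type) [Field E] [NumberField E] : Type := ℚ_[r] ⊗[ℚ] E

/-- A twist of the covering `x + ξ y = w_ξ ^ p`, `-z = ∏ w_ξ` (`ξ` runs through the `p`-th roots of
unity) of the Fermat curve `x ^ p + y ^ p + z ^ p = 0` over `E`: the covering
`x + ξ y = δ_ξ w_ξ ^ p`, `-z = D ∏ w_ξ`, where `∏ δ_ξ = D ^ p`. -/
structure IsTwist (p : ℕ) (E : Type) [Field E] (δ : E → E) (D : E) : Prop where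
  ne : ∀ ξ ∈ nthRootsFinset p (1 : E), δ ξ ≠ 0
  prod : ∏ ξ ∈ nthRootsFinset p (1 : E), δ ξ = D ^ p

/-- The point `(x : y : z)` over `ℚ_r` lifts to a point `w` of the twist over `ℚ_r ⊗ E`. -/
def Lifts (p r : ℕ) [Fact r.Prime] (E : Type) [Field E] [NumberField E] (δ : E → E) (D : E)
    (x y z : ℚ_[r]) : Prop :=
  ∃ (c : (Loc r E)ˣ) (w : E → Loc r E),
    (∀ ξ ∈ nthRootsFinset p (1 : E),
      (c : Loc r E) * (x ⊗ₜ[ℚ] (1 : E) + y ⊗ₜ[ℚ] ξ) = ((1 : ℚ_[r]) ⊗ₜ[ℚ] δ ξ) * w ξ ^ p) ∧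
    (c : Loc r E) * ((-z) ⊗ₜ[ℚ] (1 : E)) =
      ((1 : ℚ_[r]) ⊗ₜ[ℚ] D) * ∏ ξ ∈ nthRootsFinset p (1 : E), w ξ

instance factPrimes (r : Nat.Primes) : Fact (r : ℕ).Prime := ⟨r.2⟩

/-- `v` is a family of homogeneous coordinates of points of the Fermat curve
`x ^ p + y ^ p + z ^ p = 0` over all the fields `ℚ_r`: an adelic point of the curve (without the
archimedean component). -/
structure IsAdelicPoint (p : ℕ) (v : ∀ r : Nat.Primes, Fin 3 → ℚ_[(r : ℕ)]) : Prop where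
  ne : ∀ r, v r ≠ 0
  eq : ∀ r, v r 0 ^ p + v r 1 ^ p + v r 2 ^ p = 0

/-- The adelic point lifts to a twist of the covering that belongs to the coordinate `k` (for
`k = 2` it is the covering above, the others are obtained by a cyclic permutation of the
coordinates). -/
def Survives (p : ℕ) (E : Type) [Field E] [NumberField E]
    (v : ∀ r : Nat.Primes, Fin 3 → ℚ_[(r : ℕ)]) (k : Fin 3) : Prop :=
  ∃ (δ : E → E) (D : E), IsTwist p E δ D ∧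
    ∀ r : Nat.Primes, Lifts p (r : ℕ) E δ D (v r (k + 1)) (v r (k + 2)) (v r k)

/-- WA: weak approximation for two places -/
def S_WA : Prop := ∀ (p q : ℕ) [Fact p.Prime] [Fact q.Prime], p ≠ q → ∀ (a : ℚ_[p]) (b : ℚ_[q])
  (ε : ℝ), 0 < ε → ∃ t : ℚ, ‖(t : ℚ_[p]) - a‖ < ε ∧ ‖(t : ℚ_[q]) - b‖ < ε

/-- CRIT: the criteria for an element of the cyclotomic field whose ideal is a `p`-th power and
which is linear in `z` modulo `p` (and modulo `q`) -/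
def S_CRIT : Prop := ∀ (p : ℕ) [Fact p.Prime], 5 ≤ p → ∀ (E : Type) [Field E] [NumberField E]
  (c : Cyc p E) (f : Polynomial ℤ) (n : ℤ), ¬ (p : ℤ) ∣ n → ∀ A₀ A₁ : ZMod p, A₀ + A₁ = 1 →
  f.map (Int.castRingHom (ZMod p)) = Polynomial.C (n : ZMod p) *
    (Polynomial.C A₀ + Polynomial.C A₁ * X) →
  aeval c.z f ≠ 0 →
  (∀ P : HeightOneSpectrum (𝓞 E), ∃ m : ℤ, P.valuation E (aeval c.z f) =
    P.valuation E ((n : ℤ) : E) * WithZero.exp ((p : ℤ) * m)) →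
  ((p - 3 ∉ irr p ∨ ((irr p).card + 1) * ((irr p).card + 2) + 3 ≤ p) → A₀ ≠ 0 → A₁ ≠ 0 →
    A₀ = A₁) ∧
  ∀ (q : ℕ) [Fact q.Prime], q ≠ p → ¬ (q : ℤ) ∣ n → ¬ p ^ 2 ∣ q ^ (p - 1) - 1 →
    ∀ B₀ B₁ : ZMod q, B₀ + B₁ = 1 →
    f.map (Int.castRingHom (ZMod q)) = Polynomial.C (n : ZMod q) *
      (Polynomial.C B₀ + Polynomial.C B₁ * X) →
    (B₀ = 0 → A₀ = 0) ∧ (B₁ = 0 → A₁ = 0) ∧ (B₀ = B₁ → A₀ = A₁)

/-- RAT: rational points survive -/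
def S_RAT : Prop := ∀ (p : ℕ) [Fact p.Prime], p ≠ 2 → ∀ (E : Type) [Field E] [NumberField E]
  (_c : Cyc p E) (x y z : ℚ), (x ≠ 0 ∨ y ≠ 0 ∨ z ≠ 0) → x ^ p + y ^ p + z ^ p = 0 →
  ∃ (δ : E → E) (D : E), IsTwist p E δ D ∧
    ∀ (r : ℕ) [Fact r.Prime], Lifts p r E δ D (x : ℚ_[r]) (y : ℚ_[r]) (z : ℚ_[r])

/-- SOL: the double covering has points over all completions of `ℚ` -/
def S_SOL : Prop := ∀ p : ℕ, p.Prime → p % 24 = 7 → ∀ a b : ℤ, ¬ (p : ℤ) ∣ a → ¬ (p : ℤ) ∣ b →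
  (∀ (r : ℕ) [Fact r.Prime], ∃ x y z w : ℚ_[r], (x ≠ 0 ∨ y ≠ 0 ∨ z ≠ 0) ∧
    x ^ p + y ^ p + z ^ p = 0 ∧
    w ^ 2 = x ^ 3 * y ^ 3 + p * a ^ 2 * (y ^ 3 * z ^ 3) - p * b ^ 2 * (z ^ 3 * x ^ 3)) ∧
  ∃ x y z w : ℝ, (x ≠ 0 ∨ y ≠ 0 ∨ z ≠ 0) ∧ x ^ p + y ^ p + z ^ p = 0 ∧
    w ^ 2 = x ^ 3 * y ^ 3 + p * a ^ 2 * (y ^ 3 * z ^ 3) - p * b ^ 2 * (z ^ 3 * x ^ 3)

/-- DIS: the `p`-adic points of the double covering are not near the rational points of the Fermat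
curve -/
def S_DIS : Prop := ∀ (p : ℕ) [Fact p.Prime], p % 4 = 3 → ∀ a b : ℤ, ¬ (p : ℤ) ∣ a →
  ¬ (p : ℤ) ∣ b → ∀ x y z w : ℚ_[p], ‖x‖ ≤ 1 → ‖y‖ ≤ 1 → ‖z‖ ≤ 1 →
  (‖x‖ = 1 ∨ ‖y‖ = 1 ∨ ‖z‖ = 1) → x ^ p + y ^ p + z ^ p = 0 →
  w ^ 2 = x ^ 3 * y ^ 3 + p * a ^ 2 * (y ^ 3 * z ^ 3) - p * b ^ 2 * (z ^ 3 * x ^ 3) →
  ‖x‖ = 1 ∧ ‖y‖ = 1 ∧ ‖z‖ = 1

end Pool.Agent.K3h1.FC
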