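import Pool.Agent.K3h1.FC.Loc

/-!
# Project FC: approximation of elements of `ℚ_r ⊗ E` and valuations
-/

set_option autoImplicit false

namespace Pool.Agent.K3h1.FC

open NumberField IsDedekindDomain Polynomial Pool.Agent.Y546.WQ

open scoped TensorProduct

theorem not_dvd_den {r : ℕ} [Fact r.Prime] (a : ℚ) (h : ‖(a : ℚ_[r])‖ ≤ 1) : ¬ r ∣ a.den := by
  intro hd
  have hr : r.Prime := Fact.out
  have h1 : ¬ (r : ℤ) ∣ a.num := by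
    intro h2
    have h3 : r ∣ a.num.natAbs := Int.natCast_dvd.1 h2
    have h4 := Nat.dvd_gcd h3 hd
    rw [a.reduced] at h4
    exact hr.one_lt.ne' (Nat.dvd_one.1 h4)
  have h2 : ‖((a.num : ℤ) : ℚ_[r])‖ = 1 := by
    rw [Padic.norm_intCast_eq_one_iff]
    exact ((Nat.prime_iff_prime_int.1 hr).coprime_iff_not_dvd.2 h1).symm
  have h3 : ‖((a.den : ℕ) : ℚ_[r])‖ < 1 := Padic.norm_natCast_lt_one_iff.2 hd
  have h4 : (a : ℚ_[r]) * ((a.den : ℕ) : ℚ_[r]) = ((a.num : ℤ) : ℚ_[r]) := by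
    have := Rat.mul_den_eq_num a
    exact_mod_cast congrArg (fun t : ℚ => (t : ℚ_[r])) this
  have h5 := congrArg norm h4
  rw [norm_mul, h2] at h5
  have h6 : ‖(a : ℚ_[r])‖ * ‖((a.den : ℕ) : ℚ_[r])‖ < 1 := by
    have h7 := norm_nonneg ((a.den : ℕ) : ℚ_[r])
    calc ‖(a : ℚ_[r])‖ * ‖((a.den : ℕ) : ℚ_[r])‖ ≤ 1 * ‖((a.den : ℕ) : ℚ_[r])‖ :=
          mul_le_mul_of_nonneg_right h h7
      _ < 1 := by rwa [one_mul]
  linarith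

section

variable {p : ℕ} [Fact p.Prime] {E : Type} [Field E] [NumberField E] {r : ℕ} [Fact r.Prime]

theorem val_rat_le_one (P : HeightOneSpectrum (𝓞 E)) (hP : ((r : ℕ) : 𝓞 E) ∈ P.asIdeal) (a : ℚ)
    (h : ‖(a : ℚ_[r])‖ ≤ 1) : P.valuation E (a : E) ≤ 1 := by
  have hr : r.Prime := Fact.out
  have h1 := not_dvd_den a h
  have h2 : (a : E) = ((a.num : ℤ) : E) / ((a.den : ℤ) : E) := by
    push_cast
    exact Rat.cast_def a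
  have h3 : P.valuation E ((a.den : ℤ) : E) = 1 := by
    have h4 : ¬ (r : ℤ) ∣ (a.den : ℤ) := by
      intro h5
      exact h1 (by exact_mod_cast h5)
    have := val_one P ((a.den : ℤ) : 𝓞 E) (int_notMem P.asIdeal P.isPrime r hr hP _ h4)
    simpa using this
  rw [h2, map_div₀, h3, div_one]
  have h4 := P.valuation_le_one (K := E) ((a.num : ℤ) : 𝓞 E)
  simpa using h4

theorem val_z_le (c : Cyc p E) (P : HeightOneSpectrum (𝓞 E)) (k : ℕ) :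
    P.valuation E (c.z ^ k) ≤ 1 := by
  obtain ⟨w, hw, _⟩ := exists_zint c
  rw [← hw, map_pow]
  exact pow_le_one₀ zero_le (P.valuation_le_one (K := E) w)

theorem val_r_ne (P : HeightOneSpectrum (𝓞 E)) : P.valuation E ((r : ℕ) : E) ≠ 0 := by
  have hr : r.Prime := Fact.out
  rw [Ne, map_eq_zero]
  exact_mod_cast hr.ne_zero

omit [Fact r.Prime] in
theorem val_r_lt (P : HeightOneSpectrum (𝓞 E)) (hP : ((r : ℕ) : 𝓞 E) ∈ P.asIdeal) :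
    P.valuation E ((r : ℕ) : E) < 1 := by
  have := (P.valuation_lt_one_iff_mem (K := E) ((r : ℕ) : 𝓞 E)).2 hP
  simpa using this

theorem rc_sum (c : Cyc p E) (t : Fin (p - 1) → ℚ) (i : Fin (p - 1)) :
    rc c (∑ j, (t j : E) * c.z ^ (j : ℕ)) i = t i := by
  have h : ∑ j, (t j : E) * c.z ^ (j : ℕ) = ∑ j, t j • bas c j := by
    refine Finset.sum_congr rfl fun j _ => ?_
    rw [bas_apply, Algebra.smul_def]
    rfl
  rw [h]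
  unfold rc
  rw [(bas c).repr_sum_self]

/-- an element of `E` with small coordinates has small valuation -/
theorem val_le (c : Cyc p E) (P : HeightOneSpectrum (𝓞 E)) (hP : ((r : ℕ) : 𝓞 E) ∈ P.asIdeal)
    (e : E) (N : ℤ) (h : Le r c ((1 : ℚ_[r]) ⊗ₜ[ℚ] e) ((r : ℝ) ^ (-N))) :
    P.valuation E e ≤ P.valuation E ((r : ℕ) : E) ^ N := by
  have hr : r.Prime := Fact.out
  have hr0 : ((r : ℕ) : E) ≠ 0 := by exact_mod_cast hr.ne_zero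
  have hr0' : ((r : ℕ) : ℚ) ≠ 0 := by exact_mod_cast hr.ne_zero
  have hrR : (0 : ℝ) < (r : ℝ) := by exact_mod_cast hr.pos
  have h1 : P.valuation E (e * ((r : ℕ) : E) ^ (-N)) ≤ 1 := by
    have h2 : e * ((r : ℕ) : E) ^ (-N) =
        ∑ i, ((rc c e i * ((r : ℕ) : ℚ) ^ (-N) : ℚ) : E) * c.z ^ (i : ℕ) := by
      conv_lhs => rw [← sum_rc c e]
      rw [Finset.sum_mul]
      refine Finset.sum_congr rfl fun i _ => ?_
      push_cast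
      ring
    rw [h2]
    refine Valuation.map_sum_le _ fun i _ => ?_
    rw [map_mul]
    refine mul_le_one' (val_rat_le_one (r := r) P hP _ ?_) (val_z_le c P i)
    have h3 := h i
    rw [lc_tmul, mul_one] at h3
    have h4 : ((rc c e i * ((r : ℕ) : ℚ) ^ (-N) : ℚ) : ℚ_[r]) =
        (rc c e i : ℚ_[r]) * ((r : ℕ) : ℚ_[r]) ^ (-N) := by push_cast; rfl
    rw [h4, norm_mul, norm_zpow, Padic.norm_p]
    calc ‖(rc c e i : ℚ_[r])‖ * ((r : ℝ)⁻¹) ^ (-N) ≤ (r : ℝ) ^ (-N) * ((r : ℝ)⁻¹) ^ (-N) :=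
          mul_le_mul_of_nonneg_right h3 (by positivity)
      _ = 1 := by rw [← mul_zpow, mul_inv_cancel₀ hrR.ne', one_zpow]
  have h5 : e = (e * ((r : ℕ) : E) ^ (-N)) * ((r : ℕ) : E) ^ N := by
    rw [mul_assoc, ← zpow_add₀ hr0, neg_add_cancel, zpow_zero, mul_one]
  rw [h5, map_mul, map_zpow₀]
  calc _ ≤ 1 * P.valuation E ((r : ℕ) : E) ^ N := mul_le_mul_left h1 _
    _ = _ := one_mul _

variable (r) in
/-- approximation at one place -/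
theorem approx1 (c : Cyc p E) (g : Loc r E) (ε : ℝ) (hε : 0 < ε) :
    ∃ e : E, Le r c (g - (1 : ℚ_[r]) ⊗ₜ[ℚ] e) ε := by
  choose t ht using fun i => Padic.rat_dense (p := r) (lc r c g i) hε
  refine ⟨∑ j, (t j : E) * c.z ^ (j : ℕ), fun i => ?_⟩
  rw [lc_sub, lc_tmul, rc_sum, mul_one]
  exact (ht i).le

/-- approximation at two places -/
theorem approx2 (hWA : S_WA) {q : ℕ} [Fact q.Prime] (hrq : r ≠ q) (c : Cyc p E) (g : Loc r E)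
    (h : Loc q E) (ε : ℝ) (hε : 0 < ε) :
    ∃ e : E, Le r c (g - (1 : ℚ_[r]) ⊗ₜ[ℚ] e) ε ∧ Le q c (h - (1 : ℚ_[q]) ⊗ₜ[ℚ] e) ε := by
  choose t ht1 ht2 using fun i => hWA r q hrq (lc r c g i) (lc q c h i) ε hε
  refine ⟨∑ j, (t j : E) * c.z ^ (j : ℕ), fun i => ?_, fun i => ?_⟩
  · rw [lc_sub, lc_tmul, rc_sum, mul_one, ← norm_neg, neg_sub]
    exact (ht1 i).le
  · rw [lc_sub, lc_tmul, rc_sum, mul_one, ← norm_neg, neg_sub]
    exact (ht2 i).le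

theorem one_tmul_sub (a b : E) : ((1 : ℚ_[r]) ⊗ₜ[ℚ] (a - b) : Loc r E) =
    (1 : ℚ_[r]) ⊗ₜ[ℚ] a - (1 : ℚ_[r]) ⊗ₜ[ℚ] b := TensorProduct.tmul_sub _ _ _

theorem one_tmul_mul (a b : E) : ((1 : ℚ_[r]) ⊗ₜ[ℚ] (a * b) : Loc r E) =
    ((1 : ℚ_[r]) ⊗ₜ[ℚ] a) * ((1 : ℚ_[r]) ⊗ₜ[ℚ] b) := by
  rw [Algebra.TensorProduct.tmul_mul_tmul, one_mul]

theorem one_tmul_pow (a : E) (n : ℕ) : ((1 : ℚ_[r]) ⊗ₜ[ℚ] (a ^ n) : Loc r E) =
    ((1 : ℚ_[r]) ⊗ₜ[ℚ] a) ^ n := by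
  rw [Algebra.TensorProduct.tmul_pow, one_pow]

theorem mem_val_exp (P : HeightOneSpectrum (𝓞 E)) (e : E) (he : e ≠ 0) :
    ∃ k : ℤ, P.valuation E e = WithZero.exp k := by
  have h : P.valuation E e ≠ 0 := (Valuation.ne_zero_iff _).2 he
  exact ⟨WithZero.log (P.valuation E e), (WithZero.exp_log h).symm⟩

/-- equality of the valuations of close elements -/
theorem val_eq_of_close (c : Cyc p E) (P : HeightOneSpectrum (𝓞 E))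
    (hP : ((r : ℕ) : 𝓞 E) ∈ P.asIdeal) (a b : E) (N M : ℤ) (hMN : M < N)
    (h : Le r c ((1 : ℚ_[r]) ⊗ₜ[ℚ] (a - b)) ((r : ℝ) ^ (-N)))
    (ha : P.valuation E ((r : ℕ) : E) ^ M ≤ P.valuation E a) :
    P.valuation E b = P.valuation E a := by
  have h1 := val_le c P hP _ N h
  have h2 : P.valuation E ((r : ℕ) : E) ^ N < P.valuation E ((r : ℕ) : E) ^ M :=
    zpow_lt_zpow_right_of_lt_one₀ (zero_lt_iff.2 (val_r_ne P)) (val_r_lt P hP) hMN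
  have h3 : P.valuation E (a - b) < P.valuation E a := (h1.trans_lt h2).trans_le ha
  have h4 : b = a - (a - b) := by ring
  rw [h4]
  exact Valuation.map_sub_eq_of_lt_left _ h3

/-- an integer close to an integral `r`-adic number -/
theorem approxInt (x : ℚ_[r]) (hx : ‖x‖ ≤ 1) (ε : ℝ) (hε : 0 < ε) :
    ∃ X : ℤ, ‖x - (X : ℚ_[r])‖ < ε := by
  let x' : ℤ_[r] := ⟨x, hx⟩
  obtain ⟨X, hX⟩ := (PadicInt.denseRange_intCast (p := r)).exists_dist_lt x' hε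
  refine ⟨X, ?_⟩
  have h1 : ‖x' - (X : ℤ_[r])‖ < ε := by rwa [← dist_eq_norm]
  have h2 : ‖x' - (X : ℤ_[r])‖ = ‖x - (X : ℚ_[r])‖ := by
    rw [PadicInt.norm_def]
    push_cast
    rfl
  rwa [← h2]

/-- the valuations of the `δ ξ` from one place -/
theorem valp (c : Cyc p E) (P : HeightOneSpectrum (𝓞 E)) (hP : ((r : ℕ) : 𝓞 E) ∈ P.asIdeal)
    (x y : ℚ_[r]) (hx : ‖x‖ ≤ 1) (hy : ‖y‖ ≤ 1) (C : (Loc r E)ˣ) (w : E → Loc r E) (δ : E → E)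
    (S : Finset E) (hξ : ∀ ξ ∈ S, ∃ k : ℕ, ξ = c.z ^ k)
    (h : ∀ ξ ∈ S, (C : Loc r E) * (x ⊗ₜ[ℚ] (1 : E) + y ⊗ₜ[ℚ] ξ) =
      ((1 : ℚ_[r]) ⊗ₜ[ℚ] δ ξ) * w ξ ^ p) :
    ∃ (κ : ℤ) (X Y : ℤ), ‖x - (X : ℚ_[r])‖ < 1 ∧ ‖y - (Y : ℚ_[r])‖ < 1 ∧
      ∀ ξ ∈ S, P.valuation E ((X : E) + ξ * (Y : E)) = 1 →
        ∃ m : ℤ, P.valuation E (δ ξ) = WithZero.exp (κ + (p : ℤ) * m) := by
  have hpp : p.Prime := Fact.out
  have hr : r.Prime := Fact.out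
  have hrR : (1 : ℝ) < (r : ℝ) := by exact_mod_cast hr.one_lt
  have hrR0 : (0 : ℝ) < (r : ℝ) := by linarith
  -- a common bound
  choose Bw hBw0 hBw using fun ξ => exists_Le c (w ξ)
  choose Bδ hBδ0 hBδ using fun ξ => exists_Le c ((1 : ℚ_[r]) ⊗ₜ[ℚ] δ ξ)
  obtain ⟨BC, hBC0, hBC⟩ := exists_Le c (C : Loc r E)
  obtain ⟨BD, hBD0, hBD⟩ := exists_Le c ((C⁻¹ : (Loc r E)ˣ) : Loc r E)
  have hsw : 0 ≤ ∑ ξ ∈ S, Bw ξ := Finset.sum_nonneg fun ξ _ => (hBw0 ξ).le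
  have hsδ : 0 ≤ ∑ ξ ∈ S, Bδ ξ := Finset.sum_nonneg fun ξ _ => (hBδ0 ξ).le
  obtain ⟨M, hM⟩ := pow_unbounded_of_one_lt (1 + ∑ ξ ∈ S, Bw ξ + ∑ ξ ∈ S, Bδ ξ + BC + BD) hrR
  set B : ℝ := (r : ℝ) ^ M with hB
  have hB1 : 1 ≤ B := by linarith
  have hB0 : 0 ≤ B := by linarith
  have hw : ∀ ξ ∈ S, Le r c (w ξ) B := fun ξ hξS => (hBw ξ).mono (by
    have := Finset.single_le_sum (fun i _ => (hBw0 i).le) hξS
    linarith)
  have hδB : ∀ ξ ∈ S, Le r c ((1 : ℚ_[r]) ⊗ₜ[ℚ] δ ξ) B := fun ξ hξS => (hBδ ξ).mono (by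
    have := Finset.single_le_sum (fun i _ => (hBδ0 i).le) hξS
    linarith)
  have hC : Le r c (C : Loc r E) B := hBC.mono (by linarith)
  have hD : Le r c ((C⁻¹ : (Loc r E)ˣ) : Loc r E) B := hBD.mono (by linarith)
  -- the precision
  set N : ℕ := M * (p + 2) + 1 with hN
  set ε : ℝ := (r : ℝ) ^ (-(N : ℤ)) with hε
  have hε0 : 0 < ε := zpow_pos hrR0 _
  have hε1 : ε ≤ 1 := by
    rw [hε]
    exact zpow_le_one_of_nonpos₀ hrR.le (by omega)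
  have hεlt : ε < 1 := by
    rw [hε]
    exact zpow_lt_one_of_neg₀ hrR (by omega)
  obtain ⟨C', hC'⟩ := approx1 r c (C : Loc r E) ε hε0
  obtain ⟨D', hD'⟩ := approx1 r c ((C⁻¹ : (Loc r E)ˣ) : Loc r E) ε hε0
  choose w' hw' using fun ξ => approx1 r c (w ξ) ε hε0
  obtain ⟨X, hX⟩ := approxInt x hx ε hε0
  obtain ⟨Y, hY⟩ := approxInt y hy ε hε0
  have hC'B : Le r c ((1 : ℚ_[r]) ⊗ₜ[ℚ] C') B := by
    have e : ((1 : ℚ_[r]) ⊗ₜ[ℚ] C' : Loc r E) = C - (C - (1 : ℚ_[r]) ⊗ₜ[ℚ] C') := by ring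
    rw [e]
    exact hC.sub (hC'.mono (by linarith))
  have hD'B : Le r c ((1 : ℚ_[r]) ⊗ₜ[ℚ] D') B := by
    have e : ((1 : ℚ_[r]) ⊗ₜ[ℚ] D' : Loc r E) = ((C⁻¹ : (Loc r E)ˣ) : Loc r E) -
        (((C⁻¹ : (Loc r E)ˣ) : Loc r E) - (1 : ℚ_[r]) ⊗ₜ[ℚ] D') := by ring
    rw [e]
    exact hD.sub (hD'.mono (by linarith))
  -- the product of C' and D' is close to 1
  have h1 : Le r c ((1 : ℚ_[r]) ⊗ₜ[ℚ] (1 - C' * D')) (ε * B) := by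
    have e : ((1 : ℚ_[r]) ⊗ₜ[ℚ] (1 - C' * D') : Loc r E) =
        (C - (1 : ℚ_[r]) ⊗ₜ[ℚ] C') * ((C⁻¹ : (Loc r E)ˣ) : Loc r E) +
        (((C⁻¹ : (Loc r E)ˣ) : Loc r E) - (1 : ℚ_[r]) ⊗ₜ[ℚ] D') * ((1 : ℚ_[r]) ⊗ₜ[ℚ] C') := by
      rw [one_tmul_sub, one_tmul_mul, sub_mul, C.mul_inv]
      have e1 : ((1 : ℚ_[r]) ⊗ₜ[ℚ] (1 : E) : Loc r E) = 1 := rfl
      rw [e1]
      ring
    rw [e]
    exact (Le.mul hε0.le hB0 hC' hD).add (Le.mul hε0.le hB0 hD' hC'B)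
  have hεB : ε * B = (r : ℝ) ^ (-((N : ℤ) - M)) := by
    rw [hε, hB, ← zpow_natCast, ← zpow_add₀ hrR0.ne']
    congr 1
    ring
  have h2 : P.valuation E (C' * D') = 1 := by
    rw [hεB] at h1
    have := val_eq_of_close c P hP 1 (C' * D') ((N : ℤ) - M) 0 (by
      rw [hN]
      push_cast
      have : 0 ≤ (M : ℤ) * (p + 1) := by positivity
      nlinarith) h1 (by simp)
    rw [this, map_one]
  have h3 : P.valuation E D' ≤ P.valuation E ((r : ℕ) : E) ^ (-(M : ℤ)) := by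
    apply val_le c P hP
    rw [neg_neg, zpow_natCast]
    exact hD'B
  have h4 : P.valuation E ((r : ℕ) : E) ^ (M : ℤ) ≤ P.valuation E C' := by
    rw [map_mul] at h2
    have h5 : P.valuation E C' = (P.valuation E D')⁻¹ := eq_inv_of_mul_eq_one_left h2
    rw [h5]
    have h6 : P.valuation E D' ≠ 0 := by
      intro h7
      rw [h7, mul_zero] at h2
      exact zero_ne_one h2
    rw [zpow_neg] at h3
    rw [le_inv_comm₀ (zpow_pos (zero_lt_iff.2 (val_r_ne P)) _) (zero_lt_iff.2 h6)]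
    exact h3
  have hC'0 : C' ≠ 0 := by
    intro h7
    rw [h7, zero_mul, map_zero] at h2
    exact zero_ne_one h2
  obtain ⟨κ, hκ⟩ := mem_val_exp P C' hC'0
  refine ⟨κ, X, Y, hX.trans hεlt, hY.trans hεlt, fun ξ hξS hu => ?_⟩
  obtain ⟨k, hk⟩ := hξ ξ hξS
  -- the difference
  have hxy : Le r c ((x ⊗ₜ[ℚ] (1 : E) + y ⊗ₜ[ℚ] ξ) -
      (1 : ℚ_[r]) ⊗ₜ[ℚ] ((X : E) + ξ * (Y : E))) ε := by
    have e : (x ⊗ₜ[ℚ] (1 : E) + y ⊗ₜ[ℚ] ξ : Loc r E) -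
        (1 : ℚ_[r]) ⊗ₜ[ℚ] ((X : E) + ξ * (Y : E)) =
        (x - X) • ((1 : ℚ_[r]) ⊗ₜ[ℚ] (c.z ^ 0)) + (y - Y) • ((1 : ℚ_[r]) ⊗ₜ[ℚ] (c.z ^ k)) := by
      have e1 : ∀ (t : ℤ) (s : E), ((1 : ℚ_[r]) ⊗ₜ[ℚ] ((t : E) * s) : Loc r E) =
          (t : ℚ_[r]) ⊗ₜ[ℚ] s := by
        intro t s
        have e2 : (t : E) * s = (t : ℚ) • s := by rw [Algebra.smul_def]; simp
        rw [e2, ← TensorProduct.smul_tmul, Algebra.smul_def]
        simp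
      rw [TensorProduct.smul_tmul', TensorProduct.smul_tmul', smul_eq_mul, smul_eq_mul, mul_one,
        mul_one, pow_zero, ← hk, TensorProduct.sub_tmul, TensorProduct.sub_tmul,
        TensorProduct.tmul_add, mul_comm ξ, e1, ← mul_one (X : E), e1]
      ring
    rw [e]
    have h5 := Le.smul hX.le (Le_pow_z (r := r) c 0) hε0.le
    have h6 := Le.smul hY.le (Le_pow_z (r := r) c k) hε0.le
    rw [mul_one] at h5 h6
    exact h5.add h6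
  have hXYB : Le r c ((1 : ℚ_[r]) ⊗ₜ[ℚ] ((X : E) + ξ * (Y : E))) 1 := by
    have e : ((1 : ℚ_[r]) ⊗ₜ[ℚ] ((X : E) + ξ * (Y : E)) : Loc r E) =
        (x ⊗ₜ[ℚ] (1 : E) + y ⊗ₜ[ℚ] ξ) - ((x ⊗ₜ[ℚ] (1 : E) + y ⊗ₜ[ℚ] ξ) -
          (1 : ℚ_[r]) ⊗ₜ[ℚ] ((X : E) + ξ * (Y : E))) := by ring
    rw [e]
    refine Le.sub (Le.add ?_ ?_) (hxy.mono hε1)
    · have h5 := Le.smul hx (Le_pow_z (r := r) c 0) zero_le_one
      rw [TensorProduct.smul_tmul', smul_eq_mul, mul_one, mul_one, pow_zero] at h5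
      exact h5
    · have h5 := Le.smul hy (Le_pow_z (r := r) c k) zero_le_one
      rw [TensorProduct.smul_tmul', smul_eq_mul, mul_one, mul_one, ← hk] at h5
      exact h5
  have hw'B : Le r c ((1 : ℚ_[r]) ⊗ₜ[ℚ] w' ξ) B := by
    have e : ((1 : ℚ_[r]) ⊗ₜ[ℚ] w' ξ : Loc r E) = w ξ - (w ξ - (1 : ℚ_[r]) ⊗ₜ[ℚ] w' ξ) := by ring
    rw [e]
    exact (hw ξ hξS).sub ((hw' ξ).mono (by linarith))
  have h5 : Le r c ((1 : ℚ_[r]) ⊗ₜ[ℚ] (C' * ((X : E) + ξ * (Y : E)) - δ ξ * w' ξ ^ p))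
      (ε * B ^ p) := by
    have hBp : B ≤ B ^ p := le_self_pow₀ hB1 hpp.ne_zero
    have e : ((1 : ℚ_[r]) ⊗ₜ[ℚ] (C' * ((X : E) + ξ * (Y : E)) - δ ξ * w' ξ ^ p) : Loc r E) =
        ((1 : ℚ_[r]) ⊗ₜ[ℚ] δ ξ) * (w ξ ^ p - ((1 : ℚ_[r]) ⊗ₜ[ℚ] w' ξ) ^ p) -
        ((C - (1 : ℚ_[r]) ⊗ₜ[ℚ] C') * ((1 : ℚ_[r]) ⊗ₜ[ℚ] ((X : E) + ξ * (Y : E))) +
          C * ((x ⊗ₜ[ℚ] (1 : E) + y ⊗ₜ[ℚ] ξ) - (1 : ℚ_[r]) ⊗ₜ[ℚ] ((X : E) + ξ * (Y : E)))) := by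
      rw [one_tmul_sub, one_tmul_mul, one_tmul_mul, one_tmul_pow]
      linear_combination h ξ hξS
    rw [e]
    refine Le.sub ?_ (Le.add ?_ ?_)
    · have h6 := Le.mul hB0 (mul_nonneg hε0.le (pow_nonneg hB0 (p - 1))) (hδB ξ hξS)
        (Le.pow_sub hB0 hε0.le (hw ξ hξS) hw'B (hw' ξ) p)
      have e2 : B * (ε * B ^ (p - 1)) = ε * B ^ p := by
        have e3 : B ^ p = B ^ (p - 1) * B := by
          rw [← pow_succ, Nat.sub_add_cancel hpp.one_le]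
        rw [e3]
        ring
      rwa [e2] at h6
    · refine (Le.mul hε0.le zero_le_one hC' hXYB).mono ?_
      exact mul_le_mul_of_nonneg_left (hB1.trans hBp) hε0.le
    · refine (Le.mul hB0 hε0.le hC hxy).mono ?_
      rw [mul_comm]
      exact mul_le_mul_of_nonneg_left hBp hε0.le
  have hεBp : ε * B ^ p = (r : ℝ) ^ (-((N : ℤ) - M * p)) := by
    rw [hε, hB, ← pow_mul, ← zpow_natCast, ← zpow_add₀ hrR0.ne']
    congr 1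
    push_cast
    ring
  rw [hεBp] at h5
  have h6 := val_eq_of_close c P hP _ _ ((N : ℤ) - M * p) M (by
    rw [hN]
    push_cast
    have : (0 : ℤ) ≤ M := by positivity
    nlinarith) h5 (by rw [map_mul, hu, mul_one]; exact h4)
  rw [map_mul, map_mul, hu, mul_one, hκ, map_pow] at h6
  have hw0 : w' ξ ≠ 0 := by
    intro h7
    rw [h7, map_zero, zero_pow hpp.ne_zero, mul_zero] at h6
    exact WithZero.exp_ne_zero h6.symm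
  obtain ⟨m, hm⟩ := mem_val_exp P (w' ξ) hw0
  refine ⟨-m, ?_⟩
  rw [hm] at h6
  have h7 : P.valuation E (δ ξ) = WithZero.exp κ * (WithZero.exp m ^ p)⁻¹ := by
    rw [eq_mul_inv_iff_mul_eq₀ (pow_ne_zero _ WithZero.exp_ne_zero)]
    exact h6
  rw [h7, ← WithZero.exp_nsmul, ← WithZero.exp_neg, ← WithZero.exp_add]
  congr 1
  simp

end

end Pool.Agent.K3h1.FC
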